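import Pool.Agent.Lib.MP_ba1bba_al.Spec

section
/-!
# MP_ba1bba_al, module ACT: the steps on reduced stacks
-/
set_option autoImplicit false

namespace Pool.Agent.Lib.MPba1bba

namespace ACTM

/-! ### unfolding -/

theorem stepA_mm (p i : ℕ) (w : Tr) (rest : List Tr) (k : ℤ) :
    stepA p (Tr.mm i w, rest, k) =
      if i + 1 = p then (w, rest, k + 1) else (Tr.mm (i + 1) w, rest, k) := rfl

theorem stepA_of (p : ℕ) (c : Tr) (h : ¬ endM c) (rest : List Tr) (k : ℤ) :
    stepA p (c, rest, k) = (Tr.mm 1 c, rest, k) := by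
  cases c with
  | nil => rfl
  | mm i w => exact absurd trivial h
  | ee r v w => rfl
  | uu r w => rfl

theorem stepA'_mm (p i : ℕ) (w : Tr) (rest : List Tr) (k : ℤ) :
    stepA' p (Tr.mm i w, rest, k) =
      if i = 1 then (w, rest, k) else (Tr.mm (i - 1) w, rest, k) := rfl

theorem stepA'_of (p : ℕ) (c : Tr) (h : ¬ endM c) (rest : List Tr) (k : ℤ) :
    stepA' p (c, rest, k) = (Tr.mm (p - 1) c, rest, k - 1) := by
  cases c with
  | nil => rfl
  | mm i w => exact absurd trivial h
  | ee r v w => rfl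
  | uu r w => rfl

theorem stepT_nil (m : ℕ) (c : Tr) (k : ℤ) :
    stepT m (c, [], k) = (Tr.uu (k % m).toNat c, [], k / m) := rfl

theorem stepT_cons (m : ℕ) (c c' : Tr) (rest : List Tr) (k : ℤ)
    (h : ¬ (c = Tr.nil ∧ (k % m).toNat = 0)) :
    stepT m (c, c' :: rest, k) = (Tr.ee (k % m).toNat c c', rest, k / m) := by
  rw [stepT, if_neg h]

theorem stepT_cons' (m : ℕ) (c c' : Tr) (rest : List Tr) (k : ℤ)
    (h : c = Tr.nil ∧ (k % m).toNat = 0) :
    stepT m (c, c' :: rest, k) = (c', rest, k / m) := by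
  rw [stepT, if_pos h]

theorem stepT'_ee (m r : ℕ) (v w : Tr) (rest : List Tr) (k : ℤ) :
    stepT' m (Tr.ee r v w, rest, k) = (v, w :: rest, r + m * k) := rfl

theorem stepT'_uu (m r : ℕ) (w : Tr) (rest : List Tr) (k : ℤ) :
    stepT' m (Tr.uu r w, rest, k) = (w, rest, r + m * k) := rfl

theorem stepT'_of (m : ℕ) (c : Tr) (h : c = Tr.nil ∨ endM c) (rest : List Tr) (k : ℤ) :
    stepT' m (c, rest, k) = (Tr.nil, c :: rest, m * k) := by
  cases c with
  | nil => rfl
  | mm i w => rfl
  | ee r v w => rcases h with h | h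
                · cases h
                · exact h.elim
  | uu r w => rcases h with h | h
              · cases h
              · exact h.elim

/-! ### reduced stacks -/

theorem okS_mm (p m i : ℕ) (w : Tr) (rest : List Tr) :
    okS p m (Tr.mm i w) rest ↔ 0 < i ∧ i < p ∧ ¬ endM w ∧ okS p m w rest := by
  cases rest with
  | nil => simp only [okS, okU]; tauto
  | cons c' rest => simp only [okS, okR]; tauto

theorem okS_ee (p m r : ℕ) (v w : Tr) (rest : List Tr) :
    okS p m (Tr.ee r v w) rest ↔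
      r < m ∧ ¬ (v = Tr.nil ∧ r = 0) ∧ okR p m v ∧ (w = Tr.nil ∨ endM w) ∧ okS p m w rest := by
  cases rest with
  | nil => simp only [okS, okU]; tauto
  | cons c' rest => simp only [okS, okR]; tauto

theorem okS_uu (p m r : ℕ) (w : Tr) (rest : List Tr) :
    okS p m (Tr.uu r w) rest ↔ rest = [] ∧ r < m ∧ okU p m w := by
  cases rest with
  | nil => simp [okS, okU]
  | cons c' rest => simp [okS, okR]

theorem okS_cons (p m : ℕ) (c c' : Tr) (rest : List Tr) :
    okS p m c (c' :: rest) ↔ okR p m c ∧ (c' = Tr.nil ∨ endM c') ∧ okS p m c' rest := Iff.rfl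

theorem mod_lt (m : ℕ) (hm : 1 ≤ m) (k : ℤ) : (k % m).toNat < m := by
  have h1 : 0 ≤ k % m := Int.emod_nonneg _ (by omega)
  have h2 : k % m < m := Int.emod_lt_of_pos _ (by omega)
  omega

theorem mod_add (m : ℕ) (hm : 1 ≤ m) (k : ℤ) : ((k % m).toNat : ℤ) + m * (k / m) = k := by
  have h1 : 0 ≤ k % m := Int.emod_nonneg _ (by omega)
  have h2 := Int.emod_add_mul_ediv k m
  omega

theorem mod_eq (m r : ℕ) (hr : r < m) (k : ℤ) : (((r : ℤ) + m * k) % m).toNat = r := by
  rw [Int.add_mul_emod_self_left, Int.emod_eq_of_lt (by omega) (by omega)]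
  omega

theorem div_eq (m r : ℕ) (hr : r < m) (k : ℤ) : ((r : ℤ) + m * k) / m = k := by
  rw [Int.add_mul_ediv_left _ _ (by omega), Int.ediv_eq_zero_of_lt (by omega) (by omega)]
  omega

/-! ### the steps preserve reduced stacks -/

theorem ok_stepA (p m : ℕ) (hp : 2 ≤ p) (c : Tr) (rest : List Tr) (k : ℤ)
    (h : okX p m (c, rest, k)) : okX p m (stepA p (c, rest, k)) := by
  have h' : okS p m c rest := h
  by_cases hc : endM c
  · cases c with
    | nil => exact hc.elim
    | mm i w =>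
      rw [okS_mm] at h'
      rw [stepA_mm]
      split_ifs with hi
      · exact h'.2.2.2
      · change okS p m (Tr.mm (i + 1) w) rest
        rw [okS_mm]
        exact ⟨by omega, by omega, h'.2.2⟩
    | ee r v w => exact hc.elim
    | uu r w => exact hc.elim
  · rw [stepA_of p c hc]
    change okS p m (Tr.mm 1 c) rest
    rw [okS_mm]
    exact ⟨by omega, by omega, hc, h'⟩

theorem ok_stepA' (p m : ℕ) (hp : 2 ≤ p) (c : Tr) (rest : List Tr) (k : ℤ)
    (h : okX p m (c, rest, k)) : okX p m (stepA' p (c, rest, k)) := by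
  have h' : okS p m c rest := h
  by_cases hc : endM c
  · cases c with
    | nil => exact hc.elim
    | mm i w =>
      rw [okS_mm] at h'
      rw [stepA'_mm]
      split_ifs with hi
      · exact h'.2.2.2
      · change okS p m (Tr.mm (i - 1) w) rest
        rw [okS_mm]
        exact ⟨by omega, by omega, h'.2.2⟩
    | ee r v w => exact hc.elim
    | uu r w => exact hc.elim
  · rw [stepA'_of p c hc]
    change okS p m (Tr.mm (p - 1) c) rest
    rw [okS_mm]
    exact ⟨by omega, by omega, hc, h'⟩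

theorem ok_stepT (p m : ℕ) (hm : 1 ≤ m) (c : Tr) (rest : List Tr) (k : ℤ)
    (h : okX p m (c, rest, k)) : okX p m (stepT m (c, rest, k)) := by
  cases rest with
  | nil =>
    rw [stepT_nil]
    change okS p m (Tr.uu (k % m).toNat c) []
    rw [okS_uu]
    exact ⟨rfl, mod_lt m hm k, h⟩
  | cons c' rest =>
    have h' : okR p m c ∧ (c' = Tr.nil ∨ endM c') ∧ okS p m c' rest := h
    by_cases hc : c = Tr.nil ∧ (k % m).toNat = 0
    · rw [stepT_cons' m c c' rest k hc]
      exact h'.2.2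
    · rw [stepT_cons m c c' rest k hc]
      change okS p m (Tr.ee (k % m).toNat c c') rest
      rw [okS_ee]
      exact ⟨mod_lt m hm k, hc, h'⟩

theorem ok_stepT' (p m : ℕ) (c : Tr) (rest : List Tr) (k : ℤ)
    (h : okX p m (c, rest, k)) : okX p m (stepT' m (c, rest, k)) := by
  have h' : okS p m c rest := h
  by_cases hc : c = Tr.nil ∨ endM c
  · rw [stepT'_of m c hc]
    exact ⟨trivial, hc, h'⟩
  · cases c with
    | nil => exact absurd (Or.inl rfl) hc
    | mm i w => exact absurd (Or.inr trivial) hc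
    | ee r v w =>
      rw [okS_ee] at h'
      rw [stepT'_ee]
      exact h'.2.2
    | uu r w =>
      rw [okS_uu] at h'
      rw [stepT'_uu, h'.1]
      exact h'.2.2

/-! ### inverse steps -/

theorem inv_A (p m : ℕ) (c : Tr) (rest : List Tr) (k : ℤ) (hp : 2 ≤ p)
    (h : okX p m (c, rest, k)) : stepA' p (stepA p (c, rest, k)) = (c, rest, k) := by
  have h' : okS p m c rest := h
  by_cases hc : endM c
  · cases c with
    | nil => exact hc.elim
    | mm i w =>
      rw [okS_mm] at h'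
      rw [stepA_mm]
      split_ifs with hi
      · rw [stepA'_of p w h'.2.2.1]
        have h1 : p - 1 = i := by omega
        rw [h1, add_sub_cancel_right]
      · rw [stepA'_mm, if_neg (by omega), Nat.add_sub_cancel]
    | ee r v w => exact hc.elim
    | uu r w => exact hc.elim
  · rw [stepA_of p c hc, stepA'_mm, if_pos rfl]

theorem inv_A' (p m : ℕ) (c : Tr) (rest : List Tr) (k : ℤ) (hp : 2 ≤ p)
    (h : okX p m (c, rest, k)) : stepA p (stepA' p (c, rest, k)) = (c, rest, k) := by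
  have h' : okS p m c rest := h
  by_cases hc : endM c
  · cases c with
    | nil => exact hc.elim
    | mm i w =>
      rw [okS_mm] at h'
      rw [stepA'_mm]
      split_ifs with hi
      · rw [stepA_of p w h'.2.2.1, hi]
      · rw [stepA_mm, if_neg (by omega), Nat.sub_add_cancel (by omega)]
    | ee r v w => exact hc.elim
    | uu r w => exact hc.elim
  · rw [stepA'_of p c hc, stepA_mm, if_pos (by omega), sub_add_cancel]

theorem inv_T (p m : ℕ) (hm : 1 ≤ m) (c : Tr) (rest : List Tr) (k : ℤ)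
    (h : okX p m (c, rest, k)) : stepT' m (stepT m (c, rest, k)) = (c, rest, k) := by
  cases rest with
  | nil => rw [stepT_nil, stepT'_uu, mod_add m hm]
  | cons c' rest =>
    have h' : okR p m c ∧ (c' = Tr.nil ∨ endM c') ∧ okS p m c' rest := h
    by_cases hc : c = Tr.nil ∧ (k % m).toNat = 0
    · have h1 := mod_add m hm k
      rw [hc.2] at h1
      rw [stepT_cons' m c c' rest k hc, stepT'_of m c' h'.2.1, hc.1]
      have h2 : (m : ℤ) * (k / m) = k := by simpa using h1
      rw [h2]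
    · rw [stepT_cons m c c' rest k hc, stepT'_ee, mod_add m hm]

theorem inv_T' (p m : ℕ) (hm : 1 ≤ m) (c : Tr) (rest : List Tr) (k : ℤ)
    (h : okX p m (c, rest, k)) : stepT m (stepT' m (c, rest, k)) = (c, rest, k) := by
  have h' : okS p m c rest := h
  by_cases hc : c = Tr.nil ∨ endM c
  · rw [stepT'_of m c hc]
    have h1 := mod_eq m 0 (by omega) k
    have h2 := div_eq m 0 (by omega) k
    simp only [Nat.cast_zero, zero_add] at h1 h2
    rw [stepT_cons' m _ _ _ _ ⟨rfl, h1⟩, h2]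
  · cases c with
    | nil => exact absurd (Or.inl rfl) hc
    | mm i w => exact absurd (Or.inr trivial) hc
    | ee r v w =>
      rw [okS_ee] at h'
      rw [stepT'_ee, stepT_cons m _ _ _ _ (by rw [mod_eq m r h'.1]; exact h'.2.1),
        mod_eq m r h'.1, div_eq m r h'.1]
    | uu r w =>
      rw [okS_uu] at h'
      rw [stepT'_uu, h'.1, stepT_nil, mod_eq m r h'.2.1, div_eq m r h'.2.1]

/-! ### iterates of the step `a` -/

theorem iter_lt (p : ℕ) (w : Tr) (hw : ¬ endM w) (rest : List Tr) (k : ℤ) (i : ℕ)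
    (hi : i + 1 < p) : (stepA p)^[i + 1] (w, rest, k) = (Tr.mm (i + 1) w, rest, k) := by
  induction i with
  | zero => exact stepA_of p w hw rest k
  | succ i ih =>
    rw [Function.iterate_succ_apply', ih (by omega), stepA_mm, if_neg (by omega)]

theorem iter_mm (p : ℕ) (w : Tr) (hw : ¬ endM w) (rest : List Tr) (k : ℤ) (i : ℕ)
    (h0 : 0 < i) (hi : i < p) : (stepA p)^[i] (w, rest, k) = (Tr.mm i w, rest, k) := by
  obtain ⟨j, rfl⟩ : ∃ j, i = j + 1 := ⟨i - 1, by omega⟩
  exact iter_lt p w hw rest k j hi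

theorem iter_p (p : ℕ) (hp : 2 ≤ p) (w : Tr) (hw : ¬ endM w) (rest : List Tr) (k : ℤ) :
    (stepA p)^[p] (w, rest, k) = (w, rest, k + 1) := by
  obtain ⟨j, rfl⟩ : ∃ j, p = j + 2 := ⟨p - 2, by omega⟩
  rw [Function.iterate_succ_apply', iter_lt (j + 2) w hw rest k j (by omega), stepA_mm,
    if_pos (by omega)]

theorem iter_all (p m : ℕ) (hp : 2 ≤ p) (c : Tr) (rest : List Tr) (k : ℤ)
    (h : okX p m (c, rest, k)) : (stepA p)^[p] (c, rest, k) = (c, rest, k + 1) := by
  have h' : okS p m c rest := h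
  by_cases hc : endM c
  · cases c with
    | nil => exact hc.elim
    | mm i w =>
      rw [okS_mm] at h'
      rw [← iter_mm p w h'.2.2.1 rest k i h'.1 h'.2.1, ← Function.iterate_add_apply, add_comm p i,
        Function.iterate_add_apply, iter_p p hp w h'.2.2.1 rest k,
        iter_mm p w h'.2.2.1 rest (k + 1) i h'.1 h'.2.1]
    | ee r v w => exact hc.elim
    | uu r w => exact hc.elim
  · exact iter_p p hp c hc rest k

end ACTM

open ACTM

/-- **ACT**. The four steps preserve reduced stacks, are inverse to each other on them, and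
`p` steps `a` add one to the exponent. -/
theorem specACT : SpecACT := by
  intro p m hp hm
  refine ⟨fun x hx => ?_, fun x hx => ?_, fun c rest k h => iter_all p m hp c rest k h⟩
  · obtain ⟨c, rest, k⟩ := x
    exact ⟨ok_stepA p m hp c rest k hx, ok_stepA' p m hp c rest k hx, ok_stepT p m hm c rest k hx,
      ok_stepT' p m c rest k hx⟩
  · obtain ⟨c, rest, k⟩ := x
    exact ⟨inv_A p m c rest k hp hx, inv_A' p m c rest k hp hx, inv_T p m hm c rest k hx,
      inv_T' p m hm c rest k hx⟩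

end Pool.Agent.Lib.MPba1bba
end

section
/-!
# MP_ba1bba_al: module ALG, elimination
-/
set_option autoImplicit false

namespace Pool.Agent.Lib.MPba1bba

namespace ALGM

open PowerSeries

theorem coeff_serY (p : ℕ) : constantCoeff (serY p) = 0 := by
  rw [serY, map_sum]
  apply Finset.sum_eq_zero
  intro i hi
  rw [Finset.mem_Ioo] at hi
  rw [← coeff_zero_eq_constantCoeff_apply, coeff_monomial, if_neg]
  omega

/-- `1 - F` is invertible if the constant coefficient of `F` is `0`. -/
theorem exists_inv (F : Ser) (h : constantCoeff F = 0) : ∃ v : Ser, (1 - F) * v = 1 := by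
  have : IsUnit (1 - F) := by
    rw [isUnit_iff_constantCoeff, map_sub, map_one, h, sub_zero]
    exact isUnit_one
  exact this.exists_right_inv

end ALGM

open ALGM PowerSeries in
theorem specALG (hUNQ : SpecUNQ) : SpecALG := by
  intro p m A E B H K R U F hR hA hE hU hB hH hK hF
  obtain ⟨v, hv⟩ := exists_inv (serY p * E) (by rw [map_mul, coeff_serY, zero_mul])
  set Y := serY p with hY
  have hcan : ∀ a b : Ser, (1 - Y * E) * a = (1 - Y * E) * b → a = b := by
    intro a b hab
    calc a = ((1 - Y * E) * v) * a := by rw [hv, one_mul]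
      _ = v * ((1 - Y * E) * a) := by ring
      _ = v * ((1 - Y * E) * b) := by rw [hab]
      _ = ((1 - Y * E) * v) * b := by ring
      _ = b := by rw [hv, one_mul]
  have hQ : (1 - Y * E) * (Y * v) = Y := by
    calc (1 - Y * E) * (Y * v) = Y * ((1 - Y * E) * v) := by ring
      _ = Y := by rw [hv, mul_one]
  have hA' : A = Y * v * (1 + E) := by
    apply hcan
    calc (1 - Y * E) * A = A - Y * E * A := by ring
      _ = Y * (1 + E * (1 + A)) - Y * E * A := by rw [← hA]
      _ = Y * (1 + E) := by ring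
      _ = (1 - Y * E) * (Y * v) * (1 + E) := by rw [hQ]
      _ = _ := by ring
  have hA1 : (1 - Y * E) * (1 + A) = 1 + Y := by
    calc (1 - Y * E) * (1 + A) = (1 - Y * E) + (A - Y * E * A) := by ring
      _ = (1 - Y * E) + (Y * (1 + E * (1 + A)) - Y * E * A) := by rw [← hA]
      _ = 1 + Y := by ring
  have hB1 : (1 - Y * E) * (1 + B) = 1 + Y + Y * H := by
    calc (1 - Y * E) * (1 + B) = (1 - Y * E) + (B - Y * E * B) := by ring
      _ = (1 - Y * E) + (Y * (1 + H + E * (1 + B)) - Y * E * B) := by rw [← hB]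
      _ = 1 + Y + Y * H := by ring
  have hU1 : U = (1 + A) * (1 + E + H) := by
    apply hcan
    calc (1 - Y * E) * U = ((1 - Y * E) * (1 + B)) * (1 + E) + (1 - Y * E) * H := by
          rw [hU]; ring
      _ = (1 + Y) * (1 + E + H) := by rw [hB1]; ring
      _ = ((1 - Y * E) * (1 + A)) * (1 + E + H) := by rw [hA1]
      _ = _ := by ring
  have hK1 : K = H := by
    apply (hUNQ p m).2 A E H K
    · rw [← hU1]; exact hH
    · have : (1 + A) * (1 + E + K) = R + (1 + A) * K := by rw [hR]; ring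
      rw [this]; exact hK
  refine ⟨Y * v, ⟨?_, ?_, ?_⟩, ?_⟩
  · calc Y * v = (1 - Y * E) * (Y * v) + Y * E * (Y * v) := by ring
      _ = Y + Y * E * (Y * v) := by rw [hQ]
  · have : R = 1 + E + Y * v * (1 + E) ^ 2 := by rw [hR, hA']; ring
    rw [← this]; exact hE
  · rw [← hA', ← hU1]; exact hH
  · apply hcan
    calc (1 - Y * E) * F = (1 - Y * E) * U + ((1 - Y * E) * (1 + B)) * H := by
          rw [hF, hK1]; ring
      _ = ((1 - Y * E) * (1 + A)) * (1 + E + H) + ((1 - Y * E) * (1 + B)) * H := by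
          rw [hU1]; ring
      _ = (1 - Y * E) * (1 + E + 2 * H) + Y * (1 + E + H) ^ 2 := by rw [hA1, hB1]; ring
      _ = (1 - Y * E) * (1 + E + 2 * H) + ((1 - Y * E) * (Y * v)) * (1 + E + H) ^ 2 := by
          rw [hQ]
      _ = _ := by ring

end Pool.Agent.Lib.MPba1bba
end

section
/-!
# MP_ba1bba_al : BFN
-/
namespace Pool.Agent.Lib.MPba1bba

namespace BFNM

theorem ex (p : ℕ) (s : Multiset ℤ) (k : ℤ) : ∃ A B : Multiset ℤ, A + B = s ∧
    bfun p s k = sumPos A + sumNeg B + p * (k - (A.card : ℤ)).natAbs := by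
  have hne : {n : ℕ | ∃ A B : Multiset ℤ, A + B = s ∧
    n = sumPos A + sumNeg B + p * (k - (A.card : ℤ)).natAbs}.Nonempty :=
    ⟨_, 0, s, by simp, rfl⟩
  exact Nat.sInf_mem hne

theorem le (p : ℕ) (s : Multiset ℤ) (k : ℤ) (A B : Multiset ℤ) (h : A + B = s) :
    bfun p s k ≤ sumPos A + sumNeg B + p * (k - (A.card : ℤ)).natAbs :=
  Nat.sInf_le ⟨A, B, h, rfl⟩

theorem sumPos_add (A B : Multiset ℤ) : sumPos (A + B) = sumPos A + sumPos B := by
  simp [sumPos]

theorem sumNeg_add (A B : Multiset ℤ) : sumNeg (A + B) = sumNeg A + sumNeg B := by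
  simp [sumNeg]

theorem ic_ex (f g : ℤ → ℕ) (k : ℤ) : ∃ j, ic f g k = f j + g (k - j) := by
  obtain ⟨j, hj⟩ := Nat.sInf_mem (s := Set.range fun j : ℤ => f j + g (k - j))
    (Set.range_nonempty _)
  exact ⟨j, hj.symm⟩

theorem ic_le (f g : ℤ → ℕ) (k j : ℤ) : ic f g k ≤ f j + g (k - j) :=
  ciInf_le (OrderBot.bddBelow _) j

theorem tri (p : ℕ) (a b c : ℤ) (h : a = b + c) : p * a.natAbs ≤ p * b.natAbs + p * c.natAbs := by
  rw [← Nat.mul_add, h]
  exact Nat.mul_le_mul_left p (Int.natAbs_add_le b c)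

theorem bzero (p : ℕ) (k : ℤ) : bfun p 0 k = p * k.natAbs := by
  obtain ⟨A, B, h, hk⟩ := ex p 0 k
  obtain ⟨hA, hB⟩ := add_eq_zero.1 h
  rw [hk, hA, hB]
  simp [sumPos, sumNeg]

theorem split (s t A B : Multiset ℤ) (h : A + B = s + t) :
    ∃ A1 B1 A2 B2 : Multiset ℤ, A1 + B1 = s ∧ A2 + B2 = t ∧ A1 + A2 = A ∧ B1 + B2 = B := by
  classical
  refine ⟨A ∩ s, s - A, A - s, B - (s - A), ?_, ?_, ?_, ?_⟩
  all_goals
    ext a
    have h1 : A.count a + B.count a = s.count a + t.count a := by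
      rw [← Multiset.count_add, ← Multiset.count_add, h]
    simp only [Multiset.count_add, Multiset.count_inter, Multiset.count_sub]
    omega

theorem badd (p : ℕ) (s t : Multiset ℤ) : bfun p (s + t) = ic (bfun p s) (bfun p t) := by
  funext k
  apply le_antisymm
  · obtain ⟨j, hj⟩ := ic_ex (bfun p s) (bfun p t) k
    rw [hj]
    obtain ⟨A, B, h, hk⟩ := ex p s j
    obtain ⟨A', B', h', hk'⟩ := ex p t (k - j)
    rw [hk, hk']
    refine (le p (s + t) k (A + A') (B + B') (by rw [← h, ← h']; abel)).trans ?_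
    rw [sumPos_add, sumNeg_add, Multiset.card_add]
    have := tri p (k - ((A.card + A'.card : ℕ) : ℤ)) (j - (A.card : ℤ)) (k - j - (A'.card : ℤ))
      (by push_cast; ring)
    omega
  · obtain ⟨A, B, h, hk⟩ := ex p (s + t) k
    rw [hk]
    obtain ⟨A1, B1, A2, B2, h1, h2, h3, h4⟩ := split s t A B h
    refine (ic_le (bfun p s) (bfun p t) k (A1.card : ℤ)).trans ?_
    have e1 := le p s (A1.card : ℤ) A1 B1 h1
    have e2 := le p t (k - A1.card) A2 B2 h2
    rw [← h3, ← h4, sumPos_add, sumNeg_add, Multiset.card_add]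
    rw [sub_self, Int.natAbs_zero, mul_zero] at e1
    rw [show k - ((A1.card + A2.card : ℕ) : ℤ) = k - (A1.card : ℤ) - (A2.card : ℤ) by
      push_cast; ring]
    omega

theorem lip (p : ℕ) (s : Multiset ℤ) (k l : ℤ) :
    bfun p s k ≤ bfun p s l + p * (k - l).natAbs := by
  obtain ⟨A, B, h, hk⟩ := ex p s l
  rw [hk]
  refine (le p s k A B h).trans ?_
  have := tri p (k - (A.card : ℤ)) (l - (A.card : ℤ)) (k - l) (by ring)
  omega

theorem bone (p : ℕ) (x k : ℤ) : bfun p {x} k =
    min ((-x).toNat + p * k.natAbs) (x.toNat + p * (k - 1).natAbs) := by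
  have e1 := le p {x} k 0 {x} (by simp)
  have e2 := le p {x} k {x} 0 (by simp)
  simp only [sumPos, sumNeg, Multiset.map_zero, Multiset.sum_zero, Multiset.map_singleton,
    Multiset.sum_singleton, Multiset.card_zero, Nat.cast_zero, sub_zero, zero_add, add_zero,
    Multiset.card_singleton, Nat.cast_one] at e1 e2
  apply le_antisymm (le_min e1 e2)
  obtain ⟨A, B, h, hk⟩ := ex p {x} k
  rw [hk]
  have hc : A.card + B.card = 1 := by
    rw [← Multiset.card_add, h, Multiset.card_singleton]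
  rcases Nat.eq_zero_or_pos A.card with h0 | h0
  · have hA : A = 0 := Multiset.card_eq_zero.1 h0
    rw [hA, zero_add] at h
    rw [hA, h]
    apply min_le_of_left_le
    simp [sumPos, sumNeg]
  · have hB : B = 0 := Multiset.card_eq_zero.1 (by omega)
    rw [hB, add_zero] at h
    rw [hB, h]
    apply min_le_of_right_le
    simp [sumPos, sumNeg]

end BFNM

theorem specBFN : SpecBFN := fun p =>
  ⟨BFNM.ex p, BFNM.le p, BFNM.bzero p, BFNM.badd p, BFNM.lip p, BFNM.bone p⟩

end Pool.Agent.Lib.MPba1bba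
end

section
/-!
# MP_ba1bba_al: counting the spheres (module CNT)
-/
namespace Pool.Agent.Lib.MPba1bba

namespace CNTM

/-- The state of a pair. -/
noncomputable def sg (p m : ℕ) (y : TF p m) : Sta := stt p m y.1.1 + ts p m y.1.2

/-- The triple of a pair with shifted exponent. -/
noncomputable def tr (p m : ℕ) (y : TF p m × ℤ) : Tr × List (Tr × ℕ) × ℤ :=
  (y.1.1.1, y.1.1.2, y.2 + (sg p m y.1).2.2)

/-- The reduced stack of a pair with exponent. -/
noncomputable def st (p m : ℕ) (y : TF p m × ℤ) : Stk :=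
  th m (tr p m y).1 [] (tr p m y).2.1 (tr p m y).2.2

theorem ok_tr (p m : ℕ) (y : TF p m × ℤ) : okF p m (tr p m y) := y.1.2

theorem ok_st (p m : ℕ) (hm : 1 ≤ m) (hT : SpecTHB) (y : TF p m × ℤ) : okX p m (st p m y) :=
  (hT p m hm).mapsTo (ok_tr p m y)

theorem bij_st (p m : ℕ) (hm : 1 ≤ m) (hT : SpecTHB) :
    Function.Bijective (fun y : TF p m × ℤ => (⟨st p m y, ok_st p m hm hT y⟩ : {x // okX p m x})) := by
  constructor
  · rintro ⟨⟨⟨w, tl⟩, hy⟩, k⟩ ⟨⟨⟨w', tl'⟩, hy'⟩, k'⟩ h
    have h1 := congrArg Subtype.val h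
    dsimp only at h1
    have h2 := (hT p m hm).injOn (ok_tr p m ⟨⟨⟨w, tl⟩, hy⟩, k⟩)
      (ok_tr p m ⟨⟨⟨w', tl'⟩, hy'⟩, k'⟩) h1
    simp only [tr, Prod.mk.injEq] at h2
    obtain ⟨rfl, rfl, h3⟩ := h2
    have h4 : k = k' := by linarith
    rw [h4]
  · rintro ⟨x, hx⟩
    obtain ⟨⟨w, tl, k⟩, ⟨h1, h2, h3⟩, h4⟩ := (hT p m hm).surjOn hx
    refine ⟨(⟨(w, tl), h1, h2, h3⟩, k - (sg p m ⟨(w, tl), h1, h2, h3⟩).2.2), ?_⟩
    apply Subtype.ext
    dsimp only
    rw [← h4]
    simp only [st, tr, sub_add_cancel]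

theorem len_st (p m : ℕ) (hp : 2 ≤ p) (hm : 1 ≤ m) (hF : SpecTHF) (hS : SpecSTT) (hR : SpecRAD)
    (y : TF p m × ℤ) : spX p m (st p m y) =
      (stt p m y.1.1.1 + ts p m y.1.1.2).1 +
        ic (bfun p (stt p m y.1.1.1 + ts p m y.1.1.2).2.1) (efun p m) y.2 := by
  have hp1 : 1 ≤ p := by omega
  have e1 : spX p m (st p m y) =
      ic (sp p m y.1.1.1 []) (gt p m y.1.1.2) (y.2 + (sg p m y.1).2.2) :=
    hF p m hp1 hm y.1.1.1 [] y.1.1.2 (y.2 + (sg p m y.1).2.2)
  have e2 : sp p m y.1.1.1 [] = rlz p m (stt p m y.1.1.1) := by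
    rw [sp]
    exact ((hS p m hp1 hm).1 y.1.1.1 (Or.inr y.1.2.1)).1
  have e3 : gt p m y.1.1.2 = rlz p m (ts p m y.1.1.2) :=
    ((hS p m hp1 hm).2 y.1.1.2 y.1.2.2.1).1
  rw [e1, e2, e3, (hR p m hp1 hm).1, rlz]
  congr 2
  rw [sg]
  ring

end CNTM

open CNTM in
theorem specCNT (hB : SpecBIJ) (hL : SpecLEN) (hT : SpecTHB) (hF : SpecTHF) (hS : SpecSTT)
    (hR : SpecRAD) : SpecCNT := by
  intro p m hp hm n
  have hbij : Function.Bijective (fun y : TF p m × ℤ => evX p m (st p m y)) :=
    (hB p m hp hm).comp (bij_st p m hm hT)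
  symm
  refine Nat.card_congr ((Equiv.ofBijective _ hbij).subtypeEquiv fun y => ?_)
  rw [Equiv.ofBijective_apply, hL p m hp hm _ (ok_st p m hm hT y), len_st p m hp hm hF hS hR]

end Pool.Agent.Lib.MPba1bba
end

section
namespace Pool.Agent.Lib.MPba1bba
namespace SRTM

lemma sumPos_cons (x : ℤ) (s : Multiset ℤ) : sumPos (x ::ₘ s) = x.toNat + sumPos s := by
  simp [sumPos]

lemma sumNeg_cons (x : ℤ) (s : Multiset ℤ) : sumNeg (x ::ₘ s) = (-x).toNat + sumNeg s := by
  simp [sumNeg]

lemma ins (hB : SpecBFN) (p : ℕ) (x : ℤ) (s : Multiset ℤ) (k : ℤ) :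
    bfun p (x ::ₘ s) k = min ((-x).toNat + bfun p s k) (x.toNat + bfun p s (k - 1)) := by
  obtain ⟨hat, hle, -⟩ := hB p
  apply le_antisymm
  · refine le_min ?_ ?_
    · obtain ⟨A, B, hAB, h⟩ := hat s k
      have := hle (x ::ₘ s) k A (x ::ₘ B) (by rw [← hAB]; simp)
      rw [sumNeg_cons] at this
      omega
    · obtain ⟨A, B, hAB, h⟩ := hat s (k - 1)
      have := hle (x ::ₘ s) k (x ::ₘ A) B (by rw [← hAB]; simp)
      rw [sumPos_cons] at this
      have h2 : (k - (((x ::ₘ A).card : ℕ) : ℤ)).natAbs = (k - 1 - (A.card : ℤ)).natAbs := by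
        simp only [Multiset.card_cons]; congr 1; push_cast; ring
      rw [h2] at this
      omega
  · obtain ⟨A, B, hAB, h⟩ := hat (x ::ₘ s) k
    have hx : x ∈ A + B := by rw [hAB]; simp
    rcases Multiset.mem_add.1 hx with hx | hx
    · obtain ⟨A', rfl⟩ := Multiset.exists_cons_of_mem hx
      have hs : A' + B = s := by
        have : x ::ₘ (A' + B) = x ::ₘ s := by rw [← hAB]; simp
        exact (Multiset.cons_inj_right x).1 this
      have := hle s (k - 1) A' B hs
      have h2 : (k - (((x ::ₘ A').card : ℕ) : ℤ)).natAbs = (k - 1 - (A'.card : ℤ)).natAbs := by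
        simp only [Multiset.card_cons]; congr 1; push_cast; ring
      rw [h2, sumPos_cons] at h
      refine (min_le_right _ _).trans ?_
      omega
    · obtain ⟨B', rfl⟩ := Multiset.exists_cons_of_mem hx
      have hs : A + B' = s := by
        have : x ::ₘ (A + B') = x ::ₘ s := by rw [← hAB]; simp
        exact (Multiset.cons_inj_right x).1 this
      have := hle s k A B' hs
      rw [sumNeg_cons] at h
      refine (min_le_left _ _).trans ?_
      omega

/-- the right side -/
noncomputable def G (p : ℕ) (L : List ℤ) (k : ℤ) : ℕ :=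
  sumPos ((L.take k.toNat : List ℤ) : Multiset ℤ) +
    sumNeg ((L.drop k.toNat : List ℤ) : Multiset ℤ) + p * ((-k).toNat + (k - L.length).toNat)

lemma G_cons_pos (p : ℕ) (x : ℤ) (L : List ℤ) (n : ℕ) :
    G p (x :: L) (n + 1) = x.toNat + G p L n := by
  unfold G
  have h1 : ((n : ℤ) + 1).toNat = n + 1 := by omega
  have h2 : ((n : ℤ)).toNat = n := by omega
  rw [h1, h2]
  have h3 : (((n : ℤ) + 1) - ((x :: L).length : ℤ)).toNat = ((n : ℤ) - (L.length : ℤ)).toNat := by
    simp only [List.length_cons]; congr 1; push_cast; ring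
  have h4 : (-((n : ℤ) + 1)).toNat = 0 := by omega
  have h5 : (-(n : ℤ)).toNat = 0 := by omega
  rw [h3, h4, h5]
  simp only [List.take_succ_cons, List.drop_succ_cons]
  rw [← Multiset.cons_coe, sumPos_cons]
  omega

lemma G_nonpos (p : ℕ) (L : List ℤ) (k : ℤ) (hk : k ≤ 0) :
    G p L k = sumNeg (L : Multiset ℤ) + p * (-k).toNat := by
  unfold G
  have h1 : k.toNat = 0 := by omega
  have h2 : (k - (L.length : ℤ)).toNat = 0 := by omega
  rw [h1, h2]
  simp [sumPos]

lemma G_step (p : ℕ) (x : ℤ) (hxp : x < p) : ∀ (L : List ℤ), (∀ y ∈ L, x ≤ y) → ∀ n : ℕ,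
    (x : ℤ) + G p L n ≤ G p L (n + 1) := by
  intro L
  induction L with
  | nil =>
    intro _ n
    unfold G
    have h1 : ((n : ℤ) + 1).toNat = n + 1 := by omega
    have h3 : (((n : ℤ) + 1) - (([] : List ℤ).length : ℤ)).toNat = n + 1 := by simp
    have h3' : (((n : ℤ)) - (([] : List ℤ).length : ℤ)).toNat = n := by simp
    have h4 : (-((n : ℤ) + 1)).toNat = 0 := by omega
    have h5 : (-(n : ℤ)).toNat = 0 := by omega
    rw [h3, h3', h4, h5]
    simp [sumPos, sumNeg]
    nlinarith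
  | cons y L ih =>
    intro hL n
    have hy : x ≤ y := hL y (by simp)
    cases n with
    | zero =>
      have e1 : G p (y :: L) ((0 : ℕ) + 1) = y.toNat + G p L (0 : ℕ) := G_cons_pos p y L 0
      rw [e1]
      have e2 := G_nonpos p (y :: L) ((0 : ℕ) : ℤ) (by simp)
      have e3 := G_nonpos p L ((0 : ℕ) : ℤ) (by simp)
      rw [e2, e3, ← Multiset.cons_coe, sumNeg_cons]
      simp
      omega
    | succ n =>
      have e1 : G p (y :: L) (((n + 1 : ℕ) : ℤ) + 1) = y.toNat + G p L ((n + 1 : ℕ) : ℤ) :=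
        G_cons_pos p y L (n + 1)
      have e2 : G p (y :: L) ((n + 1 : ℕ) : ℤ) = y.toNat + G p L (n : ℤ) := by
        have := G_cons_pos p y L n
        push_cast at this ⊢
        exact this
      have := ih (fun z hz => hL z (by simp [hz])) n
      rw [e1, e2]
      push_cast at this ⊢
      linarith

end SRTM

open SRTM in
theorem specSRT (hB : SpecBFN) : SpecSRT := by
  intro p L
  have key : L.Pairwise (· ≤ ·) → (∀ x ∈ L, -(p : ℤ) < x ∧ x < p) → ∀ k : ℤ,
      bfun p (L : Multiset ℤ) k = G p L k := by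
    induction L with
    | nil =>
      intro _ _ k
      have := (hB p).2.2.1 k
      have h0 : (([] : List ℤ) : Multiset ℤ) = 0 := rfl
      rw [h0, this]
      unfold G
      simp [sumPos, sumNeg]
      left
      omega
    | cons x L ih =>
      intro hs hb k
      have hs' := List.pairwise_cons.1 hs
      have ih' := ih hs'.2 (fun y hy => hb y (by simp [hy]))
      have hx := hb x (by simp)
      rw [← Multiset.cons_coe, ins hB, ih' k, ih' (k - 1)]
      rcases le_or_gt k 0 with hk | hk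
      · rw [G_nonpos p L k hk, G_nonpos p L (k - 1) (by omega), G_nonpos p (x :: L) k hk,
          ← Multiset.cons_coe, sumNeg_cons, min_eq_left]
        · omega
        · have h1 : (-(k - 1)).toNat = (-k).toNat + 1 := by omega
          rw [h1, Nat.mul_add, Nat.mul_one]
          omega
      · obtain ⟨n, rfl⟩ : ∃ n : ℕ, k = n + 1 := ⟨(k - 1).toNat, by omega⟩
        have h1 : ((n : ℤ) + 1 - 1) = n := by ring
        rw [h1, G_cons_pos, min_eq_right]
        have := G_step p x hx.2 L hs'.1 n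
        omega
  intro hs hb k
  exact key hs hb k

end Pool.Agent.Lib.MPba1bba
end

section
namespace Pool.Agent.Lib.MPba1bba
namespace CVXM

open SRTM

lemma sumNeg_append (s t : Multiset ℤ) : sumNeg (s + t) = sumNeg s + sumNeg t := by
  simp [sumNeg]

lemma sumPos_append (s t : Multiset ℤ) : sumPos (s + t) = sumPos s + sumPos t := by
  simp [sumPos]

/-- step of `G` inside the list -/
lemma G_step_lt (p : ℕ) : ∀ (L : List ℤ) (n : ℕ) (hn : n < L.length),
    (G p L (n + 1) : ℤ) = G p L n + L[n] := by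
  intro L
  induction L with
  | nil => intro n hn; simp at hn
  | cons y L ih =>
    intro n hn
    cases n with
    | zero =>
      have e1 : G p (y :: L) (((0 : ℕ) : ℤ) + 1) = y.toNat + G p L (0 : ℕ) := G_cons_pos p y L 0
      rw [e1]
      have e2 := G_nonpos p (y :: L) ((0 : ℕ) : ℤ) (by simp)
      have e3 := G_nonpos p L ((0 : ℕ) : ℤ) (by simp)
      rw [e2, e3, ← Multiset.cons_coe, sumNeg_cons]
      simp
      omega
    | succ n =>
      have e1 : G p (y :: L) (((n + 1 : ℕ) : ℤ) + 1) = y.toNat + G p L ((n + 1 : ℕ) : ℤ) :=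
        G_cons_pos p y L (n + 1)
      have e2 : G p (y :: L) ((n + 1 : ℕ) : ℤ) = y.toNat + G p L (n : ℤ) := by
        have := G_cons_pos p y L n
        push_cast at this ⊢
        exact this
      have h3 : n < L.length := by simpa using hn
      have := ih n h3
      rw [e1, e2]
      push_cast at this ⊢
      rw [this]
      simp
      ring

lemma G_ge (p : ℕ) (L : List ℤ) (n d : ℕ) (hn : n = L.length) :
    G p L ((n : ℤ) + d) = G p L n + p * d := by
  subst hn
  unfold G
  have h1 : (((L.length : ℤ)) + (d : ℤ)).toNat = L.length + d := by omega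
  have h2 : ((L.length : ℤ)).toNat = L.length := by omega
  have h3 : ((L.length : ℤ) + (d : ℤ) - (L.length : ℤ)).toNat = d := by omega
  have h4 : ((L.length : ℤ) - (L.length : ℤ)).toNat = 0 := by omega
  have h5 : (-(((L.length : ℤ)) + (d : ℤ))).toNat = 0 := by omega
  have h6 : (-((L.length : ℤ))).toNat = 0 := by omega
  rw [h1, h2, h3, h4, h5, h6, List.take_of_length_le (by omega), List.drop_of_length_le (by omega),
    List.take_of_length_le (by omega), List.drop_of_length_le (by omega)]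
  simp

end CVXM

open SRTM CVXM in
theorem specCVX (hB : SpecBFN) (hSRT : SpecSRT) : SpecCVX := by
  intro p h hp hconv hN
  obtain ⟨N, hN1, hN2⟩ := hN
  set D : ℤ → ℤ := fun j => (h (j + 1) : ℤ) - h j with hD
  have hmono : Monotone D := by
    apply monotone_int_of_le_succ
    intro j
    have := hconv j
    simp only [hD]
    have e : j + 1 + 1 = j + 2 := by ring
    rw [e]
    exact this
  have hp' : (1 : ℤ) ≤ p := by exact_mod_cast hp
  -- y
  obtain ⟨y, hy1, hy2⟩ : ∃ y : ℤ, -(p : ℤ) < D y ∧ ∀ j, -(p : ℤ) < D j → y ≤ j := by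
    have := Int.exists_least_of_bdd (P := fun j => -(p : ℤ) < D j)
      ⟨-(N : ℤ), fun j hj => by
        by_contra hc
        push Not at hc
        have := hN1 j hc
        simp only [hD] at hj
        omega⟩
      ⟨(N : ℤ) + 1, by
        have := hN2 ((N : ℤ) + 1) (by omega)
        simp only [hD]
        omega⟩
    exact this
  obtain ⟨z, hz1, hz2⟩ : ∃ z : ℤ, (p : ℤ) ≤ D z ∧ ∀ j, (p : ℤ) ≤ D j → z ≤ j := by
    have := Int.exists_least_of_bdd (P := fun j => (p : ℤ) ≤ D j)
      ⟨-(N : ℤ), fun j hj => by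
        by_contra hc
        push Not at hc
        have := hN1 j hc
        simp only [hD] at hj
        omega⟩
      ⟨(N : ℤ) + 1, by
        have := hN2 ((N : ℤ) + 1) (by omega)
        simp only [hD]
        omega⟩
    exact this
  have hyz : y ≤ z := hy2 z (by omega)
  obtain ⟨n, hn⟩ : ∃ n : ℕ, z = y + n := ⟨(z - y).toNat, by omega⟩
  subst hn
  have hlow : ∀ j, j < y → D j ≤ -(p : ℤ) := by
    intro j hj
    by_contra hc
    push Not at hc
    have := hy2 j hc
    omega
  have hhigh : ∀ j, y + n ≤ j → (p : ℤ) ≤ D j := fun j hj => hz1.trans (hmono hj)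
  have hmid : ∀ j, y ≤ j → j < y + n → -(p : ℤ) < D j ∧ D j < p := by
    intro j hj1 hj2
    refine ⟨lt_of_lt_of_le hy1 (hmono hj1), ?_⟩
    by_contra hc
    push Not at hc
    have := hz2 j hc
    omega
  set L : List ℤ := (List.range n).map (fun i : ℕ => D (y + i)) with hL
  have hLlen : L.length = n := by simp [hL]
  have hLget : ∀ (i : ℕ) (hi : i < L.length), L[i] = D (y + i) := by
    intro i hi
    simp [hL]
  have hLs : L.Pairwise (· ≤ ·) := by
    rw [hL, List.pairwise_map]
    refine List.Pairwise.imp ?_ (List.pairwise_lt_range (n := n))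
    intro a b hab
    apply hmono
    omega
  have hLb : ∀ x ∈ L, -(p : ℤ) < x ∧ x < p := by
    intro x hx
    rw [hL, List.mem_map] at hx
    obtain ⟨i, hi, rfl⟩ := hx
    rw [List.mem_range] at hi
    exact hmid _ (by omega) (by omega)
  -- the multiset
  have hms : (∑ x ∈ Finset.Ioo (-(p : ℤ)) (p : ℤ),
      {j : ℤ | (h (j + 1) : ℤ) - h j = x}.ncard • ({x} : Multiset ℤ)) = (L : Multiset ℤ) := by
    ext a
    rw [Multiset.count_sum']
    have h1 : ∀ x ∈ Finset.Ioo (-(p : ℤ)) (p : ℤ),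
        Multiset.count a ({j : ℤ | (h (j + 1) : ℤ) - h j = x}.ncard • ({x} : Multiset ℤ)) =
          if a = x then {j : ℤ | D j = x}.ncard else 0 := by
      intro x _
      rw [Multiset.count_nsmul, Multiset.count_singleton]
      split_ifs <;> simp [hD]
    rw [Finset.sum_congr rfl h1, Finset.sum_ite_eq]
    rw [Multiset.coe_count]
    split_ifs with ha
    · rw [Finset.mem_Ioo] at ha
      have e1 : {j : ℤ | D j = a} = (fun i : ℕ => y + (i : ℤ)) '' {i : ℕ | i < n ∧ D (y + i) = a} := by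
        ext j
        simp only [Set.mem_setOf_eq, Set.mem_image]
        constructor
        · intro hj
          have h2 : y ≤ j := hy2 j (by omega)
          have h3 : j < y + n := by
            by_contra hc
            push Not at hc
            have := hhigh j hc
            omega
          refine ⟨(j - y).toNat, ⟨by omega, ?_⟩, by omega⟩
          have : y + (((j - y).toNat : ℕ) : ℤ) = j := by omega
          rw [this]; exact hj
        · rintro ⟨i, ⟨_, hi⟩, rfl⟩
          exact hi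
      rw [e1, Set.ncard_image_of_injective _ (fun i j hij => by
        have : y + (i : ℤ) = y + (j : ℤ) := hij
        omega)]
      rw [hL, List.count_eq_countP, List.countP_map, List.countP_eq_length_filter]
      have e2 : {i : ℕ | i < n ∧ D (y + i) = a} =
          ((Finset.range n).filter (fun i : ℕ => D (y + i) = a) : Finset ℕ) := by
        ext i
        simp
      rw [e2, Set.ncard_coe_finset, Finset.card_def, Finset.filter_val, Finset.range_val,
        Multiset.range, Multiset.filter_coe, Multiset.coe_card]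
      congr 1
    · symm
      rw [List.count_eq_zero]
      intro hm
      exact ha (Finset.mem_Ioo.2 (hLb a hm))
  -- values
  have hK : ∀ k : ℤ, bfun p (L : Multiset ℤ) k = G p L k := fun k => hSRT p L hLs hLb k
  obtain ⟨C, hC⟩ : ∃ C : ℤ, (h y : ℤ) = C + G p L (0 : ℕ) := ⟨h y - G p L (0 : ℕ), by ring⟩
  have hval : ∀ i : ℕ, i ≤ n → (h (y + i) : ℤ) = C + G p L (i : ℤ) := by
    intro i
    induction i with
    | zero => intro _; simpa using hC
    | succ i ih =>
      intro hi
      have h1 := ih (by omega)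
      have h2 := G_step_lt p L i (by omega)
      rw [hLget i (by omega)] at h2
      have h3 : D (y + i) = (h (y + i + 1) : ℤ) - h (y + i) := rfl
      have h4 : y + ((i + 1 : ℕ) : ℤ) = y + i + 1 := by push_cast; ring
      rw [h4]
      push_cast
      rw [h2, h3]
      linarith
  have hbelow : ∀ d : ℕ, (h y : ℤ) + p * d ≤ h (y - d) := by
    intro d
    induction d with
    | zero => simp
    | succ d ih =>
      have h1 := hlow (y - ((d + 1 : ℕ) : ℤ)) (by push_cast; omega)
      simp only [hD] at h1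
      have h2 : y - ((d + 1 : ℕ) : ℤ) + 1 = y - d := by push_cast; ring
      rw [h2] at h1
      push_cast at h1 ⊢
      nlinarith
  have habove : ∀ d : ℕ, (h (y + n) : ℤ) + p * d ≤ h (y + n + d) := by
    intro d
    induction d with
    | zero => simp
    | succ d ih =>
      have h1 := hhigh (y + n + d) (by omega)
      simp only [hD] at h1
      have h2 : y + (n : ℤ) + ((d + 1 : ℕ) : ℤ) = y + n + d + 1 := by push_cast; ring
      rw [h2]
      push_cast
      nlinarith
  have hG0 : ∀ d : ℕ, (G p L (-(d : ℤ)) : ℤ) = G p L (0 : ℕ) + p * d := by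
    intro d
    rw [G_nonpos p L (-(d : ℤ)) (by omega), G_nonpos p L ((0 : ℕ) : ℤ) (by simp)]
    simp
  have hGn : ∀ d : ℕ, (G p L ((n : ℤ) + d) : ℤ) = G p L (n : ℤ) + p * d := by
    intro d
    rw [G_ge p L n d hLlen.symm]
    push_cast
    ring
  have hall : ∀ j : ℤ, C + (G p L (j - y) : ℤ) ≤ h j := by
    intro j
    rcases lt_or_ge j y with hj | hj
    · obtain ⟨d, hd⟩ : ∃ d : ℕ, j = y - d := ⟨(y - j).toNat, by omega⟩
      subst hd
      have e : y - (d : ℤ) - y = -(d : ℤ) := by ring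
      rw [e, hG0]
      have := hbelow d
      linarith
    · rcases le_or_gt j (y + n) with hj2 | hj2
      · obtain ⟨i, hi⟩ : ∃ i : ℕ, j = y + i := ⟨(j - y).toNat, by omega⟩
        subst hi
        have e : y + (i : ℤ) - y = (i : ℤ) := by ring
        rw [e, hval i (by omega)]
      · obtain ⟨d, hd⟩ : ∃ d : ℕ, j = y + n + d := ⟨(j - y - n).toNat, by omega⟩
        subst hd
        have e : y + (n : ℤ) + (d : ℤ) - y = (n : ℤ) + d := by ring
        rw [e, hGn]
        have := habove d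
        have h3 := hval n le_rfl
        linarith
  -- the minimum
  have hCmin : C = ((⨅ j : ℤ, h j : ℕ) : ℤ) := by
    have hz : bfun p (L : Multiset ℤ) (((L.filter (fun x => decide (x < 0))).length : ℕ) : ℤ) = 0 := by
      have := (hB p).2.1 (L : Multiset ℤ) (((L.filter (fun x => decide (x < 0))).length : ℕ) : ℤ)
        (((L.filter (fun x => decide (x < 0))) : List ℤ) : Multiset ℤ)
        (((L.filter (fun x => !decide (x < 0))) : List ℤ) : Multiset ℤ) (by
          rw [Multiset.coe_add, Multiset.coe_eq_coe]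
          exact List.filter_append_perm (fun x => decide (x < 0)) L)
      refine Nat.eq_zero_of_le_zero (this.trans ?_)
      have e1 : sumPos (((L.filter (fun x => decide (x < 0))) : List ℤ) : Multiset ℤ) = 0 := by
        simp only [sumPos, Multiset.map_coe, Multiset.sum_coe, List.sum_eq_zero_iff, List.mem_map,
          List.mem_filter]
        rintro x ⟨y, ⟨_, hy⟩, rfl⟩
        simp at hy
        omega
      have e2 : sumNeg (((L.filter (fun x => !decide (x < 0))) : List ℤ) : Multiset ℤ) = 0 := by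
        simp only [sumNeg, Multiset.map_coe, Multiset.sum_coe, List.sum_eq_zero_iff, List.mem_map,
          List.mem_filter]
        rintro x ⟨y, ⟨_, hy⟩, rfl⟩
        simp at hy
        omega
      rw [e1, e2]
      simp
    set i0 := (L.filter (fun x => decide (x < 0))).length with hi0
    have hi0n : i0 ≤ n := by
      rw [← hLlen]
      exact List.length_filter_le _ _
    have h1 := hval i0 hi0n
    rw [← hK, hz] at h1
    have h2 : (⨅ j : ℤ, h j) ≤ h (y + i0) := ciInf_le (OrderBot.bddBelow _) _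
    obtain ⟨j0, hj0⟩ : ∃ j0, h j0 = ⨅ j : ℤ, h j := by
      have := Nat.sInf_mem (Set.range_nonempty h)
      exact this
    have h3 := hall j0
    rw [hj0] at h3
    have h4 : (0 : ℤ) ≤ (G p L (j0 - y) : ℤ) := by positivity
    have h2' : ((⨅ j : ℤ, h j : ℕ) : ℤ) ≤ h (y + i0) := by exact_mod_cast h2
    push_cast at h1
    omega
  refine ⟨y, fun k => ?_⟩
  rw [hms]
  set c := ⨅ j : ℤ, h j with hc
  apply le_antisymm
  · have hle : ∀ j, ic h (fun j => p * j.natAbs) k ≤ h j + p * (k - j).natAbs := by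
      intro j
      exact ciInf_le (OrderBot.bddBelow _) j
    rcases lt_or_ge k y with hk | hk
    · refine (hle y).trans ?_
      obtain ⟨d, hd⟩ : ∃ d : ℕ, k = y - d := ⟨(y - k).toNat, by omega⟩
      subst hd
      have e : y - (d : ℤ) - y = -(d : ℤ) := by ring
      rw [e, hK]
      have h5 := hG0 d
      have h6 : (-(d : ℤ)).natAbs = d := by simp
      rw [h6]
      zify
      rw [h5]
      have := hC
      linarith
    · rcases le_or_gt k (y + n) with hk2 | hk2
      · refine (hle k).trans ?_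
        obtain ⟨i, hi⟩ : ∃ i : ℕ, k = y + i := ⟨(k - y).toNat, by omega⟩
        subst hi
        have e : y + (i : ℤ) - y = (i : ℤ) := by ring
        rw [e, hK]
        have := hval i (by omega)
        simp
        zify
        linarith
      · refine (hle (y + n)).trans ?_
        obtain ⟨d, hd⟩ : ∃ d : ℕ, k = y + n + d := ⟨(k - y - n).toNat, by omega⟩
        subst hd
        have e : y + (n : ℤ) + (d : ℤ) - y = (n : ℤ) + d := by ring
        have e' : (y + (n : ℤ) + (d : ℤ) - (y + n)).natAbs = d := by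
          have : y + (n : ℤ) + (d : ℤ) - (y + n) = d := by ring
          rw [this]; simp
        rw [e, hK, e']
        have h5 := hGn d
        have := hval n le_rfl
        zify
        rw [h5]
        linarith
  · apply le_ciInf
    intro j
    have h1 := hall j
    have h2 := (hB p).2.2.2.2.1 (L : Multiset ℤ) (k - y) (j - y)
    rw [← hK] at h1
    have e : k - y - (j - y) = k - j := by ring
    rw [e] at h2
    zify at h2 ⊢
    linarith

end Pool.Agent.Lib.MPba1bba
end

section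
/-!
# MP_ba1bba_al : EFF
-/
namespace Pool.Agent.Lib.MPba1bba

namespace EFFM

theorem ic_ex (f g : ℤ → ℕ) (k : ℤ) : ∃ j, ic f g k = f j + g (k - j) := by
  obtain ⟨j, hj⟩ := Nat.sInf_mem (s := Set.range fun j : ℤ => f j + g (k - j))
    (Set.range_nonempty _)
  exact ⟨j, hj.symm⟩

theorem b_ex (p : ℕ) (s : Multiset ℤ) (k : ℤ) : ∃ A B : Multiset ℤ, A + B = s ∧
    bfun p s k = sumPos A + sumNeg B + p * (k - (A.card : ℤ)).natAbs := by
  have hne : {n : ℕ | ∃ A B : Multiset ℤ, A + B = s ∧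
    n = sumPos A + sumNeg B + p * (k - (A.card : ℤ)).natAbs}.Nonempty :=
    ⟨_, 0, s, by simp, rfl⟩
  exact Nat.sInf_mem hne

theorem e_ex (p m : ℕ) (k : ℤ) : ∃ d : List ℤ, dval m d = k ∧ efun p m k = dcost p d := by
  have hne : {n | ∃ d : List ℤ, dval m d = k ∧ n = dcost p d}.Nonempty :=
    ⟨dcost p [k], [k], by simp [dval], rfl⟩
  exact Nat.sInf_mem hne

theorem dval_le (m : ℕ) (hm : 1 ≤ m) : ∀ d : List ℤ,
    (dval m d).natAbs ≤ (d.map Int.natAbs).sum * m ^ d.length := by
  intro d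
  induction d with
  | nil => simp [dval]
  | cons x d ih =>
    have h1 : dval m (x :: d) = x + m * dval m d := rfl
    rw [h1]
    have h2 := Int.natAbs_add_le x (m * dval m d)
    rw [Int.natAbs_mul, Int.natAbs_natCast] at h2
    simp only [List.map_cons, List.sum_cons, List.length_cons]
    have h3 : x.natAbs ≤ x.natAbs * m ^ (d.length + 1) :=
      Nat.le_mul_of_pos_right _ (Nat.pow_pos hm)
    have h4 : m * (dval m d).natAbs ≤ (d.map Int.natAbs).sum * m ^ (d.length + 1) := by
      calc m * (dval m d).natAbs ≤ m * ((d.map Int.natAbs).sum * m ^ d.length) :=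
            Nat.mul_le_mul_left m ih
        _ = (d.map Int.natAbs).sum * m ^ (d.length + 1) := by ring
    rw [Nat.add_mul]
    omega

end EFFM

open EFFM in
theorem specEFF : SpecEFF := by
  intro p m hp hm s n
  apply (Set.finite_Icc (-((n + s.card + n * m ^ (n + 1) : ℕ) : ℤ))
    ((n + s.card + n * m ^ (n + 1) : ℕ) : ℤ)).subset
  intro k hk
  have hk : ic (bfun p s) (efun p m) k ≤ n := hk
  obtain ⟨j, hj⟩ := ic_ex (bfun p s) (efun p m) k
  rw [hj] at hk
  obtain ⟨A, B, hAB, hb⟩ := b_ex p s j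
  obtain ⟨d, hd, he⟩ := e_ex p m (k - j)
  have hc : A.card ≤ s.card := by
    rw [← hAB, Multiset.card_add]
    omega
  have h1 : (j - (A.card : ℤ)).natAbs ≤ p * (j - (A.card : ℤ)).natAbs :=
    Nat.le_mul_of_pos_left _ hp
  have h2 := dval_le m hm d
  rw [hd] at h2
  have h3 : (d.map Int.natAbs).sum ≤ p * (d.map Int.natAbs).sum := Nat.le_mul_of_pos_left _ hp
  rw [dcost] at he
  have h4 : (d.map Int.natAbs).sum * m ^ d.length ≤ n * m ^ (n + 1) :=
    Nat.mul_le_mul (by omega) (Nat.pow_le_pow_right hm (by omega))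
  have h5 : (k - j).natAbs ≤ n * m ^ (n + 1) := h2.trans h4
  generalize n * m ^ (n + 1) = M at h5 ⊢
  rw [Set.mem_Icc]
  push_cast
  omega

end Pool.Agent.Lib.MPba1bba
end

section
/-!
# MP_ba1bba_al : EFN
-/
namespace Pool.Agent.Lib.MPba1bba

namespace EFNM

theorem ex (p m : ℕ) (k : ℤ) : ∃ d : List ℤ, dval m d = k ∧ efun p m k = dcost p d := by
  have hne : {n | ∃ d : List ℤ, dval m d = k ∧ n = dcost p d}.Nonempty :=
    ⟨dcost p [k], [k], by simp [dval], rfl⟩
  exact Nat.sInf_mem hne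

theorem le (p m : ℕ) (d : List ℤ) : efun p m (dval m d) ≤ dcost p d :=
  Nat.sInf_le ⟨d, rfl, rfl⟩

theorem le' (p m : ℕ) (d : List ℤ) (k : ℤ) (h : dval m d = k) : efun p m k ≤ dcost p d := by
  rw [← h]
  exact le p m d

theorem dval_cons (m : ℕ) (x : ℤ) (d : List ℤ) : dval m (x :: d) = x + m * dval m d := rfl

theorem dcost_cons (p : ℕ) (x : ℤ) (d : List ℤ) :
    dcost p (x :: d) = p * x.natAbs + p * (d.map Int.natAbs).sum + 2 * d.length := by
  simp only [dcost, List.map_cons, List.sum_cons, List.length_cons, Nat.add_sub_cancel]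
  ring

theorem dcost_cons_ge (p : ℕ) (x : ℤ) (d : List ℤ) :
    p * x.natAbs + dcost p d ≤ dcost p (x :: d) := by
  rw [dcost_cons, dcost]
  omega

/-- Digitwise addition. -/
theorem add_ex (m : ℕ) : ∀ d d' : List ℤ, ∃ d'' : List ℤ, dval m d'' = dval m d + dval m d' ∧
    (d''.map Int.natAbs).sum ≤ (d.map Int.natAbs).sum + (d'.map Int.natAbs).sum ∧
    d''.length = max d.length d'.length := by
  intro d
  induction d with
  | nil =>
    intro d'
    exact ⟨d', by simp [dval], by simp, by simp⟩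
  | cons x d ih =>
    intro d'
    cases d' with
    | nil => exact ⟨x :: d, by simp [dval], by simp, by simp⟩
    | cons y d' =>
      obtain ⟨d'', h1, h2, h3⟩ := ih d'
      refine ⟨(x + y) :: d'', ?_, ?_, ?_⟩
      · rw [dval_cons, dval_cons, dval_cons, h1]
        ring
      · simp only [List.map_cons, List.sum_cons]
        have := Int.natAbs_add_le x y
        omega
      · simp only [List.length_cons, h3]
        omega

theorem sub (p m : ℕ) (k l : ℤ) : efun p m (k + l) ≤ efun p m k + efun p m l := by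
  obtain ⟨d, hd, hd'⟩ := ex p m k
  obtain ⟨e, he, he'⟩ := ex p m l
  obtain ⟨f, h1, h2, h3⟩ := add_ex m d e
  rw [hd, he] at h1
  refine (le' p m f _ h1).trans ?_
  rw [hd', he']
  have h4 : p * (f.map Int.natAbs).sum ≤ p * (d.map Int.natAbs).sum + p * (e.map Int.natAbs).sum := by
    rw [← Nat.mul_add]
    exact Nat.mul_le_mul_left p h2
  simp only [dcost, h3]
  omega

theorem neg_le (p m : ℕ) (k : ℤ) : efun p m (-k) ≤ efun p m k := by
  obtain ⟨d, hd, hd'⟩ := ex p m k
  have h1 : ∀ d : List ℤ, dval m (d.map fun x => -x) = - dval m d := by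
    intro d
    induction d with
    | nil => simp [dval]
    | cons x d ih =>
      rw [List.map_cons, dval_cons, dval_cons, ih]
      ring
  have h2 : ∀ d : List ℤ, ((d.map fun x => -x).map Int.natAbs).sum = (d.map Int.natAbs).sum := by
    intro d
    induction d with
    | nil => simp
    | cons x d ih =>
      simp only [List.map_cons, List.sum_cons, Int.natAbs_neg]
      rw [ih]
  refine (le' p m (d.map fun x => -x) (-k) (by rw [h1, hd])).trans ?_
  rw [hd']
  simp only [dcost, h2, List.length_map]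
  exact le_refl _

theorem zero (p m : ℕ) : efun p m 0 = 0 := by
  have h := le' p m [] 0 rfl
  simpa [dcost] using h

theorem le_abs (p m : ℕ) (k : ℤ) : efun p m k ≤ p * k.natAbs := by
  have h := le' p m [k] k (by simp [dval])
  simpa [dcost] using h

end EFNM

open EFNM in
theorem specEFN : SpecEFN := by
  intro p m hp hm
  refine ⟨zero p m, sub p m, ?_, le_abs p m, ?_, ?_, ?_, ex p m, le p m⟩
  · intro k
    apply le_antisymm (neg_le p m k)
    have h := neg_le p m (-k)
    rwa [neg_neg] at h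
  · intro k
    obtain ⟨d, hd, hd'⟩ := ex p m k
    rcases d with _ | ⟨x, d⟩
    · have hk : k = 0 := by rw [← hd]; rfl
      subst hk
      rw [mul_zero, zero]
      omega
    · refine (le' p m (0 :: x :: d) (m * k) (by rw [dval_cons, hd]; ring)).trans ?_
      rw [hd', dcost_cons, dcost_cons]
      simp only [Int.natAbs_zero, List.map_cons, List.sum_cons, List.length_cons, Nat.mul_add]
      omega
  · intro k
    obtain ⟨d, hd, hd'⟩ := ex p m (m * k)
    rcases d with _ | ⟨x, d⟩
    · have hk : (m : ℤ) * k = 0 := by rw [← hd]; rfl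
      have hk0 : k = 0 := by
        rcases mul_eq_zero.1 hk with h | h
        · exfalso
          have : (m : ℤ) ≥ 1 := by exact_mod_cast hm
          omega
        · exact h
      rw [hk0, zero]
      exact Nat.zero_le _
    · rw [hd']
      rw [dval_cons] at hd
      have hx : x = m * (k - dval m d) := by
        rw [mul_sub, ← hd]
        ring
      have h1 := sub p m (k - dval m d) (dval m d)
      rw [sub_add_cancel] at h1
      have h2 := le_abs p m (k - dval m d)
      have h3 := le p m d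
      have h4 : (k - dval m d).natAbs ≤ x.natAbs := by
        rw [hx, Int.natAbs_mul, Int.natAbs_natCast]
        exact Nat.le_mul_of_pos_left _ hm
      have h5 := dcost_cons_ge p x d
      have h6 := Nat.mul_le_mul_left p h4
      omega
  · intro n
    obtain ⟨d, hd, hd'⟩ := ex p m n
    rcases d with _ | ⟨x, d⟩
    · refine ⟨0, ?_⟩
      have hk : n = 0 := by rw [← hd]; rfl
      subst hk
      simp [zero]
    · refine ⟨dval m d, ?_⟩
      rw [dval_cons] at hd
      have h1 : n - m * dval m d = x := by rw [← hd]; ring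
      rw [h1, hd']
      have h2 := le p m d
      have h3 := dcost_cons_ge p x d
      omega

end Pool.Agent.Lib.MPba1bba
end

section
/-!
Auxiliary file for EQR, EQE, EQU, EQH: calculus of weight enumerators with finite fibres.
-/
namespace Pool.Agent.Lib.MPba1bba
namespace RepM

/-- `F` is the weight enumerator of the family `σ`, which has finite fibres. -/
def Rep {α : Type} (σ : α → Sta) (F : Ser) : Prop := FF (fun x => (σ x).1) ∧ gfW σ = F

lemma FF.comp {α β : Type} (f : α → β) (hf : Function.Injective f) {c : β → ℕ} (h : FF c) :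
    FF (fun x => c (f x)) := fun n => (h n).preimage hf.injOn

lemma FF.sum {α β : Type} {c : α → ℕ} {c' : β → ℕ} (h : FF c) (h' : FF c') :
    FF (Sum.elim c c') := by
  intro n
  refine (((h n).image Sum.inl).union ((h' n).image Sum.inr)).subset ?_
  rintro (x | x) hx
  · exact Or.inl ⟨x, hx, rfl⟩
  · exact Or.inr ⟨x, hx, rfl⟩

lemma FF.of_finite {α : Type} [Finite α] (c : α → ℕ) : FF c := fun _ => Set.toFinite _

lemma rep_self {α : Type} {σ : α → Sta} (h : FF (fun x => (σ x).1)) : Rep σ (gfW σ) := ⟨h, rfl⟩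

lemma rep_unit (hB : SpecGFB) : Rep (fun _ : Unit => (0 : Sta)) 1 := by
  refine ⟨FF.of_finite _, ?_⟩
  unfold gfW
  rw [hB.2.2.1]
  show PowerSeries.monomial 0 (AddMonoidAlgebra.single (0 : Multiset ℤ) (1 : ℤ)) = 1
  rw [← AddMonoidAlgebra.one_def]
  exact PowerSeries.monomial_zero_eq_C_apply (R := SR) 1 |>.trans (map_one _)

lemma rep_sum (hB : SpecGFB) {α β : Type} {σ : α → Sta} {τ : β → Sta} {F G : Ser}
    (h : Rep σ F) (h' : Rep τ G) : Rep (Sum.elim σ τ) (F + G) := by
  have hff : FF (fun x => (Sum.elim σ τ x).1) := by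
    have := FF.sum h.1 h'.1
    intro n
    refine (this n).subset ?_
    rintro (x | x) hx
    · exact hx
    · exact hx
  refine ⟨hff, ?_⟩
  unfold gfW
  rw [hB.2.1 α β _ _ hff]
  rw [← h.2, ← h'.2]
  rfl

lemma rep_prod (hP : SpecGFP) {α β : Type} {σ : α → Sta} {τ : β → Sta} {F G : Ser}
    (h : Rep σ F) (h' : Rep τ G) : Rep (fun x : α × β => σ x.1 + τ x.2) (F * G) := by
  obtain ⟨h1, h2⟩ := hP α β (fun x => (σ x).1) (fun x => (σ x).2.1) (fun x => (τ x).1)
    (fun x => (τ x).2.1) h.1 h'.1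
  refine ⟨h1, ?_⟩
  rw [← h.2, ← h'.2]
  exact h2

/-- transport along a bijection -/
lemma rep_bij (hB : SpecGFB) {α β : Type} {σ : α → Sta} {τ : β → Sta} {F : Ser}
    (h : Rep σ F) (f : α → β) (hf : Function.Bijective f)
    (h1 : ∀ x, (τ (f x)).1 = (σ x).1) (h2 : ∀ x, (τ (f x)).2.1 = (σ x).2.1) : Rep τ F := by
  refine ⟨?_, ?_⟩
  · intro n
    refine ((h.1 n).image f).subset ?_
    intro y hy
    obtain ⟨x, rfl⟩ := hf.2 y
    refine ⟨x, ?_, rfl⟩
    have hy' : (τ (f x)).1 ≤ n := hy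
    rw [h1] at hy'
    exact hy'
  · unfold gfW
    rw [← hB.1 α β (Equiv.ofBijective f hf) (fun x => (τ x).1) (fun x => (τ x).2.1)]
    rw [← h.2]
    unfold gfW
    congr 1
    · funext x
      exact h1 x
    · funext x
      exact h2 x

lemma rep_shift (hB : SpecGFB) {α : Type} {σ : α → Sta} {F : Ser} (d : ℕ)
    (h : Rep σ F) : Rep (fun x => ((d, 0, 0) : Sta) + σ x) (PowerSeries.X ^ d * F) := by
  have e1 : (fun x => (((d, 0, 0) : Sta) + σ x).1) = fun x => d + (σ x).1 := rfl
  have e2 : (fun x => (((d, 0, 0) : Sta) + σ x).2.1) = fun x => (σ x).2.1 := by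
    funext x
    simp
  refine ⟨?_, ?_⟩
  · rw [e1]
    intro n
    refine (h.1 n).subset ?_
    intro x hx
    have hx' : d + (σ x).1 ≤ n := hx
    show (σ x).1 ≤ n
    omega
  · unfold gfW
    rw [e1, e2, hB.2.2.2.1 α _ _ d h.1, ← h.2]
    rfl

/-- the letters -/
abbrev Let (p : ℕ) : Type := {i : ℕ // 0 < i ∧ i < p}

/-- the state of a letter -/
def stL (p : ℕ) (i : Let p) : Sta := (min i.1 (p - i.1), {2 * (i.1 : ℤ) - p}, -1)

lemma rep_let (hB : SpecGFB) (p : ℕ) : Rep (stL p) (serY p) := by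
  have : Finite (Let p) :=
    Finite.of_injective (fun i : Let p => (⟨i.1, i.2.2⟩ : Fin p)) (by
      intro a b h
      exact Subtype.ext (by simpa using h))
  exact ⟨FF.of_finite _, hB.2.2.2.2.1 p⟩

lemma rep_split (hB : SpecGFB) {α : Type} {σ : α → Sta} {F : Ser} (P : α → Prop)
    (h : Rep σ F) : F = gfW (fun x : {x // P x} => σ x.1) + gfW (fun x : {x // ¬ P x} => σ x.1) := by
  rw [← h.2]
  unfold gfW
  exact hB.2.2.2.2.2 α _ _ P h.1

lemma rep_A (hF : SpecFFT) {p m : ℕ} (hp : 1 ≤ p) (hm : 1 ≤ m) :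
    Rep (fun w : TA p m => stt p m w.1) (sA p m) := by
  refine rep_self ?_
  have h := (hF p m hp hm).2.1
  exact FF.comp (fun w : TA p m => (⟨w.1, w.2.1⟩ : TR p m)) (by
    intro a b hab
    exact Subtype.ext (by simpa using hab)) h

lemma rep_R (hF : SpecFFT) {p m : ℕ} (hp : 1 ≤ p) (hm : 1 ≤ m) :
    Rep (fun w : TR p m => stt p m w.1) (sR p m) := rep_self (hF p m hp hm).2.1

lemma rep_E (hF : SpecFFT) {p m : ℕ} (hp : 1 ≤ p) (hm : 1 ≤ m) :
    Rep (fun x : TE p m => stE p m x.1) (sE p m) := rep_self (hF p m hp hm).2.2.1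

lemma rep_U (hF : SpecFFT) {p m : ℕ} (hp : 1 ≤ p) (hm : 1 ≤ m) :
    Rep (fun w : TU p m => stt p m w.1) (sU p m) := rep_self (hF p m hp hm).1

lemma rep_B (hF : SpecFFT) {p m : ℕ} (hp : 1 ≤ p) (hm : 1 ≤ m) :
    Rep (fun w : TB p m => stt p m w.1) (sB p m) := by
  refine rep_self ?_
  have h := (hF p m hp hm).1
  exact FF.comp (fun w : TB p m => (⟨w.1, w.2.1⟩ : TU p m)) (by
    intro a b hab
    exact Subtype.ext (by simpa using hab)) h

lemma rep_H (hF : SpecFFT) {p m : ℕ} (hp : 1 ≤ p) (hm : 1 ≤ m) :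
    Rep (fun w : TH p m => stt p m w.1) (sH p m) := by
  refine rep_self ?_
  have h := (hF p m hp hm).1
  exact FF.comp (fun w : TH p m => (⟨w.1, w.2.1⟩ : TU p m)) (by
    intro a b hab
    exact Subtype.ext (by simpa using hab)) h

end RepM
end Pool.Agent.Lib.MPba1bba
end

section
namespace Pool.Agent.Lib.MPba1bba

open RepM in
theorem specEQE (hGFB : SpecGFB) (hGFL : SpecGFL) (hFFT : SpecFFT) (hSML : SpecSML) : SpecEQE := by
  intro p m hp hm
  have hR := rep_R hFFT hp hm
  obtain ⟨h1, h2⟩ := hGFL p m hm (TR p m) (fun w => stt p m w.1) hR.1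
  have h3 : Rep (fun y : TR p m × Fin m => sam p m y.2 (stt p m y.1.1)) (lam p m (sR p m)) :=
    ⟨h1, h2⟩
  have hs := rep_split hGFB (fun y : TR p m × Fin m => y.1.1 = Tr.nil ∧ (y.2 : ℕ) = 0) h3
  -- the exceptional pair
  obtain ⟨hc, hsm⟩ := hSML p m hp hm
  have hsam : sam p m 0 (0 : Sta) = (0, 0, shf p m 0 0) := by
    have hr : rho m 0 0 = 0 := by simp [rho]
    have e1 : (0 : Sta).2.2 = 0 := rfl
    have e2 : (0 : Sta).2.1 = 0 := rfl
    have e3 : (0 : Sta).1 = 0 := rfl
    unfold sam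
    rw [e1, e2, e3, hr, hc, hsm]
    simp
  have hone : gfW (fun x : {y : TR p m × Fin m // y.1.1 = Tr.nil ∧ (y.2 : ℕ) = 0} =>
      sam p m x.1.2 (stt p m x.1.1.1)) = 1 := by
    have hnil : okR p m Tr.nil := trivial
    refine (rep_bij hGFB (rep_unit hGFB) (fun _ => (⟨(⟨Tr.nil, hnil⟩, ⟨0, hm⟩), rfl, rfl⟩ :
      {y : TR p m × Fin m // y.1.1 = Tr.nil ∧ (y.2 : ℕ) = 0})) ⟨?_, ?_⟩ ?_ ?_).2
    · intro a b _
      rfl
    · rintro ⟨⟨⟨w, hw⟩, r⟩, h5, h6⟩
      refine ⟨(), ?_⟩
      apply Subtype.ext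
      have h5' : w = Tr.nil := h5
      subst h5'
      have h6' : (⟨0, hm⟩ : Fin m) = r := Fin.ext h6.symm
      subst h6'
      rfl
    · intro x
      show (sam p m 0 (0 : Sta)).1 = 0
      rw [hsam]
    · intro x
      show (sam p m 0 (0 : Sta)).2.1 = 0
      rw [hsam]
  rw [hone] at hs
  have h4 : gfW (fun x : {y : TR p m × Fin m // ¬ (y.1.1 = Tr.nil ∧ (y.2 : ℕ) = 0)} =>
      sam p m x.1.2 (stt p m x.1.1.1)) = lam p m (sR p m) - 1 := by
    rw [hs]
    ring
  have h5 : Rep (fun x : {y : TR p m × Fin m // ¬ (y.1.1 = Tr.nil ∧ (y.2 : ℕ) = 0)} =>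
      sam p m x.1.2 (stt p m x.1.1.1)) (lam p m (sR p m) - 1) := by
    refine ⟨?_, h4⟩
    exact FF.comp (fun x : {y : TR p m × Fin m // ¬ (y.1.1 = Tr.nil ∧ (y.2 : ℕ) = 0)} => x.1)
      Subtype.val_injective h3.1
  have h6 := rep_shift hGFB 2 h5
  refine (rep_bij hGFB (τ := fun x : TE p m => stE p m x.1) h6
    (fun x => (⟨(x.1.1.1, x.1.2), x.1.1.2, x.2⟩ : TE p m)) ⟨?_, ?_⟩ ?_ ?_).2
  · rintro ⟨⟨⟨w, hw⟩, r⟩, h7⟩ ⟨⟨⟨w', hw'⟩, r'⟩, h7'⟩ h
    have h' := congrArg Subtype.val h
    simp only [Prod.mk.injEq] at h'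
    obtain ⟨h8, h9⟩ := h'
    subst h8
    subst h9
    rfl
  · rintro ⟨⟨w, r⟩, h7, h8⟩
    exact ⟨⟨(⟨w, h7⟩, r), h8⟩, rfl⟩
  · intro x
    rfl
  · intro x
    rfl

end Pool.Agent.Lib.MPba1bba
end

section
/-!
# MP_ba1bba_al: module EQF (pairs of a first frame and a tail)
-/
set_option autoImplicit false

namespace Pool.Agent.Lib.MPba1bba

namespace EQFM

/-- valid pairs whose first frame satisfies `ok` -/
abbrev G (p m : ℕ) (ok : Tr → Prop) : Type :=
  {y : Tr × List (Tr × ℕ) // ok y.1 ∧ okTl p m y.2 ∧ (y.2 = [] ∨ y.1 = Tr.nil ∨ endM y.1)}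

/-- the pairs with empty tail -/
def eNil (p m : ℕ) (ok : Tr → Prop) : {w : Tr // ok w} ≃ {y : G p m ok // y.1.2 = []} where
  toFun w := ⟨⟨(w.1, []), w.2, trivial, Or.inl rfl⟩, rfl⟩
  invFun y := ⟨y.1.1.1, y.1.2.1⟩
  left_inv w := rfl
  right_inv y := by
    obtain ⟨⟨⟨w, tl⟩, h⟩, h2⟩ := y
    dsimp only at h2
    subst h2
    rfl

/-- the first frame of a pair with nonempty tail -/
def frm (ok : Tr → Prop) (hnil : ok Tr.nil) : Unit ⊕ {w : Tr // ok w ∧ endM w} → {w : Tr // ok w ∧
    (w = Tr.nil ∨ endM w)}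
  | Sum.inl _ => ⟨Tr.nil, hnil, Or.inl rfl⟩
  | Sum.inr w => ⟨w.1, w.2.1, Or.inr w.2.2⟩

theorem frm_bij (ok : Tr → Prop) (hnil : ok Tr.nil) : Function.Bijective (frm ok hnil) := by
  constructor
  · rintro (⟨⟩ | a) (⟨⟩ | b) h
    · rfl
    · have h2 : Tr.nil = b.1 := congrArg Subtype.val h
      have h3 := b.2.2
      rw [← h2] at h3
      exact h3.elim
    · have h2 : a.1 = Tr.nil := congrArg Subtype.val h
      have h3 := a.2.2
      rw [h2] at h3
      exact h3.elim
    · have h2 : a.1 = b.1 := congrArg (fun x => x.1) h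
      exact congrArg Sum.inr (Subtype.ext h2)
  · rintro ⟨w, hw, h⟩
    rcases h with h | h
    · subst h
      exact ⟨Sum.inl (), rfl⟩
    · exact ⟨Sum.inr ⟨w, hw, h⟩, rfl⟩

/-- the pairs with nonempty tail -/
def eCons (p m : ℕ) (ok : Tr → Prop) :
    {w : Tr // ok w ∧ (w = Tr.nil ∨ endM w)} × TK p m ≃ {y : G p m ok // ¬ y.1.2 = []} where
  toFun x := ⟨⟨(x.1.1, x.2.1), x.1.2.1, x.2.2.1, Or.inr x.1.2.2⟩, x.2.2.2⟩
  invFun y := (⟨y.1.1.1, y.1.2.1, y.1.2.2.2.resolve_left y.2⟩, ⟨y.1.1.2, y.1.2.2.1, y.2⟩)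
  left_inv _ := rfl
  right_inv _ := rfl

theorem split (hB : SpecGFB) (hP : SpecGFP) (p m : ℕ) (ok : Tr → Prop) (hnil : ok Tr.nil)
    (hF : FF (fun w : {w : Tr // ok w} => (stt p m w.1).1))
    (hK : FF (fun tl : {tl : List (Tr × ℕ) // okTl p m tl} => (ts p m tl.1).1)) :
    gfW (fun y : G p m ok => stt p m y.1.1 + ts p m y.1.2) =
      gfW (fun w : {w : Tr // ok w} => stt p m w.1) +
        (1 + gfW (fun w : {w : Tr // ok w ∧ endM w} => stt p m w.1)) * sK p m ∧
    FF (fun y : G p m ok => (stt p m y.1.1 + ts p m y.1.2).1) := by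
  obtain ⟨hB1, hB2, hB3, -, -, hB6⟩ := hB
  have hK' : FF (fun tl : TK p m => (ts p m tl.1).1) := by
    intro n
    apply ((hK n).preimage (f := fun tl : TK p m => (⟨tl.1, tl.2.1⟩ :
      {tl : List (Tr × ℕ) // okTl p m tl})) _).subset
    · intro tl htl
      exact htl
    · intro a _ b _ h
      exact Subtype.ext (congrArg (fun x => x.1) h)
  have hF' : FF (fun w : {w : Tr // ok w ∧ (w = Tr.nil ∨ endM w)} => (stt p m w.1).1) := by
    intro n
    apply ((hF n).preimage (f := fun w : {w : Tr // ok w ∧ (w = Tr.nil ∨ endM w)} =>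
      (⟨w.1, w.2.1⟩ : {w : Tr // ok w})) _).subset
    · intro tl htl
      exact htl
    · intro a _ b _ h
      exact Subtype.ext (congrArg (fun x => x.1) h)
  have hFF : FF (fun y : G p m ok => (stt p m y.1.1 + ts p m y.1.2).1) := by
    intro n
    have h1 := (hF n).prod (hK n)
    apply (h1.preimage (f := fun y : G p m ok =>
      ((⟨y.1.1, y.2.1⟩, ⟨y.1.2, y.2.2.1⟩) :
        {w : Tr // ok w} × {tl : List (Tr × ℕ) // okTl p m tl})) _).subset
    · intro y hy
      have h2 : (stt p m y.1.1).1 + (ts p m y.1.2).1 ≤ n := hy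
      refine ⟨?_, ?_⟩
      · show (stt p m y.1.1).1 ≤ n
        omega
      · show (ts p m y.1.2).1 ≤ n
        omega
    · intro a _ b _ h
      have h3 := congrArg (fun x => x.1.1) h
      have h4 := congrArg (fun x => x.2.1) h
      exact Subtype.ext (Prod.ext h3 h4)
  refine ⟨?_, hFF⟩
  have key := hB6 (G p m ok) (fun y => (stt p m y.1.1 + ts p m y.1.2).1)
    (fun y => (stt p m y.1.1 + ts p m y.1.2).2.1) (fun y => y.1.2 = []) hFF
  have e1 : gf (fun x : {y : G p m ok // y.1.2 = []} => (stt p m x.1.1.1 + ts p m x.1.1.2).1)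
      (fun x => (stt p m x.1.1.1 + ts p m x.1.1.2).2.1) =
      gfW (fun w : {w : Tr // ok w} => stt p m w.1) := by
    rw [← hB1 _ _ (eNil p m ok)]
    have h0 : ∀ w : {w : Tr // ok w},
        stt p m (eNil p m ok w).1.1.1 + ts p m (eNil p m ok w).1.1.2 = stt p m w.1 := by
      intro w
      show stt p m w.1 + ts p m [] = stt p m w.1
      show stt p m w.1 + 0 = stt p m w.1
      rw [add_zero]
    simp only [h0]
    rfl
  have e2 : gf (fun x : {y : G p m ok // ¬ y.1.2 = []} =>
        (stt p m x.1.1.1 + ts p m x.1.1.2).1)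
      (fun x => (stt p m x.1.1.1 + ts p m x.1.1.2).2.1) =
      (1 + gfW (fun w : {w : Tr // ok w ∧ endM w} => stt p m w.1)) * sK p m := by
    rw [← hB1 _ _ (eCons p m ok)]
    have h0 : ∀ x : {w : Tr // ok w ∧ (w = Tr.nil ∨ endM w)} × TK p m,
        stt p m (eCons p m ok x).1.1.1 + ts p m (eCons p m ok x).1.1.2 =
          stt p m x.1.1 + ts p m x.2.1 := fun x => rfl
    simp only [h0]
    have h1 := (hP _ _ (fun w : {w : Tr // ok w ∧ (w = Tr.nil ∨ endM w)} => (stt p m w.1).1)
      (fun w => (stt p m w.1).2.1) (fun tl : TK p m => (ts p m tl.1).1)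
      (fun tl => (ts p m tl.1).2.1) hF' hK').2
    have h2 : gf (fun x : {w : Tr // ok w ∧ (w = Tr.nil ∨ endM w)} × TK p m =>
        (stt p m x.1.1 + ts p m x.2.1).1) (fun x => (stt p m x.1.1 + ts p m x.2.1).2.1) =
        gf (fun w : {w : Tr // ok w ∧ (w = Tr.nil ∨ endM w)} => (stt p m w.1).1)
          (fun w => (stt p m w.1).2.1) * sK p m := h1
    rw [h2]
    congr 1
    rw [← hB1 _ _ (Equiv.ofBijective _ (frm_bij ok hnil)), hB2]
    · rw [hB3]
      have h3 : (stt p m ((Equiv.ofBijective _ (frm_bij ok hnil)) (Sum.inl ())).1) = 0 := rfl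
      rw [h3]
      congr 1
      show (PowerSeries.monomial (R := SR) 0)
        (AddMonoidAlgebra.single (0 : Multiset ℤ) (1 : ℤ)) = 1
      rw [← AddMonoidAlgebra.one_def, PowerSeries.monomial_zero_eq_C_apply, map_one]
    · intro n
      apply ((hF' n).preimage (f := frm ok hnil) (frm_bij ok hnil).1.injOn).subset
      intro x hx
      exact hx
  rw [e1, e2] at key
  exact key

end EQFM

theorem specEQF (hGFB : SpecGFB) (hGFP : SpecGFP) (hFFT : SpecFFT) : SpecEQF := by
  intro p m hp hm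
  obtain ⟨h1, -, -, h4⟩ := hFFT p m hp hm
  exact EQFM.split hGFB hGFP p m (okU p m) trivial h1 h4

end Pool.Agent.Lib.MPba1bba
end

section
namespace Pool.Agent.Lib.MPba1bba

open RepM in
theorem specEQH (hGFB : SpecGFB) (hGFL : SpecGFL) (hFFT : SpecFFT) : SpecEQH := by
  intro p m hp hm
  have hU := rep_U hFFT hp hm
  obtain ⟨h1, h2⟩ := hGFL p m hm (TU p m) (fun w => stt p m w.1) hU.1
  have h3 : Rep (fun y : TU p m × Fin m => sam p m y.2 (stt p m y.1.1)) (lam p m (sU p m)) :=
    ⟨h1, h2⟩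
  have h4 := rep_shift hGFB 1 h3
  have h5 : Rep (fun w : TH p m => stt p m w.1) (PowerSeries.X ^ 1 * lam p m (sU p m)) := by
    refine rep_bij hGFB h4
      (fun y => (⟨Tr.uu y.2 y.1.1, ⟨y.2.2, y.1.2⟩, trivial⟩ : TH p m)) ⟨?_, ?_⟩ ?_ ?_
    · rintro ⟨⟨w, hw⟩, r⟩ ⟨⟨w', hw'⟩, r'⟩ h
      have h' := congrArg Subtype.val h
      simp only [Tr.uu.injEq] at h'
      obtain ⟨h6, h7⟩ := h'
      subst h7
      have : r = r' := Fin.ext h6
      subst this
      rfl
    · rintro ⟨w, hw1, hw2⟩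
      cases w with
      | nil => exact absurd hw2 (by simp [endU])
      | mm i w => exact absurd hw2 (by simp [endU])
      | ee r v w => exact absurd hw2 (by simp [endU])
      | uu r w => exact ⟨(⟨w, hw1.2⟩, ⟨r, hw1.1⟩), rfl⟩
    · intro x
      rfl
    · intro x
      rfl
  rw [pow_one] at h5
  exact h5.2

end Pool.Agent.Lib.MPba1bba
end

section
/-!
# MP_ba1bba_al: module EQK (nonempty tails)
-/
set_option autoImplicit false

namespace Pool.Agent.Lib.MPba1bba

namespace EQKM

open EQFM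

/-- nonempty tails -/
def eT (p m : ℕ) : G p m (okR p m) × Fin m ≃ TK p m where
  toFun x := ⟨(x.1.1.1, (x.2 : ℕ)) :: x.1.1.2,
    ⟨x.2.2, x.1.2.1, x.1.2.2.2, x.1.2.2.1⟩, List.cons_ne_nil _ _⟩
  invFun y := match y with
    | ⟨[], h⟩ => (h.2 rfl).elim
    | ⟨(w, r) :: tl, h⟩ => (⟨(w, tl), h.1.2.1, h.1.2.2.2, h.1.2.2.1⟩, ⟨r, h.1.1⟩)
  left_inv _ := rfl
  right_inv y := by
    obtain ⟨tl, h⟩ := y
    cases tl with
    | nil => exact (h.2 rfl).elim
    | cons x tl => rfl

end EQKM

open EQFM EQKM in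
theorem specEQK (hGFB : SpecGFB) (hGFP : SpecGFP) (hGFL : SpecGFL) (hFFT : SpecFFT) :
    SpecEQK := by
  intro p m hp hm
  obtain ⟨-, h2, -, h4⟩ := hFFT p m hp hm
  obtain ⟨hs, hFF⟩ := split hGFB hGFP p m (okR p m) trivial h2 h4
  obtain ⟨hB1, -, -, hB4, -, -⟩ := hGFB
  obtain ⟨hL1, hL2⟩ := hGFL p m hm (G p m (okR p m)) (fun y => stt p m y.1.1 + ts p m y.1.2) hFF
  have hA : sR p m + (1 + sA p m) * sK p m =
      gfW (fun y : G p m (okR p m) => stt p m y.1.1 + ts p m y.1.2) := hs.symm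
  rw [hA, ← hL2]
  have h0 : sK p m = gf (fun x : G p m (okR p m) × Fin m =>
      1 + (sam p m x.2 (stt p m x.1.1.1 + ts p m x.1.1.2)).1)
      (fun x => (sam p m x.2 (stt p m x.1.1.1 + ts p m x.1.1.2)).2.1) := by
    have h1 : sK p m = gf (fun x : TK p m => (ts p m x.1).1) (fun x => (ts p m x.1).2.1) := rfl
    rw [h1, ← hB1 _ _ (eT p m)]
    have h3 : ∀ x : G p m (okR p m) × Fin m, ts p m (eT p m x).1 =
        (1, 0, 0) + sam p m x.2 (stt p m x.1.1.1 + ts p m x.1.1.2) := fun _ => rfl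
    have h5 : ∀ σ : Sta, (((1, 0, 0) : Sta) + σ).1 = 1 + σ.1 := fun _ => rfl
    have h6 : ∀ σ : Sta, (((1, 0, 0) : Sta) + σ).2.1 = σ.2.1 := fun σ => zero_add _
    simp only [h3, h5, h6]
  rw [h0, hB4 _ _ _ 1 hL1, pow_one]
  rfl

end Pool.Agent.Lib.MPba1bba
end

section
namespace Pool.Agent.Lib.MPba1bba
namespace EQRM

open RepM

/-- `nil` or a word of `TA` -/
abbrev OA (p m : ℕ) : Type := Unit ⊕ TA p m

/-- the word -/
def wo {p m : ℕ} : OA p m → Tr := Sum.elim (fun _ => Tr.nil) (fun w => w.1)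

lemma okR_wo {p m : ℕ} (x : OA p m) : okR p m (wo x) := by
  rcases x with x | x
  · trivial
  · exact x.2.1

lemma end_wo {p m : ℕ} (x : OA p m) : wo x = Tr.nil ∨ endM (wo x) := by
  rcases x with x | x
  · exact Or.inl rfl
  · exact Or.inr x.2.2

lemma wo_inj {p m : ℕ} : Function.Injective (wo : OA p m → Tr) := by
  rintro (x | x) (y | y) h
  · rfl
  · exfalso
    have h2 : Tr.nil = y.1 := h
    have h3 := y.2.2
    rw [← h2] at h3
    exact h3
  · exfalso
    have h2 : x.1 = Tr.nil := h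
    have h3 := x.2.2
    rw [h2] at h3
    exact h3
  · exact congrArg Sum.inr (Subtype.ext h)

lemma wo_surj {p m : ℕ} (w : Tr) (hw : okR p m w) (hw' : w = Tr.nil ∨ endM w) :
    ∃ x : OA p m, wo x = w := by
  rcases hw' with rfl | h
  · exact ⟨Sum.inl (), rfl⟩
  · exact ⟨Sum.inr ⟨w, hw, h⟩, rfl⟩

/-- the state -/
noncomputable def so (p m : ℕ) : OA p m → Sta := Sum.elim (fun _ => 0) (fun w => stt p m w.1)

lemma so_eq {p m : ℕ} (x : OA p m) : so p m x = stt p m (wo x) := by
  rcases x with x | x <;> rfl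

lemma rep_OA (hB : SpecGFB) (hF : SpecFFT) {p m : ℕ} (hp : 1 ≤ p) (hm : 1 ≤ m) :
    Rep (so p m) (1 + sA p m) := rep_sum hB (rep_unit hB) (rep_A hF hp hm)

/-- words of `okR` not ending in a letter -/
abbrev NA (p m : ℕ) : Type := Unit ⊕ (TE p m × OA p m)

/-- the word -/
def wn {p m : ℕ} : NA p m → Tr :=
  Sum.elim (fun _ => Tr.nil) (fun y => Tr.ee y.1.1.2 y.1.1.1 (wo y.2))

lemma okR_wn {p m : ℕ} (x : NA p m) : okR p m (wn x) := by
  rcases x with x | ⟨x, y⟩
  · trivial
  · exact ⟨x.1.2.2, x.2.1, okR_wo y, end_wo y, x.2.2⟩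

lemma not_end_wn {p m : ℕ} (x : NA p m) : ¬ endM (wn x) := by
  rcases x with x | ⟨x, y⟩ <;> exact fun h => h

lemma wn_inj {p m : ℕ} : Function.Injective (wn : NA p m → Tr) := by
  rintro (x | ⟨⟨⟨v, r⟩, hx⟩, y⟩) (x' | ⟨⟨⟨v', r'⟩, hx'⟩, y'⟩) h
  · rfl
  · exact absurd h (by simp [wn])
  · exact absurd h (by simp [wn])
  · simp only [wn, Sum.elim_inr, Tr.ee.injEq] at h
    obtain ⟨h1, h2, h3⟩ := h
    have h3' := wo_inj h3
    have h1' := Fin.ext h1
    subst h1'
    subst h2
    subst h3'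
    rfl

lemma wn_surj {p m : ℕ} (w : Tr) (hw : okR p m w) (hw' : ¬ endM w) :
    ∃ x : NA p m, wn x = w := by
  cases w with
  | nil => exact ⟨Sum.inl (), rfl⟩
  | mm i w => exact absurd trivial hw'
  | ee r v w =>
    obtain ⟨h1, h2, h3, h4, h5⟩ := hw
    obtain ⟨y, hy⟩ := wo_surj w h3 h4
    exact ⟨Sum.inr (⟨(v, ⟨r, h1⟩), h2, h5⟩, y), by subst hy; rfl⟩
  | uu r w => exact absurd hw (by simp [okR])

/-- the state -/
noncomputable def sn (p m : ℕ) : NA p m → Sta :=
  Sum.elim (fun _ => 0) (fun y => stE p m y.1.1 + so p m y.2)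

lemma sn_eq {p m : ℕ} (x : NA p m) : sn p m x = stt p m (wn x) := by
  rcases x with x | ⟨x, y⟩
  · rfl
  · show stE p m x.1 + so p m y = stE p m x.1 + stt p m (wo y)
    rw [so_eq]

lemma rep_NA (hB : SpecGFB) (hP : SpecGFP) (hF : SpecFFT) {p m : ℕ} (hp : 1 ≤ p) (hm : 1 ≤ m) :
    Rep (sn p m) (1 + sE p m * (1 + sA p m)) :=
  rep_sum hB (rep_unit hB) (rep_prod hP (rep_E hF hp hm) (rep_OA hB hF hp hm))

lemma eqA (hB : SpecGFB) (hP : SpecGFP) (hF : SpecFFT) {p m : ℕ} (hp : 1 ≤ p) (hm : 1 ≤ m) :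
    sA p m = serY p * (1 + sE p m * (1 + sA p m)) := by
  refine (rep_bij hB (τ := fun w : TA p m => stt p m w.1)
    (rep_prod hP (rep_let hB p) (rep_NA hB hP hF hp hm))
    (fun y => (⟨Tr.mm y.1.1 (wn y.2), ⟨y.1.2.1, y.1.2.2, okR_wn y.2, not_end_wn y.2⟩, trivial⟩ :
      TA p m)) ⟨?_, ?_⟩ ?_ ?_).2
  · rintro ⟨⟨i, hi⟩, x⟩ ⟨⟨j, hj⟩, y⟩ h
    have h' := congrArg Subtype.val h
    simp only [Tr.mm.injEq] at h'
    obtain ⟨h1, h2⟩ := h'
    subst h1
    have h2' := wn_inj h2
    subst h2'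
    rfl
  · rintro ⟨w, hw1, hw2⟩
    cases w with
    | nil => exact absurd hw2 (fun h => h)
    | mm i w =>
      obtain ⟨h1, h2, h3, h4⟩ := hw1
      obtain ⟨x, hx⟩ := wn_surj w h3 h4
      exact ⟨(⟨i, h1, h2⟩, x), by subst hx; rfl⟩
    | ee r v w => exact absurd hw2 (fun h => h)
    | uu r w => exact absurd hw2 (fun h => h)
  · rintro ⟨i, x⟩
    show (stL p i + stt p m (wn x)).1 = (stL p i + sn p m x).1
    rw [sn_eq]
  · rintro ⟨i, x⟩
    show (stL p i + stt p m (wn x)).2.1 = (stL p i + sn p m x).2.1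
    rw [sn_eq]

/-- `OA` or `TE × OA` -/
def wr {p m : ℕ} : OA p m ⊕ (TE p m × OA p m) → TR p m :=
  Sum.elim (fun x => ⟨wo x, okR_wo x⟩) (fun y => ⟨wn (Sum.inr y), okR_wn (Sum.inr y)⟩)

lemma eqR (hB : SpecGFB) (hP : SpecGFP) (hF : SpecFFT) {p m : ℕ} (hp : 1 ≤ p) (hm : 1 ≤ m) :
    sR p m = (1 + sA p m) + sE p m * (1 + sA p m) := by
  refine (rep_bij hB (τ := fun w : TR p m => stt p m w.1)
    (rep_sum hB (rep_OA hB hF hp hm) (rep_prod hP (rep_E hF hp hm) (rep_OA hB hF hp hm)))
    wr ⟨?_, ?_⟩ ?_ ?_).2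
  · rintro (x | x) (y | y) h
    · have h' : wo x = wo y := congrArg Subtype.val h
      rw [wo_inj h']
    · exfalso
      have h' : wo x = wn (Sum.inr y) := congrArg Subtype.val h
      rcases end_wo x with h1 | h1
      · rw [h1] at h'
        exact absurd h' (by simp [wn])
      · rw [h'] at h1
        exact h1
    · exfalso
      have h' : wn (Sum.inr x) = wo y := congrArg Subtype.val h
      rcases end_wo y with h1 | h1
      · rw [h1] at h'
        exact absurd h' (by simp [wn])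
      · rw [← h'] at h1
        exact h1
    · have h' : wn (Sum.inr x) = wn (Sum.inr y) := congrArg Subtype.val h
      rw [Sum.inr_injective (wn_inj h')]
  · rintro ⟨w, hw⟩
    by_cases hn : w = Tr.nil ∨ endM w
    · obtain ⟨x, hx⟩ := wo_surj w hw hn
      exact ⟨Sum.inl x, Subtype.ext hx⟩
    · obtain ⟨x, hx⟩ := wn_surj w hw (fun h => hn (Or.inr h))
      rcases x with x | x
      · exact absurd (Or.inl hx.symm) hn
      · exact ⟨Sum.inr x, Subtype.ext hx⟩
  · rintro (x | x)
    · show (stt p m (wo x)).1 = (so p m x).1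
      rw [so_eq]
    · show (stt p m (wn (Sum.inr x))).1 = (sn p m (Sum.inr x)).1
      rw [sn_eq]
  · rintro (x | x)
    · show (stt p m (wo x)).2.1 = (so p m x).2.1
      rw [so_eq]
    · show (stt p m (wn (Sum.inr x))).2.1 = (sn p m (Sum.inr x)).2.1
      rw [sn_eq]

end EQRM

theorem specEQR (hGFB : SpecGFB) (hGFP : SpecGFP) (hFFT : SpecFFT) : SpecEQR := by
  intro p m hp hm
  refine ⟨?_, EQRM.eqA hGFB hGFP hFFT hp hm⟩
  rw [EQRM.eqR hGFB hGFP hFFT hp hm]
  ring

end Pool.Agent.Lib.MPba1bba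
end

section
namespace Pool.Agent.Lib.MPba1bba
namespace EQUM

open RepM

/-- `nil` or a word of `TB` -/
abbrev OB (p m : ℕ) : Type := Unit ⊕ TB p m

/-- the word -/
def wo {p m : ℕ} : OB p m → Tr := Sum.elim (fun _ => Tr.nil) (fun w => w.1)

lemma okU_wo {p m : ℕ} (x : OB p m) : okU p m (wo x) := by
  rcases x with x | x
  · trivial
  · exact x.2.1

lemma end_wo {p m : ℕ} (x : OB p m) : wo x = Tr.nil ∨ endM (wo x) := by
  rcases x with x | x
  · exact Or.inl rfl
  · exact Or.inr x.2.2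

lemma wo_inj {p m : ℕ} : Function.Injective (wo : OB p m → Tr) := by
  rintro (x | x) (y | y) h
  · rfl
  · exfalso
    have h2 : Tr.nil = y.1 := h
    have h3 := y.2.2
    rw [← h2] at h3
    exact h3
  · exfalso
    have h2 : x.1 = Tr.nil := h
    have h3 := x.2.2
    rw [h2] at h3
    exact h3
  · exact congrArg Sum.inr (Subtype.ext h)

lemma wo_surj {p m : ℕ} (w : Tr) (hw : okU p m w) (hw' : w = Tr.nil ∨ endM w) :
    ∃ x : OB p m, wo x = w := by
  rcases hw' with rfl | h
  · exact ⟨Sum.inl (), rfl⟩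
  · exact ⟨Sum.inr ⟨w, hw, h⟩, rfl⟩

/-- the state -/
noncomputable def so (p m : ℕ) : OB p m → Sta := Sum.elim (fun _ => 0) (fun w => stt p m w.1)

lemma so_eq {p m : ℕ} (x : OB p m) : so p m x = stt p m (wo x) := by
  rcases x with x | x <;> rfl

lemma rep_OB (hB : SpecGFB) (hF : SpecFFT) {p m : ℕ} (hp : 1 ≤ p) (hm : 1 ≤ m) :
    Rep (so p m) (1 + sB p m) := rep_sum hB (rep_unit hB) (rep_B hF hp hm)

/-- words of `okU` ending in a block or at a new maximal level -/
abbrev ND (p m : ℕ) : Type := TH p m ⊕ (TE p m × OB p m)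

/-- the word -/
def wd {p m : ℕ} : ND p m → Tr :=
  Sum.elim (fun w => w.1) (fun y => Tr.ee y.1.1.2 y.1.1.1 (wo y.2))

lemma okU_wd {p m : ℕ} (x : ND p m) : okU p m (wd x) := by
  rcases x with x | ⟨x, y⟩
  · exact x.2.1
  · exact ⟨x.1.2.2, x.2.1, okU_wo y, end_wo y, x.2.2⟩

lemma not_end_wd {p m : ℕ} (x : ND p m) : ¬ endM (wd x) := by
  rcases x with x | ⟨x, y⟩
  · intro h
    have h1 : endM x.1 := h
    have h2 := x.2.2
    revert h1 h2
    generalize x.1 = w
    intro h1 h2
    cases w with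
    | nil => exact h1
    | mm i w => exact h2
    | ee r v w => exact h1
    | uu r w => exact h1
  · exact fun h => h

lemma wd_ne_nil {p m : ℕ} (x : ND p m) : wd x ≠ Tr.nil := by
  rcases x with x | ⟨x, y⟩
  · intro h
    have h1 : x.1 = Tr.nil := h
    have h2 := x.2.2
    rw [h1] at h2
    exact h2
  · intro h
    exact absurd h (by simp [wd])

lemma wd_inj {p m : ℕ} : Function.Injective (wd : ND p m → Tr) := by
  rintro (x | ⟨⟨⟨v, r⟩, hx⟩, y⟩) (x' | ⟨⟨⟨v', r'⟩, hx'⟩, y'⟩) h
  · exact congrArg Sum.inl (Subtype.ext h)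
  · exfalso
    have h1 : x.1 = Tr.ee r' v' (wo y') := h
    have h2 := x.2.2
    rw [h1] at h2
    exact h2
  · exfalso
    have h1 : Tr.ee r v (wo y) = x'.1 := h
    have h2 := x'.2.2
    rw [← h1] at h2
    exact h2
  · simp only [wd, Sum.elim_inr, Tr.ee.injEq] at h
    obtain ⟨h1, h2, h3⟩ := h
    have h3' := wo_inj h3
    have h1' := Fin.ext h1
    subst h1'
    subst h2
    subst h3'
    rfl

lemma wd_surj {p m : ℕ} (w : Tr) (hw : okU p m w) (hn : w ≠ Tr.nil) (hw' : ¬ endM w) :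
    ∃ x : ND p m, wd x = w := by
  cases w with
  | nil => exact absurd rfl hn
  | mm i w => exact absurd trivial hw'
  | ee r v w =>
    obtain ⟨h1, h2, h3, h4, h5⟩ := hw
    obtain ⟨y, hy⟩ := wo_surj w h3 h4
    exact ⟨Sum.inr (⟨(v, ⟨r, h1⟩), h2, h5⟩, y), by subst hy; rfl⟩
  | uu r w => exact ⟨Sum.inl ⟨Tr.uu r w, hw, trivial⟩, rfl⟩

/-- the state -/
noncomputable def sd (p m : ℕ) : ND p m → Sta :=
  Sum.elim (fun w => stt p m w.1) (fun y => stE p m y.1.1 + so p m y.2)

lemma sd_eq {p m : ℕ} (x : ND p m) : sd p m x = stt p m (wd x) := by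
  rcases x with x | ⟨x, y⟩
  · rfl
  · show stE p m x.1 + so p m y = stE p m x.1 + stt p m (wo y)
    rw [so_eq]

lemma rep_ND (hB : SpecGFB) (hP : SpecGFP) (hF : SpecFFT) {p m : ℕ} (hp : 1 ≤ p) (hm : 1 ≤ m) :
    Rep (sd p m) (sH p m + sE p m * (1 + sB p m)) :=
  rep_sum hB (rep_H hF hp hm) (rep_prod hP (rep_E hF hp hm) (rep_OB hB hF hp hm))

/-- words of `okU` not ending in a letter -/
abbrev NB (p m : ℕ) : Type := Unit ⊕ ND p m

/-- the word -/
def wn {p m : ℕ} : NB p m → Tr := Sum.elim (fun _ => Tr.nil) wd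

lemma okU_wn {p m : ℕ} (x : NB p m) : okU p m (wn x) := by
  rcases x with x | x
  · trivial
  · exact okU_wd x

lemma not_end_wn {p m : ℕ} (x : NB p m) : ¬ endM (wn x) := by
  rcases x with x | x
  · exact fun h => h
  · exact not_end_wd x

lemma wn_inj {p m : ℕ} : Function.Injective (wn : NB p m → Tr) := by
  rintro (x | x) (y | y) h
  · rfl
  · exact absurd h.symm (wd_ne_nil y)
  · exact absurd h (wd_ne_nil x)
  · exact congrArg Sum.inr (wd_inj h)

lemma wn_surj {p m : ℕ} (w : Tr) (hw : okU p m w) (hw' : ¬ endM w) :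
    ∃ x : NB p m, wn x = w := by
  by_cases hn : w = Tr.nil
  · exact ⟨Sum.inl (), hn.symm⟩
  · obtain ⟨x, hx⟩ := wd_surj w hw hn hw'
    exact ⟨Sum.inr x, hx⟩

/-- the state -/
noncomputable def sn (p m : ℕ) : NB p m → Sta := Sum.elim (fun _ => 0) (sd p m)

lemma sn_eq {p m : ℕ} (x : NB p m) : sn p m x = stt p m (wn x) := by
  rcases x with x | x
  · rfl
  · exact sd_eq x

lemma rep_NB (hB : SpecGFB) (hP : SpecGFP) (hF : SpecFFT) {p m : ℕ} (hp : 1 ≤ p) (hm : 1 ≤ m) :
    Rep (sn p m) (1 + (sH p m + sE p m * (1 + sB p m))) :=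
  rep_sum hB (rep_unit hB) (rep_ND hB hP hF hp hm)

lemma eqB (hB : SpecGFB) (hP : SpecGFP) (hF : SpecFFT) {p m : ℕ} (hp : 1 ≤ p) (hm : 1 ≤ m) :
    sB p m = serY p * (1 + (sH p m + sE p m * (1 + sB p m))) := by
  refine (rep_bij hB (τ := fun w : TB p m => stt p m w.1)
    (rep_prod hP (rep_let hB p) (rep_NB hB hP hF hp hm))
    (fun y => (⟨Tr.mm y.1.1 (wn y.2), ⟨y.1.2.1, y.1.2.2, okU_wn y.2, not_end_wn y.2⟩, trivial⟩ :
      TB p m)) ⟨?_, ?_⟩ ?_ ?_).2
  · rintro ⟨⟨i, hi⟩, x⟩ ⟨⟨j, hj⟩, y⟩ h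
    have h' := congrArg Subtype.val h
    simp only [Tr.mm.injEq] at h'
    obtain ⟨h1, h2⟩ := h'
    subst h1
    have h2' := wn_inj h2
    subst h2'
    rfl
  · rintro ⟨w, hw1, hw2⟩
    cases w with
    | nil => exact absurd hw2 (fun h => h)
    | mm i w =>
      obtain ⟨h1, h2, h3, h4⟩ := hw1
      obtain ⟨x, hx⟩ := wn_surj w h3 h4
      exact ⟨(⟨i, h1, h2⟩, x), by subst hx; rfl⟩
    | ee r v w => exact absurd hw2 (fun h => h)
    | uu r w => exact absurd hw2 (fun h => h)
  · rintro ⟨i, x⟩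
    show (stL p i + stt p m (wn x)).1 = (stL p i + sn p m x).1
    rw [sn_eq]
  · rintro ⟨i, x⟩
    show (stL p i + stt p m (wn x)).2.1 = (stL p i + sn p m x).2.1
    rw [sn_eq]

/-- `OB` or `ND` -/
def wu {p m : ℕ} : OB p m ⊕ ND p m → TU p m :=
  Sum.elim (fun x => ⟨wo x, okU_wo x⟩) (fun y => ⟨wd y, okU_wd y⟩)

lemma eqU (hB : SpecGFB) (hP : SpecGFP) (hF : SpecFFT) {p m : ℕ} (hp : 1 ≤ p) (hm : 1 ≤ m) :
    sU p m = (1 + sB p m) + (sH p m + sE p m * (1 + sB p m)) := by
  refine (rep_bij hB (τ := fun w : TU p m => stt p m w.1)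
    (rep_sum hB (rep_OB hB hF hp hm) (rep_ND hB hP hF hp hm))
    wu ⟨?_, ?_⟩ ?_ ?_).2
  · rintro (x | x) (y | y) h
    · have h' : wo x = wo y := congrArg Subtype.val h
      rw [wo_inj h']
    · exfalso
      have h' : wo x = wd y := congrArg Subtype.val h
      rcases end_wo x with h1 | h1
      · rw [h1] at h'
        exact absurd h'.symm (wd_ne_nil y)
      · rw [h'] at h1
        exact not_end_wd y h1
    · exfalso
      have h' : wd x = wo y := congrArg Subtype.val h
      rcases end_wo y with h1 | h1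
      · rw [h1] at h'
        exact absurd h' (wd_ne_nil x)
      · rw [← h'] at h1
        exact not_end_wd x h1
    · have h' : wd x = wd y := congrArg Subtype.val h
      rw [wd_inj h']
  · rintro ⟨w, hw⟩
    by_cases hn : w = Tr.nil ∨ endM w
    · obtain ⟨x, hx⟩ := wo_surj w hw hn
      exact ⟨Sum.inl x, Subtype.ext hx⟩
    · obtain ⟨x, hx⟩ := wd_surj w hw (fun h => hn (Or.inl h)) (fun h => hn (Or.inr h))
      exact ⟨Sum.inr x, Subtype.ext hx⟩
  · rintro (x | x)
    · show (stt p m (wo x)).1 = (so p m x).1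
      rw [so_eq]
    · show (stt p m (wd x)).1 = (sd p m x).1
      rw [sd_eq]
  · rintro (x | x)
    · show (stt p m (wo x)).2.1 = (so p m x).2.1
      rw [so_eq]
    · show (stt p m (wd x)).2.1 = (sd p m x).2.1
      rw [sd_eq]

end EQUM

theorem specEQU (hGFB : SpecGFB) (hGFP : SpecGFP) (hFFT : SpecFFT) : SpecEQU := by
  intro p m hp hm
  refine ⟨?_, ?_⟩
  · rw [EQUM.eqU hGFB hGFP hFFT hp hm]
    ring
  · refine (EQUM.eqB hGFB hGFP hFFT hp hm).trans ?_
    ring

end Pool.Agent.Lib.MPba1bba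
end

section
/-!
# Module EQV: equivariance of the evaluation
-/
namespace Pool.Agent.Lib.MPba1bba

namespace EQVM

variable {p m : ℕ}

/-- The relation `t c^j = c^(m j) t`. -/
def Rel (p m : ℕ) : Prop := ∀ j : ℤ, gT p (p * m) * (gA p (p * m) ^ p) ^ j =
  (gA p (p * m) ^ p) ^ (m * j) * gT p (p * m)

theorem rel_of (hW : SpecWRD) (p m : ℕ) : Rel p m :=
  (hW p (p * m)).2.2.2.2.2.2.2.2 m rfl

theorem evS_mm (i : ℕ) (w : Tr) (rest : List Tr) :
    evS p m (Tr.mm i w) rest = evS p m w rest * gA p (p * m) ^ i := by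
  cases rest with
  | nil => rfl
  | cons c' rest => simp only [evS, evT, mul_assoc]

theorem evS_ee (r : ℕ) (v w : Tr) (rest : List Tr) :
    evS p m (Tr.ee r v w) rest = evS p m w rest * (gT p (p * m))⁻¹ * evT p m v *
      (gA p (p * m) ^ p) ^ r * gT p (p * m) := by
  cases rest with
  | nil => rfl
  | cons c' rest => simp only [evS, evT, mul_assoc]

theorem evS_uu (r : ℕ) (w : Tr) (rest : List Tr) :
    evS p m (Tr.uu r w) rest = evS p m w rest * (gA p (p * m) ^ p) ^ r * gT p (p * m) := by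
  cases rest with
  | nil => rfl
  | cons c' rest => simp only [evS, evT, mul_assoc]

theorem evS_cons (c c' : Tr) (rest : List Tr) :
    evS p m c (c' :: rest) = evS p m c' rest * (gT p (p * m))⁻¹ * evT p m c := rfl

theorem comm (i : ℕ) (k : ℤ) : (gA p (p * m) ^ p) ^ k * gA p (p * m) ^ i =
    gA p (p * m) ^ i * (gA p (p * m) ^ p) ^ k :=
  (((Commute.refl (gA p (p * m))).pow_left p).zpow_left k).pow_right i

theorem comm1 (k : ℤ) : (gA p (p * m) ^ p) ^ k * gA p (p * m) =
    gA p (p * m) * (gA p (p * m) ^ p) ^ k := by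
  have := comm (p := p) (m := m) 1 k
  rwa [pow_one] at this

theorem tstep (h : Rel p m) (r : ℕ) (j : ℤ) :
    (gA p (p * m) ^ p) ^ r * gT p (p * m) * (gA p (p * m) ^ p) ^ j =
      (gA p (p * m) ^ p) ^ ((r : ℤ) + m * j) * gT p (p * m) := by
  rw [mul_assoc, h j, ← mul_assoc, zpow_add, zpow_natCast]

theorem stepA_eq (x : Stk) : evX p m (stepA p x) = evX p m x * gA p (p * m) := by
  obtain ⟨c, rest, k⟩ := x
  have gen : ∀ c : Tr, evX p m (Tr.mm 1 c, rest, k) = evX p m (c, rest, k) * gA p (p * m) := by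
    intro c
    simp only [evX, evS_mm, pow_one]
    rw [mul_assoc, mul_assoc, comm1]
  cases c with
  | nil => exact gen _
  | ee r v w => exact gen _
  | uu r w => exact gen _
  | mm i w =>
    by_cases h : i + 1 = p
    · have e : stepA p (Tr.mm i w, rest, k) = (w, rest, k + 1) := by simp [stepA, h]
      rw [e]
      simp only [evX, evS_mm]
      have e1 : gA p (p * m) ^ i * gA p (p * m) = gA p (p * m) ^ p := by rw [← pow_succ, h]
      rw [mul_assoc, mul_assoc, comm1, ← mul_assoc (gA p (p * m) ^ i), e1, zpow_add, zpow_one]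
      rw [((Commute.refl (gA p (p * m) ^ p)).zpow_left k).eq]
    · have e : stepA p (Tr.mm i w, rest, k) = (Tr.mm (i + 1) w, rest, k) := by simp [stepA, h]
      rw [e]
      simp only [evX, evS_mm]
      rw [pow_succ, mul_assoc, mul_assoc, mul_assoc, comm1, mul_assoc]

theorem stepT_eq (hm : 1 ≤ m) (h : Rel p m) (x : Stk) :
    evX p m (stepT m x) = evX p m x * gT p (p * m) := by
  obtain ⟨c, rest, k⟩ := x
  have hk : (((k % m).toNat : ℕ) : ℤ) + m * (k / m) = k := by
    rw [Int.toNat_of_nonneg (Int.emod_nonneg _ (by omega))]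
    exact Int.emod_add_mul_ediv k m
  cases rest with
  | nil =>
    have e : stepT m (c, [], k) = (Tr.uu (k % m).toNat c, [], k / m) := by simp [stepT]
    rw [e]
    simp only [evX, evS_uu]
    rw [mul_assoc (evS p m c []), mul_assoc (evS p m c []), tstep h, hk, mul_assoc]
  | cons c' rest =>
    by_cases hc : c = Tr.nil ∧ (k % m).toNat = 0
    · have e : stepT m (c, c' :: rest, k) = (c', rest, k / m) := by
        simp [stepT, hc]
      rw [e]
      obtain ⟨rfl, h0⟩ := hc
      rw [h0] at hk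
      simp only [evX, evS_cons, evT, mul_one]
      have h1 := h (k / m)
      have h2 : (m : ℤ) * (k / m) = k := by simpa using hk
      rw [h2] at h1
      rw [mul_assoc, mul_assoc, ← h1, inv_mul_cancel_left]
    · have e : stepT m (c, c' :: rest, k) = (Tr.ee (k % m).toNat c c', rest, k / m) := by
        simp only [stepT, if_neg hc]
      rw [e]
      simp only [evX, evS_ee, evS_cons]
      rw [mul_assoc _ ((gA p (p * m) ^ p) ^ (k % m).toNat), mul_assoc _ (_ * gT p (p * m)),
        tstep h, hk]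
      simp only [mul_assoc]

end EQVM

theorem specEQV (hWRD : SpecWRD) : SpecEQV := fun p m _ hm x _ =>
  ⟨EQVM.stepA_eq x, EQVM.stepT_eq hm (EQVM.rel_of hWRD p m) x⟩

end Pool.Agent.Lib.MPba1bba
end

section
/-!
# MP_ba1bba_al: module FFT (finite fibres)
-/
set_option autoImplicit false

namespace Pool.Agent.Lib.MPba1bba

namespace FFTM

theorem wt_mm (p m i : ℕ) (w : Tr) :
    (stt p m (Tr.mm i w)).1 = min i (p - i) + (stt p m w).1 := rfl

theorem wt_ee (p m r : ℕ) (v w : Tr) :
    (stt p m v).1 + (stt p m w).1 + 2 ≤ (stt p m (Tr.ee r v w)).1 := by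
  have h : (stt p m (Tr.ee r v w)).1 = 2 + (sam p m r (stt p m v)).1 + (stt p m w).1 := rfl
  have h2 : (sam p m r (stt p m v)).1 = (stt p m v).1 +
    cmin p m (stt p m v).2.1 (rho m r (stt p m v).2.2) := rfl
  omega

theorem wt_uu (p m r : ℕ) (w : Tr) :
    (stt p m w).1 + 1 ≤ (stt p m (Tr.uu r w)).1 := by
  have h : (stt p m (Tr.uu r w)).1 = 1 + (sam p m r (stt p m w)).1 := rfl
  have h2 : (sam p m r (stt p m w)).1 = (stt p m w).1 +
    cmin p m (stt p m w).2.1 (rho m r (stt p m w).2.2) := rfl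
  omega

theorem wt_cons (p m r : ℕ) (w : Tr) (tl : List (Tr × ℕ)) :
    (stt p m w).1 + (ts p m tl).1 + 1 ≤ (ts p m ((w, r) :: tl)).1 := by
  have h : (ts p m ((w, r) :: tl)).1 = 1 + (sam p m r (stt p m w + ts p m tl)).1 := rfl
  have h2 : (sam p m r (stt p m w + ts p m tl)).1 = ((stt p m w).1 + (ts p m tl).1) +
    cmin p m (stt p m w + ts p m tl).2.1 (rho m r (stt p m w + ts p m tl).2.2) := rfl
  omega

/-- the trees of weight at most `n` -/
def S (p m n : ℕ) : Set Tr := {w | (okR p m w ∨ okU p m w) ∧ (stt p m w).1 ≤ n}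

theorem step (p m n : ℕ) (w : Tr) (hw : w ∈ S p m n) : w = Tr.nil ∨
    (∃ i w', i < p ∧ w' ∈ S p m (n - 1) ∧ 1 ≤ n ∧ w = Tr.mm i w') ∨
    (∃ r v w', r < m ∧ v ∈ S p m (n - 1) ∧ w' ∈ S p m (n - 1) ∧ 1 ≤ n ∧ w = Tr.ee r v w') ∨
    (∃ r w', r < m ∧ w' ∈ S p m (n - 1) ∧ 1 ≤ n ∧ w = Tr.uu r w') := by
  obtain ⟨hok, hn⟩ := hw
  cases w with
  | nil => exact Or.inl rfl
  | mm i w' =>
    right; left
    have h1 : 0 < i ∧ i < p ∧ (okR p m w' ∨ okU p m w') := by
      rcases hok with h | h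
      · exact ⟨h.1, h.2.1, Or.inl h.2.2.1⟩
      · exact ⟨h.1, h.2.1, Or.inr h.2.2.1⟩
    rw [wt_mm] at hn
    have h2 : 1 ≤ min i (p - i) := by
      apply le_min <;> omega
    exact ⟨i, w', h1.2.1, ⟨h1.2.2, by omega⟩, by omega, rfl⟩
  | ee r v w' =>
    right; right; left
    have h1 : r < m ∧ okR p m v ∧ (okR p m w' ∨ okU p m w') := by
      rcases hok with h | h
      · exact ⟨h.1, h.2.1, Or.inl h.2.2.1⟩
      · exact ⟨h.1, h.2.1, Or.inr h.2.2.1⟩
    have h2 := wt_ee p m r v w'
    exact ⟨r, v, w', h1.1, ⟨Or.inl h1.2.1, by omega⟩, ⟨h1.2.2, by omega⟩, by omega, rfl⟩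
  | uu r w' =>
    right; right; right
    have h1 : r < m ∧ okU p m w' := by
      rcases hok with h | h
      · exact h.elim
      · exact ⟨h.1, h.2⟩
    have h2 := wt_uu p m r w'
    exact ⟨r, w', h1.1, ⟨Or.inr h1.2, by omega⟩, by omega, rfl⟩

theorem S_finite (p m : ℕ) (n : ℕ) : (S p m n).Finite := by
  induction n with
  | zero =>
    apply (Set.finite_singleton Tr.nil).subset
    intro w hw
    rcases step p m 0 w hw with h | ⟨_, _, _, _, h, _⟩ | ⟨_, _, _, _, _, _, h, _⟩ |
      ⟨_, _, _, _, h, _⟩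
    · exact h
    · omega
    · omega
    · omega
  | succ n ih =>
    have h1 : ((fun x : ℕ × Tr => Tr.mm x.1 x.2) '' (Set.Iio p ×ˢ S p m n)).Finite :=
      ((Set.finite_Iio p).prod ih).image _
    have h2 : ((fun x : ℕ × Tr × Tr => Tr.ee x.1 x.2.1 x.2.2) ''
        (Set.Iio m ×ˢ (S p m n ×ˢ S p m n))).Finite :=
      ((Set.finite_Iio m).prod (ih.prod ih)).image _
    have h3 : ((fun x : ℕ × Tr => Tr.uu x.1 x.2) '' (Set.Iio m ×ˢ S p m n)).Finite :=
      ((Set.finite_Iio m).prod ih).image _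
    apply (((Set.finite_singleton Tr.nil).union h1).union (h2.union h3)).subset
    intro w hw
    rcases step p m (n + 1) w hw with h | ⟨i, w', hi, hw', _, rfl⟩ |
      ⟨r, v, w', hr, hv, hw', _, rfl⟩ | ⟨r, w', hr, hw', _, rfl⟩
    · exact Or.inl (Or.inl h)
    · exact Or.inl (Or.inr ⟨(i, w'), ⟨hi, hw'⟩, rfl⟩)
    · exact Or.inr (Or.inl ⟨(r, v, w'), ⟨hr, hv, hw'⟩, rfl⟩)
    · exact Or.inr (Or.inr ⟨(r, w'), ⟨hr, hw'⟩, rfl⟩)

theorem T_finite (p m : ℕ) (n : ℕ) :
    {tl : List (Tr × ℕ) | okTl p m tl ∧ (ts p m tl).1 ≤ n}.Finite := by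
  induction n with
  | zero =>
    apply (Set.finite_singleton []).subset
    rintro tl ⟨h, hn⟩
    cases tl with
    | nil => rfl
    | cons x tl =>
      obtain ⟨w, r⟩ := x
      have := wt_cons p m r w tl
      omega
  | succ n ih =>
    have h1 : ((fun x : (Tr × ℕ) × List (Tr × ℕ) => x.1 :: x.2) '' ((S p m n ×ˢ Set.Iio m) ×ˢ
        {tl : List (Tr × ℕ) | okTl p m tl ∧ (ts p m tl).1 ≤ n})).Finite :=
      (((S_finite p m n).prod (Set.finite_Iio m)).prod ih).image _
    apply ((Set.finite_singleton []).union h1).subset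
    rintro tl ⟨h, hn⟩
    cases tl with
    | nil => exact Or.inl rfl
    | cons x tl =>
      obtain ⟨w, r⟩ := x
      obtain ⟨hr, hw, _, htl⟩ := h
      have := wt_cons p m r w tl
      have h2 : (stt p m w).1 ≤ n := by omega
      have h3 : (ts p m tl).1 ≤ n := by omega
      exact Or.inr ⟨((w, r), tl), ⟨⟨⟨Or.inl hw, h2⟩, hr⟩, htl, h3⟩, rfl⟩

end FFTM

open FFTM in
theorem specFFT : SpecFFT := by
  intro p m _ _
  refine ⟨fun n => ?_, fun n => ?_, fun n => ?_, fun n => ?_⟩
  · apply ((S_finite p m n).preimage (f := Subtype.val) Subtype.val_injective.injOn).subset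
    intro w hw
    exact ⟨Or.inr w.2, hw⟩
  · apply ((S_finite p m n).preimage (f := Subtype.val) Subtype.val_injective.injOn).subset
    intro w hw
    exact ⟨Or.inl w.2, hw⟩
  · apply (((S_finite p m n).prod (Set.finite_univ (α := Fin m))).preimage (f := Subtype.val)
      Subtype.val_injective.injOn).subset
    intro x hx
    have h1 : (stE p m x.1).1 = 2 + (sam p m x.1.2 (stt p m x.1.1)).1 := rfl
    have h2 : (sam p m x.1.2 (stt p m x.1.1)).1 = (stt p m x.1.1).1 +
      cmin p m (stt p m x.1.1).2.1 (rho m x.1.2 (stt p m x.1.1).2.2) := rfl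
    have h3 : (stE p m x.1).1 ≤ n := hx
    exact ⟨⟨Or.inl x.2.1, by omega⟩, trivial⟩
  · apply ((T_finite p m n).preimage (f := Subtype.val) Subtype.val_injective.injOn).subset
    intro tl htl
    exact ⟨tl.2, htl⟩

end Pool.Agent.Lib.MPba1bba
end

section
namespace Pool.Agent.Lib.MPba1bba

theorem specFIN (hCNT : SpecCNT) (hGFS : SpecGFS) (hEQR : SpecEQR) (hEQE : SpecEQE)
    (hEQU : SpecEQU) (hEQH : SpecEQH) (hEQK : SpecEQK) (hEQF : SpecEQF) (hUNQ : SpecUNQ)
    (hALG : SpecALG) : MainStatement := by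
  intro p m hp hm
  have hp1 : 1 ≤ p := by omega
  have hm1 : 1 ≤ m := by omega
  obtain ⟨hR, hA⟩ := hEQR p m hp1 hm1
  have hE := hEQE p m hp1 hm1
  obtain ⟨hU, hB⟩ := hEQU p m hp1 hm1
  have hH := hEQH p m hp1 hm1
  have hK := hEQK p m hp1 hm1
  obtain ⟨hF, hFF⟩ := hEQF p m hp1 hm1
  obtain ⟨Q, hSys, hFQ⟩ := hALG p m (sA p m) (sE p m) (sB p m) (sH p m) (sK p m) (sR p m)
    (sU p m) (sF p m) hR hA hE hU hB hH hK hF
  refine ⟨Q, sE p m, sH p m, hSys, ?_, ?_⟩
  · intro Q' E' H' hS'
    exact (hUNQ p m).1 Q (sE p m) (sH p m) Q' E' H' hSys hS'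
  · intro n
    rw [← hFQ, hCNT p m hp hm1 n]
    exact hGFS p m hp1 hm1 (TF p m) (fun y => stt p m y.1.1 + ts p m y.1.2) hFF n

end Pool.Agent.Lib.MPba1bba
end

section
/-!
# Weight enumerators: reindexing, sums, a point, shift, the letters
-/
namespace Pool.Agent.Lib.MPba1bba.GFBM

open Finset

/-- The finite partial sum of a weight enumerator. -/
noncomputable def gfT {α : Type} (c : α → ℕ) (s : α → Multiset ℤ) (T : Finset α) : Ser :=
  ∑ x ∈ T, PowerSeries.monomial (c x) (AddMonoidAlgebra.single (s x) (1 : ℤ))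

theorem coeff_gf {α : Type} (c : α → ℕ) (s : α → Multiset ℤ) (n : ℕ) :
    PowerSeries.coeff n (gf c s) =
      ∑ᶠ x ∈ {x | c x = n}, (AddMonoidAlgebra.single (s x) (1 : ℤ) : SR) := by
  rw [gf, PowerSeries.coeff_mk]
  exact finsum_set_coe_eq_finsum_mem {x | c x = n}
    (f := fun x => (AddMonoidAlgebra.single (s x) (1 : ℤ) : SR))

theorem coeff_gfT {α : Type} (c : α → ℕ) (s : α → Multiset ℤ) (T : Finset α) (n : ℕ) :
    PowerSeries.coeff n (gfT c s T) =
      ∑ x ∈ T.filter (fun x => c x = n), (AddMonoidAlgebra.single (s x) (1 : ℤ) : SR) := by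
  rw [gfT, map_sum, Finset.sum_filter]
  refine Finset.sum_congr rfl fun x _ => ?_
  rw [PowerSeries.coeff_monomial]
  by_cases h : c x = n
  · simp [h]
  · have : ¬ n = c x := fun e => h e.symm
    simp [h, this]

/-- The coefficient of a weight enumerator is the coefficient of a finite partial sum. -/
theorem coeff_gf_eq {α : Type} (c : α → ℕ) (s : α → Multiset ℤ) (T : Finset α) (n : ℕ)
    (hT : ∀ x, c x = n → x ∈ T) :
    PowerSeries.coeff n (gf c s) = PowerSeries.coeff n (gfT c s T) := by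
  rw [coeff_gf, coeff_gfT]
  apply finsum_mem_eq_sum_of_inter_support_eq
  ext x
  simp only [Set.mem_inter_iff, Set.mem_ofPred_eq, Finset.coe_filter]
  constructor
  · rintro ⟨h1, h2⟩
    exact ⟨⟨hT x h1, h1⟩, h2⟩
  · rintro ⟨⟨h1, h2⟩, h3⟩
    exact ⟨h2, h3⟩

theorem gf_eq_gfT {α : Type} [Fintype α] (c : α → ℕ) (s : α → Multiset ℤ) :
    gf c s = gfT c s univ := by
  ext n : 1
  exact coeff_gf_eq c s univ n fun x _ => mem_univ x

/-- The finite set of elements of weight at most `n`. -/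
noncomputable def lev {α : Type} {c : α → ℕ} (h : FF c) (n : ℕ) : Finset α := (h n).toFinset

theorem mem_lev {α : Type} {c : α → ℕ} (h : FF c) (n : ℕ) (x : α) : x ∈ lev h n ↔ c x ≤ n := by
  simp [lev]

theorem gf_reindex {α β : Type} (f : α ≃ β) (c : β → ℕ) (s : β → Multiset ℤ) :
    gf (fun x => c (f x)) (fun x => s (f x)) = gf c s := by
  ext n : 1
  simp only [gf, PowerSeries.coeff_mk]
  let e : {x : α // c (f x) = n} ≃ {y : β // c y = n} :=
    f.subtypeEquiv (fun x => Iff.rfl)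
  exact finsum_comp_equiv e
    (f := fun y : {y : β // c y = n} => (AddMonoidAlgebra.single (s y.1) (1 : ℤ) : SR))

theorem gf_sum {α β : Type} (c : α ⊕ β → ℕ) (s : α ⊕ β → Multiset ℤ) (hc : FF c) :
    gf c s = gf (fun x => c (Sum.inl x)) (fun x => s (Sum.inl x)) +
      gf (fun x => c (Sum.inr x)) (fun x => s (Sum.inr x)) := by
  classical
  ext n : 1
  have h1 : FF (fun x => c (Sum.inl x)) := fun n =>
    (hc n).preimage (Sum.inl_injective.injOn)
  have h2 : FF (fun x => c (Sum.inr x)) := fun n =>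
    (hc n).preimage (Sum.inr_injective.injOn)
  rw [map_add, coeff_gf_eq c s ((lev h1 n).disjSum (lev h2 n)) n,
    coeff_gf_eq _ _ (lev h1 n) n, coeff_gf_eq _ _ (lev h2 n) n]
  · rw [← map_add]
    congr 1
    simp only [gfT, Finset.sum_disjSum]
  · intro x hx
    rw [mem_lev]
    exact hx.le
  · intro x hx
    rw [mem_lev]
    exact hx.le
  · rintro (x | x) hx
    · rw [Finset.inl_mem_disjSum, mem_lev]
      exact hx.le
    · rw [Finset.inr_mem_disjSum, mem_lev]
      exact hx.le

theorem gf_unit (c : Unit → ℕ) (s : Unit → Multiset ℤ) :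
    gf c s = PowerSeries.monomial (c ()) (AddMonoidAlgebra.single (s ()) (1 : ℤ)) := by
  rw [gf_eq_gfT]
  simp [gfT]

theorem gf_shift {α : Type} (c : α → ℕ) (s : α → Multiset ℤ) (d : ℕ) :
    gf (fun x => d + c x) s = PowerSeries.X ^ d * gf c s := by
  ext n : 1
  rw [PowerSeries.coeff_X_pow_mul', coeff_gf]
  split_ifs with h
  · rw [coeff_gf]
    have : {x | d + c x = n} = {x | c x = n - d} := by
      ext x
      simp only [Set.mem_ofPred_eq]
      omega
    rw [this]
  · have : {x : α | d + c x = n} = ∅ := by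
      ext x
      simp only [Set.mem_ofPred_eq, Set.mem_empty_iff_false, iff_false]
      omega
    rw [this]
    simp

theorem gf_letters (p : ℕ) :
    gf (fun i : {i : ℕ // 0 < i ∧ i < p} => min i.1 (p - i.1))
      (fun i => ({2 * (i.1 : ℤ) - p} : Multiset ℤ)) = serY p := by
  classical
  have hfin : Finite {i : ℕ // 0 < i ∧ i < p} :=
    ((Set.finite_Ioo 0 p).subset fun x hx => hx).to_subtype
  have : Fintype {i : ℕ // 0 < i ∧ i < p} := Fintype.ofFinite _
  rw [gf_eq_gfT, gfT, serY]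
  refine Finset.sum_bij (fun i _ => i.1) ?_ ?_ ?_ ?_
  · intro i _
    exact Finset.mem_Ioo.2 i.2
  · intro i _ j _ h
    exact Subtype.ext h
  · intro i hi
    exact ⟨⟨i, Finset.mem_Ioo.1 hi⟩, mem_univ _, rfl⟩
  · intro i _
    rfl

theorem gf_split {α : Type} (c : α → ℕ) (s : α → Multiset ℤ) (P : α → Prop) (hc : FF c) :
    gf c s = gf (fun x : {x // P x} => c x.1) (fun x => s x.1) +
      gf (fun x : {x // ¬ P x} => c x.1) (fun x => s x.1) := by
  classical
  have h := gf_reindex (Equiv.sumCompl P) c s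
  have hF : FF (fun x : {x // P x} ⊕ {x // ¬ P x} => c (Equiv.sumCompl P x)) := fun n =>
    (hc n).preimage (Equiv.sumCompl P).injective.injOn
  rw [← h, gf_sum _ _ hF]
  rfl

end Pool.Agent.Lib.MPba1bba.GFBM

namespace Pool.Agent.Lib.MPba1bba

theorem specGFB : SpecGFB :=
  ⟨fun _ _ f c s => GFBM.gf_reindex f c s, fun _ _ c s hc => GFBM.gf_sum c s hc,
    fun c s => GFBM.gf_unit c s, fun _ c s d _ => GFBM.gf_shift c s d,
    fun p => GFBM.gf_letters p, fun _ c s P hc => GFBM.gf_split c s P hc⟩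

end Pool.Agent.Lib.MPba1bba
end

section
/-!
# The section operator is additive and triangular
-/
namespace Pool.Agent.Lib.MPba1bba.LINM

open Finset

/-- The linear map on coefficients used by the section operator. -/
noncomputable def lc (p m : ℕ) (j : ℕ) (x : SR) : SR :=
  x.coeff.sum fun s a => a • PowerSeries.coeff j (lamB p m s)

theorem lc_add (p m : ℕ) (j : ℕ) (x y : SR) : lc p m j (x + y) = lc p m j x + lc p m j y := by
  unfold lc
  rw [AddMonoidAlgebra.coeff_add, Finsupp.sum_add_index']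
  · intro s
    exact zero_smul _ _
  · intro s a b
    exact add_smul _ _ _

theorem lc_zero (p m : ℕ) (j : ℕ) : lc p m j 0 = 0 := by
  unfold lc
  rw [AddMonoidAlgebra.coeff_zero]
  exact Finsupp.sum_zero_index

theorem lc_single (p m : ℕ) (j : ℕ) (s : Multiset ℤ) (a : ℤ) :
    lc p m j (AddMonoidAlgebra.single s a) = a • PowerSeries.coeff j (lamB p m s) := by
  unfold lc
  rw [AddMonoidAlgebra.coeff_single, Finsupp.sum_single_index]
  exact zero_smul _ _

theorem coeff_lam (p m : ℕ) (F : Ser) (n : ℕ) :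
    PowerSeries.coeff n (lam p m F) = ∑ ij ∈ Finset.HasAntidiagonal.antidiagonal n,
      lc p m ij.2 (PowerSeries.coeff ij.1 F) := by
  rw [lam, PowerSeries.coeff_mk]
  rfl

theorem lam_add (p m : ℕ) (F G : Ser) : lam p m (F + G) = lam p m F + lam p m G := by
  ext n : 1
  rw [map_add, coeff_lam, coeff_lam, coeff_lam, ← Finset.sum_add_distrib]
  refine Finset.sum_congr rfl fun ij _ => ?_
  rw [map_add, lc_add]

theorem lam_zero (p m : ℕ) : lam p m 0 = 0 := by
  ext n : 1
  rw [coeff_lam]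
  simp [lc_zero]

theorem lam_sum (p m : ℕ) {ι : Type} (T : Finset ι) (F : ι → Ser) :
    lam p m (∑ x ∈ T, F x) = ∑ x ∈ T, lam p m (F x) := by
  classical
  induction T using Finset.induction_on with
  | empty => simp [lam_zero]
  | insert a T ha ih => rw [Finset.sum_insert ha, Finset.sum_insert ha, lam_add, ih]

theorem lam_congr (p m : ℕ) (F G : Ser) (n : ℕ)
    (h : ∀ i ≤ n, PowerSeries.coeff i F = PowerSeries.coeff i G) :
    PowerSeries.coeff n (lam p m F) = PowerSeries.coeff n (lam p m G) := by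
  rw [coeff_lam, coeff_lam]
  refine Finset.sum_congr rfl fun ij hij => ?_
  have hij' := Finset.HasAntidiagonal.mem_antidiagonal.1 hij
  rw [h ij.1 (by omega)]

/-- The section operator on a monomial. -/
theorem lam_monomial (p m : ℕ) (i : ℕ) (s : Multiset ℤ) :
    lam p m (PowerSeries.monomial i (AddMonoidAlgebra.single s (1 : ℤ))) =
      PowerSeries.X ^ i * lamB p m s := by
  ext n : 1
  rw [coeff_lam, PowerSeries.coeff_X_pow_mul']
  have hz : ∀ ij ∈ Finset.HasAntidiagonal.antidiagonal n, ij.1 ≠ i →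
      lc p m ij.2 (PowerSeries.coeff ij.1
        (PowerSeries.monomial i (AddMonoidAlgebra.single s (1 : ℤ)))) = 0 := by
    intro ij _ hne
    rw [PowerSeries.coeff_monomial, if_neg hne, lc_zero]
  split_ifs with h
  · rw [Finset.sum_eq_single (i, n - i)]
    · rw [PowerSeries.coeff_monomial, if_pos rfl, lc_single, one_smul]
    · intro ij hij hne
      apply hz ij hij
      intro he
      apply hne
      have hij' := Finset.HasAntidiagonal.mem_antidiagonal.1 hij
      exact Prod.ext he (by simp only; omega)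
    · intro hnot
      exfalso
      apply hnot
      rw [Finset.HasAntidiagonal.mem_antidiagonal]
      simp only
      omega
  · apply Finset.sum_eq_zero
    intro ij hij
    apply hz ij hij
    have hij' := Finset.HasAntidiagonal.mem_antidiagonal.1 hij
    omega

end Pool.Agent.Lib.MPba1bba.LINM

namespace Pool.Agent.Lib.MPba1bba

theorem specLIN : SpecLIN := fun p m =>
  ⟨fun F G => LINM.lam_add p m F G, fun F G _ h i hi =>
    LINM.lam_congr p m F G i fun j hj => h j (hj.trans hi)⟩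

end Pool.Agent.Lib.MPba1bba
end

section
/-!
# Weight enumerators: the section operator
-/
namespace Pool.Agent.Lib.MPba1bba.GFLM

open Finset GFBM

theorem rho_lt {m : ℕ} (hm : 1 ≤ m) (r : ℕ) (x : ℤ) : rho m r x < m := by
  have h1 : (0 : ℤ) < m := by exact_mod_cast hm
  have h2 := Int.emod_nonneg ((r : ℤ) - x) h1.ne'
  have h3 := Int.emod_lt_of_pos ((r : ℤ) - x) h1
  unfold rho
  omega

theorem rho_inj {m : ℕ} (hm : 1 ≤ m) (x : ℤ) (r r' : Fin m) (h : rho m r x = rho m r' x) :
    r = r' := by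
  have h1 : (0 : ℤ) < m := by exact_mod_cast hm
  have h2 := Int.emod_nonneg ((r : ℤ) - x) h1.ne'
  have h3 := Int.emod_nonneg ((r' : ℤ) - x) h1.ne'
  unfold rho at h
  have h4 : ((r : ℤ) - x) % m = ((r' : ℤ) - x) % m := by omega
  have h5 : (m : ℤ) ∣ ((r' : ℤ) - x) - ((r : ℤ) - x) := Int.ModEq.dvd h4
  have h6 : ((r' : ℤ) - x) - ((r : ℤ) - x) = (r' : ℤ) - r := by ring
  rw [h6] at h5
  have h7 : (r : ℕ) < m := r.2
  have h8 : (r' : ℕ) < m := r'.2
  have h9 : (r' : ℤ) - r = 0 := by
    apply Int.eq_zero_of_abs_lt_dvd h5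
    rw [abs_lt]
    constructor <;> omega
  apply Fin.ext
  omega

/-- The bijection `r ↦ rho m r x` of `{0, ..., m - 1}`. -/
theorem sum_rho {m : ℕ} (hm : 1 ≤ m) (x : ℤ) (f : ℕ → Ser) :
    ∑ r : Fin m, f (rho m r x) = ∑ r ∈ range m, f r := by
  rw [← Fin.sum_univ_eq_sum_range]
  let g : Fin m → Fin m := fun r => ⟨rho m r x, rho_lt hm r x⟩
  have hg : Function.Injective g := by
    intro r r' h
    exact rho_inj hm x r r' (by simpa [g] using h)
  have hb : Function.Bijective g := Finite.injective_iff_bijective.1 hg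
  exact hb.sum_comp (fun r => f r)

theorem lam_gfT (p m : ℕ) (hm : 1 ≤ m) {α : Type} (σ : α → Sta) (T : Finset α) :
    gfT (fun y : α × Fin m => (sam p m y.2 (σ y.1)).1) (fun y => (sam p m y.2 (σ y.1)).2.1)
        (T ×ˢ univ) =
      lam p m (gfT (fun x => (σ x).1) (fun x => (σ x).2.1) T) := by
  simp only [gfT]
  rw [LINM.lam_sum, Finset.sum_product]
  refine Finset.sum_congr rfl fun x _ => ?_
  rw [LINM.lam_monomial, lamB, Finset.mul_sum, ← sum_rho hm (σ x).2.2]
  refine Finset.sum_congr rfl fun r _ => ?_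
  rw [PowerSeries.X_pow_eq, PowerSeries.monomial_mul_monomial, one_mul]
  rfl

theorem ff_sam (p m : ℕ) {α : Type} (σ : α → Sta) (h : FF (fun x => (σ x).1)) :
    FF (fun y : α × Fin m => (sam p m y.2 (σ y.1)).1) := by
  intro n
  refine ((h n).prod (Set.finite_univ : (Set.univ : Set (Fin m)).Finite)).subset ?_
  rintro ⟨x, r⟩ hx
  have hx' : (σ x).1 + cmin p m (σ x).2.1 (rho m r (σ x).2.2) ≤ n := hx
  exact ⟨show (σ x).1 ≤ n by omega, trivial⟩

theorem gfW_sam (p m : ℕ) (hm : 1 ≤ m) {α : Type} (σ : α → Sta) (h : FF (fun x => (σ x).1)) :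
    gfW (fun y : α × Fin m => sam p m y.2 (σ y.1)) = lam p m (gfW σ) := by
  classical
  ext n : 1
  unfold gfW
  rw [coeff_gf_eq _ _ (lev h n ×ˢ (univ : Finset (Fin m))) n, lam_gfT p m hm]
  · apply LINM.lam_congr
    intro i hi
    symm
    apply coeff_gf_eq
    intro x hx
    rw [mem_lev]
    omega
  · rintro ⟨x, r⟩ hx
    have hx' : (σ x).1 + cmin p m (σ x).2.1 (rho m r (σ x).2.2) = n := hx
    rw [Finset.mem_product, mem_lev]
    exact ⟨show (σ x).1 ≤ n by omega, mem_univ _⟩

end Pool.Agent.Lib.MPba1bba.GFLM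

namespace Pool.Agent.Lib.MPba1bba

theorem specGFL : SpecGFL := fun p m hm _ σ h =>
  ⟨GFLM.ff_sam p m σ h, GFLM.gfW_sam p m hm σ h⟩

end Pool.Agent.Lib.MPba1bba
end

section
/-!
# Weight enumerators: products
-/
namespace Pool.Agent.Lib.MPba1bba.GFPM

open Finset GFBM

theorem ff_prod {α β : Type} {c : α → ℕ} {c' : β → ℕ} (h : FF c) (h' : FF c') :
    FF (fun x : α × β => c x.1 + c' x.2) := by
  intro n
  refine ((h n).prod (h' n)).subset ?_
  rintro ⟨x, y⟩ hx
  have hx' : c x + c' y ≤ n := hx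
  exact ⟨show c x ≤ n by omega, show c' y ≤ n by omega⟩

theorem gfT_prod {α β : Type} (c : α → ℕ) (s : α → Multiset ℤ) (c' : β → ℕ)
    (s' : β → Multiset ℤ) (T : Finset α) (T' : Finset β) :
    gfT (fun x : α × β => c x.1 + c' x.2) (fun x => s x.1 + s' x.2) (T ×ˢ T') =
      gfT c s T * gfT c' s' T' := by
  simp only [gfT]
  rw [Finset.sum_mul_sum, Finset.sum_product]
  refine Finset.sum_congr rfl fun x _ => Finset.sum_congr rfl fun y _ => ?_
  rw [PowerSeries.monomial_mul_monomial, AddMonoidAlgebra.single_mul_single, one_mul]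

theorem gf_prod {α β : Type} (c : α → ℕ) (s : α → Multiset ℤ) (c' : β → ℕ)
    (s' : β → Multiset ℤ) (h : FF c) (h' : FF c') :
    gf (fun x : α × β => c x.1 + c' x.2) (fun x => s x.1 + s' x.2) = gf c s * gf c' s' := by
  classical
  ext n : 1
  rw [coeff_gf_eq _ _ (lev h n ×ˢ lev h' n) n, gfT_prod, PowerSeries.coeff_mul,
    PowerSeries.coeff_mul]
  · refine Finset.sum_congr rfl fun ij hij => ?_
    have hij' := Finset.HasAntidiagonal.mem_antidiagonal.1 hij
    rw [coeff_gf_eq c s (lev h n) ij.1, coeff_gf_eq c' s' (lev h' n) ij.2]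
    · intro y hy
      rw [mem_lev]
      omega
    · intro x hx
      rw [mem_lev]
      omega
  · rintro ⟨x, y⟩ hx
    have hx' : c x + c' y = n := hx
    rw [Finset.mem_product, mem_lev, mem_lev]
    exact ⟨show c x ≤ n by omega, show c' y ≤ n by omega⟩

end Pool.Agent.Lib.MPba1bba.GFPM

namespace Pool.Agent.Lib.MPba1bba

theorem specGFP : SpecGFP := fun _ _ c s c' s' h h' =>
  ⟨GFPM.ff_prod h h', GFPM.gf_prod c s c' s' h h'⟩

end Pool.Agent.Lib.MPba1bba
end

section
/-!
# MP_ba1bba_al: module GFS, summation over the exponent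
-/
set_option autoImplicit false

namespace Pool.Agent.Lib.MPba1bba

namespace GFSM

open PowerSeries

/-- evaluation of a polynomial with weights on the monomials -/
noncomputable def ev (g : Multiset ℤ → ℤ) : SR →+ ℤ where
  toFun F := F.coeff.sum fun s a => a * g s
  map_zero' := by simp
  map_add' F G := by
    rw [AddMonoidAlgebra.coeff_add]
    exact Finsupp.sum_add_index' (fun _ => zero_mul _) (fun _ _ _ => add_mul _ _ _)

theorem ev_apply (g : Multiset ℤ → ℤ) (F : SR) : ev g F = F.coeff.sum fun s a => a * g s := rfl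

theorem ev_single (g : Multiset ℤ → ℤ) (s : Multiset ℤ) :
    ev g (AddMonoidAlgebra.single s (1 : ℤ)) = g s := by
  rw [ev_apply, AddMonoidAlgebra.coeff_single, Finsupp.sum_single_index] <;> simp

/-- splitting the fibres -/
def splitEquiv {α : Type} (c : α → ℕ) (f : α → ℤ → ℕ) (n : ℕ) :
    {y : α × ℤ // c y.1 + f y.1 y.2 = n} ≃
      Σ ij : {ij : ℕ × ℕ // ij ∈ Finset.HasAntidiagonal.antidiagonal n},
        Σ x : {x : α // c x = ij.1.1}, {k : ℤ // f x.1 k = ij.1.2} where
  toFun y := ⟨⟨(c y.1.1, f y.1.1 y.1.2), Finset.HasAntidiagonal.mem_antidiagonal.2 y.2⟩,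
    ⟨y.1.1, rfl⟩, ⟨y.1.2, rfl⟩⟩
  invFun z := ⟨(z.2.1.1, z.2.2.1), by
    have h := Finset.HasAntidiagonal.mem_antidiagonal.1 z.1.2
    have h1 := z.2.1.2
    have h2 := z.2.2.2
    simp only at *
    rw [h1, h2, h]⟩
  left_inv y := rfl
  right_inv z := by
    obtain ⟨⟨⟨i, j⟩, hij⟩, ⟨x, hx⟩, ⟨k, hk⟩⟩ := z
    simp only at hx hk
    subst hx
    subst hk
    rfl

end GFSM

open GFSM PowerSeries in
theorem specGFS (hEFF : SpecEFF) : SpecGFS := by
  intro p m hp hm α σ hFF n
  have hfx : ∀ i : ℕ, Finite {x : α // (σ x).1 = i} := fun i =>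
    ((hFF i).subset (fun x (hx : (σ x).1 = i) => le_of_eq hx)).to_subtype
  have hfk : ∀ (s : Multiset ℤ) (j : ℕ), Finite {k : ℤ // ic (bfun p s) (efun p m) k = j} :=
    fun s j => ((hEFF p m hp hm s j).subset
      (fun k (hk : ic (bfun p s) (efun p m) k = j) => le_of_eq hk)).to_subtype
  rw [psi, coeff_mk, Nat.card_congr (splitEquiv (fun x => (σ x).1)
    (fun x => ic (bfun p (σ x).2.1) (efun p m)) n), Nat.card_sigma, Nat.cast_sum,
    ← Finset.sum_coe_sort (Finset.HasAntidiagonal.antidiagonal n)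
      (fun ij => (coeff ij.1 (gfW σ)).coeff.sum fun s a => a * (pcoef p m s ij.2 : ℤ))]
  apply Finset.sum_congr rfl
  rintro ⟨⟨i, j⟩, hij⟩ -
  simp only
  have hcoe : coeff i (gfW σ) = ∑ᶠ x : {x : α // (σ x).1 = i},
      AddMonoidAlgebra.single (σ x.1).2.1 (1 : ℤ) := by
    rw [gfW, gf, coeff_mk]
  have := Fintype.ofFinite {x : α // (σ x).1 = i}
  rw [hcoe, finsum_eq_sum_of_fintype, Nat.card_sigma, Nat.cast_sum]
  have h1 := map_sum (ev fun s => (pcoef p m s j : ℤ))
    (fun x : {x : α // (σ x).1 = i} => AddMonoidAlgebra.single (σ x.1).2.1 (1 : ℤ)) Finset.univ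
  rw [ev_apply] at h1
  rw [h1]
  apply Finset.sum_congr rfl
  intro x _
  rw [ev_single]
  rfl

end Pool.Agent.Lib.MPba1bba
end

section
/-!
# MP_ba1bba_al : IC
-/
namespace Pool.Agent.Lib.MPba1bba

namespace ICM

theorem ex (f g : ℤ → ℕ) (k : ℤ) : ∃ j, ic f g k = f j + g (k - j) := by
  obtain ⟨j, hj⟩ := Nat.sInf_mem (s := Set.range fun j : ℤ => f j + g (k - j))
    (Set.range_nonempty _)
  exact ⟨j, hj.symm⟩

theorem le (f g : ℤ → ℕ) (k j : ℤ) : ic f g k ≤ f j + g (k - j) :=
  ciInf_le (OrderBot.bddBelow _) j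

theorem le_of {f g : ℤ → ℕ} {k : ℤ} {n : ℕ} (h : ∀ j, n ≤ f j + g (k - j)) : n ≤ ic f g k := by
  obtain ⟨j, hj⟩ := ex f g k
  rw [hj]
  exact h j

theorem comm (f g : ℤ → ℕ) : ic f g = ic g f := by
  have key : ∀ f g : ℤ → ℕ, ∀ k, ic f g k ≤ ic g f k := by
    intro f g k
    apply le_of
    intro j
    have h := le f g k (k - j)
    rw [show k - (k - j) = j by ring] at h
    omega
  funext k
  exact le_antisymm (key f g k) (key g f k)

theorem assoc (f g h : ℤ → ℕ) : ic (ic f g) h = ic f (ic g h) := by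
  funext k
  apply le_antisymm
  · apply le_of
    intro j
    obtain ⟨i, hi⟩ := ex g h (k - j)
    rw [hi]
    have h1 := le (ic f g) h k (j + i)
    have h2 := le f g (j + i) j
    rw [show j + i - j = i by ring] at h2
    rw [show k - (j + i) = k - j - i by ring] at h1
    omega
  · apply le_of
    intro j
    obtain ⟨i, hi⟩ := ex f g j
    rw [hi]
    have h1 := le f (ic g h) k i
    have h2 := le g h (k - i) (j - i)
    rw [show k - i - (j - i) = k - j by ring] at h2
    omega

end ICM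

theorem specIC : SpecIC := by
  refine ⟨ICM.ex, ICM.le, ICM.comm, ICM.assoc, ?_, ?_⟩
  · intro c f g
    funext k
    apply le_antisymm
    · obtain ⟨j, hj⟩ := ICM.ex f g k
      have h := ICM.le (fun k => c + f k) g k j
      rw [hj]
      omega
    · apply ICM.le_of
      intro j
      have h := ICM.le f g k j
      omega
  · intro x f g
    funext k
    apply le_antisymm
    · apply ICM.le_of
      intro j
      have h := ICM.le (fun k => f (k - x)) g k (j + x)
      rw [show j + x - x = j by ring, show k - (j + x) = k - x - j by ring] at h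
      exact h
    · apply ICM.le_of
      intro j
      have h := ICM.le f g (k - x) (j - x)
      rw [show k - x - (j - x) = k - j by ring] at h
      exact h

end Pool.Agent.Lib.MPba1bba
end

section
/-!
# MP_ba1bba_al: module LEN, the word length is the profile
-/
namespace Pool.Agent.Lib.MPba1bba

namespace LENM

/-- every product of `n` generators is reached by a reduced stack of profile `≤ n` -/
theorem reach (hACT : SpecACT) (hEQV : SpecEQV) (hLIP : SpecLIP) (hEFN : SpecEFN)
    (p m : ℕ) (hp : 2 ≤ p) (hm : 1 ≤ m) (l : List (BS p (p * m))) :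
    (∀ x ∈ l, x = gA p (p * m) ∨ x = (gA p (p * m))⁻¹ ∨ x = gT p (p * m) ∨
      x = (gT p (p * m))⁻¹) →
    ∃ y : Stk, okX p m y ∧ evX p m y = l.prod ∧ spX p m y ≤ l.length := by
  obtain ⟨hA1, hA2, -⟩ := hACT p m hp hm
  induction l using List.reverseRecOn with
  | nil =>
    intro _
    refine ⟨(Tr.nil, [], 0), ?_, ?_, ?_⟩
    · simp [okX, okS, okU]
    · simp [evX, evS, evT]
    · have h0 := (hEFN p m (by omega) hm).1
      simp [spX, sp, pf, h0]
  | append_singleton l x ih =>
    intro hl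
    obtain ⟨y, hy1, hy2, hy3⟩ := ih (fun z hz => hl z (List.mem_append_left _ hz))
    have hx := hl x (by simp)
    rw [List.prod_append, List.prod_singleton, List.length_append, List.length_singleton,
      ← hy2]
    obtain ⟨k1, k2, k3, k4⟩ := hA1 y hy1
    obtain ⟨j1, j2, j3, j4⟩ := hA2 y hy1
    rcases hx with rfl | rfl | rfl | rfl
    · refine ⟨stepA p y, k1, (hEQV p m hp hm y hy1).1, ?_⟩
      have := (hLIP p m hp hm y hy1).1
      omega
    · refine ⟨stepA' p y, k2, ?_, ?_⟩
      · have h1 := (hEQV p m hp hm _ k2).1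
        rw [j2] at h1
        rw [h1, mul_inv_cancel_right]
      · have h1 := (hLIP p m hp hm _ k2).2.1
        rw [j2] at h1
        omega
    · refine ⟨stepT m y, k3, (hEQV p m hp hm y hy1).2, ?_⟩
      have := (hLIP p m hp hm y hy1).2.2.1
      omega
    · refine ⟨stepT' m y, k4, ?_, ?_⟩
      · have h1 := (hEQV p m hp hm _ k4).2
        rw [j4] at h1
        rw [h1, mul_inv_cancel_right]
      · have h1 := (hLIP p m hp hm _ k4).2.2.2
        rw [j4] at h1
        omega

end LENM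

theorem specLEN (hWRD : SpecWRD) (hACT : SpecACT) (hEQV : SpecEQV) (hBIJ : SpecBIJ)
    (hLIP : SpecLIP) (hREA : SpecREA) (hEFN : SpecEFN) : SpecLEN := by
  intro p m hp hm x hx
  obtain ⟨-, -, -, -, -, -, w7, w8, -⟩ := hWRD p (p * m)
  apply le_antisymm
  · obtain ⟨n, hn, hw⟩ := hREA p m hp hm x hx
    exact (w8 _ _ hw).trans hn
  · obtain ⟨l, h1, h2, h3⟩ := w7 (evX p m x)
    obtain ⟨y, hy1, hy2, hy3⟩ := LENM.reach hACT hEQV hLIP hEFN p m hp hm l h2
    rw [h3] at hy2
    have h4 : (⟨y, hy1⟩ : {x : Stk // okX p m x}) = ⟨x, hx⟩ := (hBIJ p m hp hm).1 hy2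
    have h5 : y = x := congrArg Subtype.val h4
    rw [h5, h1] at hy3
    exact hy3

end Pool.Agent.Lib.MPba1bba
end

section
/-!
# MP_ba1bba_al: module PFF (profiles of stacks)
-/
namespace Pool.Agent.Lib.MPba1bba

namespace PFFM

theorem inf_att (h : ℤ → ℕ) : ∃ j, (⨅ j, h j) = h j := by
  have h1 : sInf (Set.range h) ∈ Set.range h := Nat.sInf_mem (Set.range_nonempty h)
  obtain ⟨j, hj⟩ := h1
  exact ⟨j, hj.symm⟩

theorem inf_le (h : ℤ → ℕ) (j : ℤ) : (⨅ j, h j) ≤ h j :=
  ciInf_le (OrderBot.bddBelow _) j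

theorem ic_att (f g : ℤ → ℕ) (k : ℤ) : ∃ j, ic f g k = f j + g (k - j) :=
  inf_att fun j => f j + g (k - j)

theorem ic_le (f g : ℤ → ℕ) (k j : ℤ) : ic f g k ≤ f j + g (k - j) :=
  inf_le (fun j => f j + g (k - j)) j

/-- Stability under infimal convolution with `e`. -/
def Stab (p m : ℕ) (f : ℤ → ℕ) : Prop := ∀ k j : ℤ, f k ≤ f j + efun p m (k - j)

theorem stab_ic {p m : ℕ} (h0 : efun p m 0 = 0) {f : ℤ → ℕ} (hf : Stab p m f) :
    ic f (efun p m) = f := by
  funext k
  apply le_antisymm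
  · have h1 := ic_le f (efun p m) k k
    rw [sub_self, h0, add_zero] at h1
    exact h1
  · obtain ⟨j, hj⟩ := ic_att f (efun p m) k
    rw [hj]
    exact hf k j

theorem stab_of_ic {p m : ℕ} {f : ℤ → ℕ} (hf : ic f (efun p m) = f) : Stab p m f := by
  intro k j
  have h1 := ic_le f (efun p m) k j
  rw [hf] at h1
  exact h1

theorem stab_e {p m : ℕ}
    (hs : ∀ k l : ℤ, efun p m (k + l) ≤ efun p m k + efun p m l) : Stab p m (efun p m) := by
  intro k j
  have h1 := hs j (k - j)
  rwa [add_sub_cancel] at h1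

theorem stab_conv_right {p m : ℕ} {f g : ℤ → ℕ} (hg : Stab p m g) : Stab p m (ic f g) := by
  intro k j
  obtain ⟨i, hi⟩ := ic_att f g j
  have h1 := ic_le f g k i
  have h2 := hg (k - i) (j - i)
  rw [show k - i - (j - i) = k - j by ring] at h2
  omega

theorem stab_conv_left {p m : ℕ} {f g : ℤ → ℕ} (hf : Stab p m f) : Stab p m (ic f g) := by
  intro k j
  obtain ⟨i, hi⟩ := ic_att f g j
  have h1 := ic_le f g k (i + (k - j))
  rw [show k - (i + (k - j)) = j - i by ring] at h1
  have h2 := hf (i + (k - j)) i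
  rw [show i + (k - j) - i = k - j by ring] at h2
  omega

theorem stab_add {p m : ℕ} {f : ℤ → ℕ} (c : ℕ) (hf : Stab p m f) :
    Stab p m (fun k => c + f k) := by
  intro k j
  have h1 := hf k j
  show c + f k ≤ c + f j + efun p m (k - j)
  omega

theorem stab_smp {p m : ℕ} (hs : Stab p m (efun p m)) (r : ℕ) (h : ℤ → ℕ) :
    Stab p m (smp p m r h) := stab_conv_right hs

theorem stab_min {p m : ℕ} {f : ℤ → ℕ} (hf : Stab p m f) (i : ℕ) :
    Stab p m (fun k => min (f k + i) (f (k + 1) + (p - i))) := by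
  intro k j
  have h1 := hf k j
  have h2 := hf (k + 1) (j + 1)
  rw [show k + 1 - (j + 1) = k - j by ring] at h2
  show min (f k + i) (f (k + 1) + (p - i)) ≤ min (f j + i) (f (j + 1) + (p - i)) + efun p m (k - j)
  rcases le_total (f j + i) (f (j + 1) + (p - i)) with h3 | h3
  · rw [min_eq_left h3]
    have := min_le_left (f k + i) (f (k + 1) + (p - i))
    omega
  · rw [min_eq_right h3]
    have := min_le_right (f k + i) (f (k + 1) + (p - i))
    omega

theorem stab_pf {p m : ℕ} (hs : Stab p m (efun p m)) : ∀ w : Tr, Stab p m (pf p m w)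
  | Tr.nil => hs
  | Tr.mm i w => stab_min (stab_pf hs w) i
  | Tr.ee _ _ w => stab_add 2 (stab_conv_left (stab_pf hs w))
  | Tr.uu r w => stab_add 1 (stab_smp hs r (pf p m w))

theorem stab_inf {p m : ℕ} {f : ℤ → ℕ} (h : ℤ → ℕ) (hf : Stab p m f) :
    Stab p m (fun k => 1 + ⨅ j : ℤ, (h j + f (k - m * j))) := by
  intro k k'
  show (1 + ⨅ j : ℤ, (h j + f (k - m * j))) ≤ (1 + ⨅ j : ℤ, (h j + f (k' - m * j))) +
    efun p m (k - k')
  obtain ⟨j, hj⟩ := inf_att fun j : ℤ => h j + f (k' - m * j)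
  have h1 := inf_le (fun j : ℤ => h j + f (k - m * j)) j
  have h2 := hf (k - m * j) (k' - m * j)
  rw [show k - m * j - (k' - m * j) = k - k' by ring] at h2
  try simp only at hj h1
  omega

theorem stab_sp {p m : ℕ} (hs : Stab p m (efun p m)) (c : Tr) (rest : List Tr) :
    Stab p m (sp p m c rest) := by
  cases rest with
  | nil => exact stab_pf hs c
  | cons c' rest => exact stab_inf _ (stab_pf hs c)

/-- The sampled convolution. -/
theorem conv_smp {p m : ℕ} (hIC : SpecIC) (r : ℕ) (H f : ℤ → ℕ) (k : ℤ) :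
    smp p m r (fun k => 1 + ⨅ j : ℤ, (H j + f (k - m * j))) k =
      1 + ic H (smp p m r f) k := by
  obtain ⟨-, -, -, hassoc, hconst, -⟩ := hIC
  have h1 : (fun j : ℤ => 1 + ⨅ j' : ℤ, (H j' + f ((r : ℤ) + m * j - m * j'))) =
      fun j => 1 + ic H (fun j => f (r + m * j)) j := by
    funext j
    unfold ic
    congr 1
    congr 1
    funext j'
    congr 2
    ring
  unfold smp
  try simp only
  rw [h1, hconst]
  try simp only
  rw [hassoc]

/-- The same for two nested infima. -/
theorem conv_two {m : ℕ} (G f S : ℤ → ℕ) (k : ℤ) :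
    (⨅ j : ℤ, (G j + (2 + ic f S (k - m * j)))) =
      1 + ic (fun k => 1 + ⨅ j : ℤ, (G j + f (k - m * j))) S k := by
  apply le_antisymm
  · obtain ⟨i, hi⟩ := ic_att (fun k => 1 + ⨅ j : ℤ, (G j + f (k - m * j))) S k
    obtain ⟨j, hj⟩ := inf_att fun j : ℤ => G j + f (i - m * j)
    have h1 := inf_le (fun j : ℤ => G j + (2 + ic f S (k - m * j))) j
    have h2 := ic_le f S (k - m * j) (i - m * j)
    rw [show k - m * j - (i - m * j) = k - i by ring] at h2
    try simp only at hi hj h1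
    omega
  · obtain ⟨j, hj⟩ := inf_att fun j : ℤ => G j + (2 + ic f S (k - m * j))
    obtain ⟨i, hi⟩ := ic_att f S (k - m * j)
    have h1 := ic_le (fun k => 1 + ⨅ j : ℤ, (G j + f (k - m * j))) S k (i + m * j)
    have h2 := inf_le (fun j' : ℤ => G j' + f (i + m * j - m * j')) j
    rw [show k - (i + m * j) = k - m * j - i by ring] at h1
    try simp only at hj h1 h2
    rw [show i + m * j - m * j = i by ring] at h2
    omega

end PFFM

open PFFM in
theorem specPFF (hIC : SpecIC) (hEFN : SpecEFN) : SpecPFF := by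
  intro p m hp hm
  obtain ⟨e0, esub, -, -, -, emul, -, -, -⟩ := hEFN p m hp hm
  have hs : Stab p m (efun p m) := stab_e esub
  refine ⟨?_, ?_, ?_, ?_, ?_⟩
  · intro c rest
    exact stab_ic e0 (stab_sp hs c rest)
  · intro i w rest k hi
    cases rest with
    | nil => rfl
    | cons c' rest =>
      show (1 + ⨅ j : ℤ, (sp p m c' rest j +
          min (pf p m w (k - m * j) + i) (pf p m w (k - m * j + 1) + (p - i)))) =
        min (1 + (⨅ j : ℤ, (sp p m c' rest j + pf p m w (k - m * j))) + i)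
          (1 + (⨅ j : ℤ, (sp p m c' rest j + pf p m w (k + 1 - m * j))) + (p - i))
      apply le_antisymm
      · apply le_min
        · obtain ⟨j, hj⟩ := inf_att fun j : ℤ => sp p m c' rest j + pf p m w (k - m * j)
          have h1 := inf_le (fun j : ℤ => sp p m c' rest j +
            min (pf p m w (k - m * j) + i) (pf p m w (k - m * j + 1) + (p - i))) j
          have h2 := min_le_left (pf p m w (k - m * j) + i) (pf p m w (k - m * j + 1) + (p - i))
          try simp only at hj h1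
          omega
        · obtain ⟨j, hj⟩ := inf_att fun j : ℤ => sp p m c' rest j + pf p m w (k + 1 - m * j)
          have h1 := inf_le (fun j : ℤ => sp p m c' rest j +
            min (pf p m w (k - m * j) + i) (pf p m w (k - m * j + 1) + (p - i))) j
          have h2 := min_le_right (pf p m w (k - m * j) + i) (pf p m w (k - m * j + 1) + (p - i))
          rw [show k + 1 - m * j = k - m * j + 1 by ring] at hj
          try simp only at hj h1
          omega
      · obtain ⟨j, hj⟩ := inf_att fun j : ℤ => sp p m c' rest j +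
          min (pf p m w (k - m * j) + i) (pf p m w (k - m * j + 1) + (p - i))
        have h1 := inf_le (fun j : ℤ => sp p m c' rest j + pf p m w (k - m * j)) j
        have h2 := inf_le (fun j : ℤ => sp p m c' rest j + pf p m w (k + 1 - m * j)) j
        try simp only at hj h1 h2
        rw [show k + 1 - m * j = k - m * j + 1 by ring] at h2
        rcases le_total (pf p m w (k - m * j) + i) (pf p m w (k - m * j + 1) + (p - i)) with h3 | h3
        · rw [min_eq_left h3] at hj
          have h4 := min_le_left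
            (1 + (⨅ j : ℤ, (sp p m c' rest j + pf p m w (k - m * j))) + i)
            (1 + (⨅ j : ℤ, (sp p m c' rest j + pf p m w (k + 1 - m * j))) + (p - i))
          omega
        · rw [min_eq_right h3] at hj
          have h4 := min_le_right
            (1 + (⨅ j : ℤ, (sp p m c' rest j + pf p m w (k - m * j))) + i)
            (1 + (⨅ j : ℤ, (sp p m c' rest j + pf p m w (k + 1 - m * j))) + (p - i))
          omega
  · intro r v w rest k
    have h1 : smp p m r (sp p m v (w :: rest)) k =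
        1 + ic (sp p m w rest) (smp p m r (pf p m v)) k :=
      conv_smp hIC r (sp p m w rest) (pf p m v) k
    rw [h1]
    cases rest with
    | nil =>
      show 2 + ic (pf p m w) (smp p m r (pf p m v)) k =
        1 + (1 + ic (pf p m w) (smp p m r (pf p m v)) k)
      omega
    | cons c' rest =>
      show (1 + ⨅ j : ℤ, (sp p m c' rest j +
        (2 + ic (pf p m w) (smp p m r (pf p m v)) (k - m * j)))) = _
      rw [conv_two]
      rfl
  · intro r w k
    rfl
  · intro w rest k
    show (1 + ⨅ j : ℤ, (sp p m w rest j + efun p m (m * k - m * j))) = 1 + sp p m w rest k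
    congr 1
    apply le_antisymm
    · have h1 := inf_le (fun j : ℤ => sp p m w rest j + efun p m (m * k - m * j)) k
      try simp only at h1
      rw [sub_self, e0] at h1
      exact h1
    · obtain ⟨j, hj⟩ := inf_att fun j : ℤ => sp p m w rest j + efun p m (m * k - m * j)
      rw [hj]
      have h1 := stab_sp hs w rest k j
      have h2 := emul (k - j)
      rw [mul_sub] at h2
      omega

end Pool.Agent.Lib.MPba1bba
end

section
/-!
# MP_ba1bba_al: module LIP (the profile is 1-Lipschitz)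
-/
namespace Pool.Agent.Lib.MPba1bba

namespace LIPM

open PFFM

theorem lip_p {p m : ℕ} (hneg : ∀ k : ℤ, efun p m (-k) = efun p m k)
    (hle : ∀ k : ℤ, efun p m k ≤ p * k.natAbs) {f : ℤ → ℕ} (hf : Stab p m f) (k : ℤ) :
    f k ≤ f (k + 1) + p ∧ f (k + 1) ≤ f k + p := by
  have h1 := hle 1
  have h1' : efun p m 1 ≤ p := by simpa using h1
  have h2 : efun p m (-1) ≤ p := by rw [hneg]; exact h1'
  constructor
  · have h3 := hf k (k + 1)
    rw [show k - (k + 1) = -1 by ring] at h3
    omega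
  · have h3 := hf (k + 1) k
    rw [show k + 1 - k = 1 by ring] at h3
    omega

theorem div_mod {m : ℕ} (hm : 1 ≤ m) (k : ℤ) :
    (((k % m).toNat : ℕ) : ℤ) + m * (k / m) = k := by
  have hm' : (m : ℤ) ≠ 0 := by omega
  rw [Int.toNat_of_nonneg (Int.emod_nonneg k hm')]
  exact Int.emod_add_mul_ediv k m

theorem lip_t {p m : ℕ} (hm : 1 ≤ m) (e0 : efun p m 0 = 0)
    (hmul : ∀ k : ℤ, efun p m (m * k) ≤ 2 + efun p m k) {h : ℤ → ℕ} (hf : Stab p m h) (k : ℤ) :
    smp p m (k % m).toNat h (k / m) ≤ h k ∧ h k ≤ smp p m (k % m).toNat h (k / m) + 2 := by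
  have hk := div_mod hm k
  set r : ℕ := (k % m).toNat with hr
  constructor
  · have h1 := ic_le (fun j : ℤ => h (r + m * j)) (efun p m) (k / m) (k / m)
    rw [sub_self, e0, hk] at h1
    exact h1
  · obtain ⟨j, hj⟩ := ic_att (fun j : ℤ => h (r + m * j)) (efun p m) (k / m)
    have h1 := hf k (r + m * j)
    have h2 := hmul (k / m - j)
    rw [show k - (r + m * j) = m * (k / m - j) by rw [mul_sub]; linarith] at h1
    have h3 : smp p m r h (k / m) = h (r + m * j) + efun p m (k / m - j) := hj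
    omega

theorem lip_a_mm {p m : ℕ} (hPFF : SpecPFF) (hp : 1 ≤ p) (hm : 1 ≤ m) (i : ℕ) (w : Tr)
    (rest : List Tr) (k : ℤ) (_hi : 0 < i) (hip : i < p)
    (hl : sp p m w rest k ≤ sp p m w rest (k + 1) + p ∧
      sp p m w rest (k + 1) ≤ sp p m w rest k + p) :
    spX p m (stepA p (Tr.mm i w, rest, k)) ≤ spX p m (Tr.mm i w, rest, k) + 1 ∧
    spX p m (Tr.mm i w, rest, k) ≤ spX p m (stepA p (Tr.mm i w, rest, k)) + 1 := by
  obtain ⟨-, h2, -, -, -⟩ := hPFF p m hp hm
  have e1 : spX p m (Tr.mm i w, rest, k) =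
      min (sp p m w rest k + i) (sp p m w rest (k + 1) + (p - i)) := h2 i w rest k hip.le
  by_cases hcase : i + 1 = p
  · have e2 : spX p m (stepA p (Tr.mm i w, rest, k)) = sp p m w rest (k + 1) := by
      have : stepA p (Tr.mm i w, rest, k) = (w, rest, k + 1) := by
        simp only [stepA, if_pos hcase]
      rw [this]
      rfl
    rw [e1, e2]
    omega
  · have e2 : spX p m (stepA p (Tr.mm i w, rest, k)) =
        min (sp p m w rest k + (i + 1)) (sp p m w rest (k + 1) + (p - (i + 1))) := by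
      have : stepA p (Tr.mm i w, rest, k) = (Tr.mm (i + 1) w, rest, k) := by
        simp only [stepA, if_neg hcase]
      rw [this]
      exact h2 (i + 1) w rest k (by omega)
    rw [e1, e2]
    omega

theorem lip_a_other {p m : ℕ} (hPFF : SpecPFF) (hp : 1 ≤ p) (hm : 1 ≤ m) (c : Tr)
    (rest : List Tr) (k : ℤ)
    (hstep : stepA p (c, rest, k) = (Tr.mm 1 c, rest, k))
    (hl : sp p m c rest k ≤ sp p m c rest (k + 1) + p ∧
      sp p m c rest (k + 1) ≤ sp p m c rest k + p) :
    spX p m (stepA p (c, rest, k)) ≤ spX p m (c, rest, k) + 1 ∧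
    spX p m (c, rest, k) ≤ spX p m (stepA p (c, rest, k)) + 1 := by
  obtain ⟨-, h2, -, -, -⟩ := hPFF p m hp hm
  have e1 : spX p m (c, rest, k) = sp p m c rest k := rfl
  have e2 : spX p m (stepA p (c, rest, k)) =
      min (sp p m c rest k + 1) (sp p m c rest (k + 1) + (p - 1)) := by
    rw [hstep]
    exact h2 1 c rest k hp
  rw [e1, e2]
  omega

end LIPM

open PFFM LIPM in
theorem specLIP (hEFN : SpecEFN) (hPFF : SpecPFF) : SpecLIP := by
  intro p m hp2 hm x hx
  have hp : 1 ≤ p := by omega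
  obtain ⟨e0, esub, eneg, ele, emul, -, -, -, -⟩ := hEFN p m hp hm
  obtain ⟨h1, h2, h3, h4, h5⟩ := hPFF p m hp hm
  obtain ⟨c, rest, k⟩ := x
  have hst : ∀ (c : Tr) (rest : List Tr), Stab p m (sp p m c rest) := fun c rest =>
    stab_of_ic (h1 c rest)
  have hA : spX p m (stepA p (c, rest, k)) ≤ spX p m (c, rest, k) + 1 ∧
      spX p m (c, rest, k) ≤ spX p m (stepA p (c, rest, k)) + 1 := by
    cases c with
    | nil => exact lip_a_other hPFF hp hm _ rest k rfl (lip_p eneg ele (hst _ rest) k)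
    | ee r v w => exact lip_a_other hPFF hp hm _ rest k rfl (lip_p eneg ele (hst _ rest) k)
    | uu r w => exact lip_a_other hPFF hp hm _ rest k rfl (lip_p eneg ele (hst _ rest) k)
    | mm i w =>
      have hi : 0 < i ∧ i < p := by
        cases rest with
        | nil =>
          have h6 : okU p m (Tr.mm i w) := hx
          exact ⟨h6.1, h6.2.1⟩
        | cons c' rest =>
          have h6 : okR p m (Tr.mm i w) := hx.1
          exact ⟨h6.1, h6.2.1⟩
      exact lip_a_mm hPFF hp hm i w rest k hi.1 hi.2 (lip_p eneg ele (hst w rest) k)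
  refine ⟨hA.1, hA.2, ?_⟩
  have hlt := lip_t hm e0 emul (hst c rest) k
  have hX : spX p m (c, rest, k) = sp p m c rest k := rfl
  cases rest with
  | nil =>
    have e2 : spX p m (stepT m (c, [], k)) =
        1 + smp p m (k % m).toNat (sp p m c []) (k / m) := rfl
    rw [hX, e2]
    omega
  | cons c' rest =>
    by_cases hc : c = Tr.nil ∧ (k % m).toNat = 0
    · have e2 : stepT m (c, c' :: rest, k) = (c', rest, k / m) := by
        simp only [stepT, if_pos hc]
      have e3 : spX p m (stepT m (c, c' :: rest, k)) = sp p m c' rest (k / m) := by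
        rw [e2]; rfl
      have hk := div_mod hm k
      rw [hc.2, Nat.cast_zero, zero_add] at hk
      have e4 := h5 c' rest (k / m)
      rw [hk] at e4
      rw [hX, e3, hc.1, e4]
      omega
    · have e2 : stepT m (c, c' :: rest, k) = (Tr.ee (k % m).toNat c c', rest, k / m) := by
        simp only [stepT, if_neg hc]
      have e3 : spX p m (stepT m (c, c' :: rest, k)) =
          1 + smp p m (k % m).toNat (sp p m c (c' :: rest)) (k / m) := by
        rw [e2]
        exact h3 _ c c' rest (k / m)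
      rw [hX, e3]
      omega

end Pool.Agent.Lib.MPba1bba
end

section
/-!
# MP_ba1bba_al: module RAD (algebra of states)
-/
namespace Pool.Agent.Lib.MPba1bba

namespace RADM

variable {p m : ℕ}

theorem ee (hIC : SpecIC) (hEFN : SpecEFN) (hp : 1 ≤ p) (hm : 1 ≤ m) :
    ic (efun p m) (efun p m) = efun p m := by
  obtain ⟨hat, hle, -⟩ := hIC
  obtain ⟨h0, hsub, -⟩ := hEFN p m hp hm
  funext k
  apply le_antisymm
  · have := hle (efun p m) (efun p m) k 0
    rw [h0, sub_zero, zero_add] at this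
    exact this
  · obtain ⟨j, hj⟩ := hat (efun p m) (efun p m) k
    rw [hj]
    have := hsub j (k - j)
    rw [add_sub_cancel] at this
    exact this

theorem be0 (hIC : SpecIC) (hEFN : SpecEFN) (hp : 1 ≤ p) (hm : 1 ≤ m) :
    ic (fun j => p * j.natAbs) (efun p m) = efun p m := by
  obtain ⟨hat, hle, -⟩ := hIC
  obtain ⟨h0, hsub, hneg, hp', -⟩ := hEFN p m hp hm
  funext k
  apply le_antisymm
  · have := hle (fun j => p * j.natAbs) (efun p m) k 0
    simpa using this
  · obtain ⟨j, hj⟩ := hat (fun j => p * j.natAbs) (efun p m) k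
    rw [hj]
    have h1 := hsub j (k - j)
    rw [add_sub_cancel] at h1
    have h2 := hp' j
    omega

theorem rlz_eq (σ : Sta) :
    rlz p m σ = fun k => σ.1 + (fun k => ic (bfun p σ.2.1) (efun p m) (k - σ.2.2)) k := rfl

/-- `(rlz σ) □ g` reduces to `(b □ e) □ g`. -/
theorem rlz_ic (hIC : SpecIC) (σ : Sta) (g : ℤ → ℕ) (k : ℤ) :
    ic (rlz p m σ) g k = σ.1 + ic (ic (bfun p σ.2.1) (efun p m)) g (k - σ.2.2) := by
  obtain ⟨-, -, -, -, hc, hx⟩ := hIC
  rw [rlz_eq, hc]
  simp only
  rw [hx]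

theorem bbe (hIC : SpecIC) (hEFN : SpecEFN) (hBFN : SpecBFN) (hp : 1 ≤ p) (hm : 1 ≤ m)
    (s t : Multiset ℤ) :
    ic (ic (bfun p s) (efun p m)) (ic (bfun p t) (efun p m)) = ic (bfun p (s + t)) (efun p m) := by
  have hee := ee hIC hEFN hp hm
  obtain ⟨-, -, hcomm, hassoc, -, -⟩ := hIC
  obtain ⟨-, -, -, hadd, -, -⟩ := hBFN p
  rw [hadd, hcomm (bfun p t) (efun p m), ← hassoc, hassoc (bfun p s), hee, hassoc (bfun p s),
    hcomm (efun p m), ← hassoc]

/-- Lipschitz property of stable functions. -/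
theorem lip (hIC : SpecIC) (hEFN : SpecEFN) (hp : 1 ≤ p) (hm : 1 ≤ m) (F : ℤ → ℕ)
    (hF : ic F (efun p m) = F) (k l : ℤ) : F k ≤ F l + p * (k - l).natAbs := by
  obtain ⟨-, hle, -⟩ := hIC
  obtain ⟨-, -, -, hp', -⟩ := hEFN p m hp hm
  have h1 := hle F (efun p m) k l
  rw [hF] at h1
  have h2 := hp' (k - l)
  omega

/-- Convolution with a single slope. -/
theorem single (hIC : SpecIC) (hBFN : SpecBFN) (F : ℤ → ℕ)
    (hF : ∀ k l : ℤ, F k ≤ F l + p * (k - l).natAbs) (x n : ℤ) :
    ic (bfun p {x}) F n = min ((-x).toNat + F n) (x.toNat + F (n - 1)) := by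
  obtain ⟨hat, hle, -⟩ := hIC
  obtain ⟨-, -, -, -, -, hx⟩ := hBFN p
  apply le_antisymm
  · apply le_min
    · have h1 := hle (bfun p {x}) F n 0
      have h2 := hx x 0
      have h3 : bfun p {x} 0 ≤ (-x).toNat := by
        rw [h2]
        refine (min_le_left _ _).trans ?_
        simp
      rw [sub_zero] at h1
      omega
    · have h1 := hle (bfun p {x}) F n 1
      have h2 := hx x 1
      have h3 : bfun p {x} 1 ≤ x.toNat := by
        rw [h2]
        refine (min_le_right _ _).trans ?_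
        simp
      omega
  · obtain ⟨j, hj⟩ := hat (bfun p {x}) F n
    rw [hj, hx x j]
    have h1 := hF n (n - j)
    have h2 := hF (n - 1) (n - j)
    have e1 : (n - (n - j)).natAbs = j.natAbs := by congr 1; ring
    have e2 : (n - 1 - (n - j)).natAbs = (j - 1).natAbs := by congr 1; ring
    rw [e1] at h1
    rw [e2] at h2
    generalize p * j.natAbs = a at *
    generalize p * (j - 1).natAbs = b at *
    omega

end RADM

open RADM in
/-- Module RAD. -/
theorem specRAD (hIC : SpecIC) (hEFN : SpecEFN) (hBFN : SpecBFN) : SpecRAD := by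
  intro p m hp hm
  have hee := ee hIC hEFN hp hm
  have hbe := be0 hIC hEFN hp hm
  refine ⟨?_, ?_, ?_, ?_, ?_⟩
  · intro σ τ
    funext k
    rw [rlz_ic hIC, hIC.2.2.1, rlz_ic hIC, bbe hIC hEFN hBFN hp hm]
    obtain ⟨c, s, x⟩ := σ
    obtain ⟨d, t, y⟩ := τ
    simp only [rlz, Prod.mk_add_mk]
    rw [add_comm t s]
    have e : k - x - y = k - (x + y) := by ring
    rw [e]
    ring
  · intro σ
    funext k
    rw [rlz_ic hIC, hIC.2.2.2.1, hee]
    rfl
  · funext k
    have h0 : bfun p 0 = fun j => p * j.natAbs := funext (hBFN p).2.2.1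
    simp only [rlz, Prod.fst_zero, Prod.snd_zero, zero_add, sub_zero]
    rw [h0, hbe]
  · intro c σ
    funext k
    obtain ⟨d, t, y⟩ := σ
    simp only [rlz, Prod.mk_add_mk, zero_add]
    ring
  · intro i σ hi hip
    funext k
    obtain ⟨d, t, y⟩ := σ
    have hadd := (hBFN p).2.2.2.1
    have hassoc := hIC.2.2.2.1
    set F : ℤ → ℕ := ic (bfun p t) (efun p m) with hFdef
    have hF : ic F (efun p m) = F := by rw [hFdef, hassoc, hee]
    have h1 := single hIC hBFN F (lip hIC hEFN hp hm F hF) (2 * (i : ℤ) - p) (k - (-1 + y))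
    simp only [rlz, Prod.mk_add_mk]
    rw [hadd, hassoc, ← hFdef, h1]
    have e1 : k - (-1 + y) = k + 1 - y := by ring
    have e2 : k + 1 - y - 1 = k - y := by ring
    rw [e1, e2]
    generalize F (k + 1 - y) = A
    generalize F (k - y) = B
    omega

end Pool.Agent.Lib.MPba1bba
end

section
/-!
# Module REA: upper bound for the word length
-/
namespace Pool.Agent.Lib.MPba1bba

namespace REAM

open EQVM

variable {p m : ℕ}

/-- The number of constructors. -/
def tsz : Tr → ℕ
  | Tr.nil => 0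
  | Tr.mm _ w => 1 + tsz w
  | Tr.ee _ v w => 2 + tsz v + tsz w
  | Tr.uu _ w => 1 + tsz w

/-- The size of a list of frames. -/
def lsz : List Tr → ℕ
  | [] => 0
  | w :: rest => 1 + tsz w + lsz rest

theorem cpow_word (hW : SpecWRD) (x : ℤ) :
    IsWord p (p * m) ((gA p (p * m) ^ p) ^ x) (p * x.natAbs) := by
  have h := (hW p (p * m)).2.2.2.1 (p * x)
  rw [zpow_mul, zpow_natCast, Int.natAbs_mul, Int.natAbs_natCast] at h
  exact h

/-- Digit lists give words. -/
theorem digits_word (hW : SpecWRD) (d : List ℤ) :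
    ∃ n ≤ dcost p d, IsWord p (p * m) ((gA p (p * m) ^ p) ^ (dval m d)) n := by
  induction d with
  | nil => exact ⟨0, Nat.zero_le _, by simpa [dval] using (hW p (p * m)).1⟩
  | cons x rest ih =>
    obtain ⟨n, hn, hw⟩ := ih
    cases rest with
    | nil =>
      refine ⟨p * x.natAbs, by simp [dcost], ?_⟩
      have e : dval m [x] = x := by simp [dval]
      rw [e]; exact cpow_word hW x
    | cons y rest =>
      refine ⟨p * x.natAbs + ((1 + n) + 1), ?_, ?_⟩
      · simp only [dcost, List.map_cons, List.sum_cons, List.length_cons] at hn ⊢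
        have e : p * (x.natAbs + (y.natAbs + (List.map Int.natAbs rest).sum))
          = p * x.natAbs + p * (y.natAbs + (List.map Int.natAbs rest).sum) := by ring
        rw [e]
        omega
      · have e : dval m (x :: y :: rest) = x + m * dval m (y :: rest) := rfl
        rw [e, zpow_add]
        have hT := (hW p (p * m)).2.2.2.2.1
        have hTi := (hW p (p * m)).2.2.1 _ _ hT
        have h := (hW p (p * m)).2.1 _ _ _ _ ((hW p (p * m)).2.1 _ _ _ _ hT hw) hTi
        have e2 : gT p (p * m) * (gA p (p * m) ^ p) ^ dval m (y :: rest) * (gT p (p * m))⁻¹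
          = (gA p (p * m) ^ p) ^ (m * dval m (y :: rest)) := by
          rw [rel_of hW p m, mul_inv_cancel_right]
        rw [e2] at h
        exact (hW p (p * m)).2.1 _ _ _ _ (cpow_word hW x) h

theorem efun_word (hW : SpecWRD) (hE : SpecEFN) (hp : 1 ≤ p) (hm : 1 ≤ m) (k : ℤ) :
    ∃ n ≤ efun p m k, IsWord p (p * m) ((gA p (p * m) ^ p) ^ k) n := by
  obtain ⟨d, hd, hc⟩ := (hE p m hp hm).2.2.2.2.2.2.2.1 k
  obtain ⟨n, hn, hw⟩ := digits_word (p := p) (m := m) hW d
  rw [hd] at hw
  exact ⟨n, by rw [hc]; exact hn, hw⟩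

theorem iInf_mem (F : ℤ → ℕ) : ∃ j, (⨅ j : ℤ, F j) = F j := by
  obtain ⟨j, hj⟩ := Nat.sInf_mem (Set.range_nonempty F)
  exact ⟨j, hj.symm⟩

theorem okU_or {c : Tr} {rest : List Tr} (h : okS p m c rest) :
    (rest = [] ∧ okU p m c) ∨ okR p m c := by
  cases rest with
  | nil => exact Or.inl ⟨rfl, h⟩
  | cons c' rest => exact Or.inr h.1

theorem okS_mm {i : ℕ} {w : Tr} {rest : List Tr} (h : okS p m (Tr.mm i w) rest) :
    i < p ∧ okS p m w rest := by
  cases rest with
  | nil => exact ⟨h.2.1, h.2.2.1⟩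
  | cons c' rest =>
    obtain ⟨h1, h2, h3⟩ := h
    exact ⟨h1.2.1, h1.2.2.1, h2, h3⟩

theorem okS_ee {r : ℕ} {v w : Tr} {rest : List Tr} (h : okS p m (Tr.ee r v w) rest) :
    okS p m v (w :: rest) := by
  cases rest with
  | nil => exact ⟨h.2.1, h.2.2.2.1, h.2.2.1⟩
  | cons c' rest =>
    obtain ⟨h1, h2, h3⟩ := h
    exact ⟨h1.2.1, h1.2.2.2.1, h1.2.2.1, h2, h3⟩

theorem main (hW : SpecWRD) (hI : SpecIC) (hE : SpecEFN) (hP : SpecPFF) (hp : 2 ≤ p)
    (hm : 1 ≤ m) (N : ℕ) : ∀ (c : Tr) (rest : List Tr), tsz c + lsz rest ≤ N →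
    okS p m c rest → ∀ k : ℤ, ∃ n ≤ sp p m c rest k,
      IsWord p (p * m) (evS p m c rest * (gA p (p * m) ^ p) ^ k) n := by
  have hrel := rel_of hW p m
  have hmul := (hW p (p * m)).2.1
  have hT := (hW p (p * m)).2.2.2.2.1
  have hA := (hW p (p * m)).2.2.2.1
  obtain ⟨P1, P2, P3, P4, P5⟩ := hP p m (by omega) hm
  induction N with
  | zero =>
    intro c rest hN hok k
    cases rest with
    | cons w rest => simp [lsz] at hN
    | nil =>
      cases c with
      | nil =>
        obtain ⟨n, hn, hw⟩ := efun_word (p := p) (m := m) hW hE (by omega) hm k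
        exact ⟨n, hn, by simpa [evS, evT] using hw⟩
      | mm i w => simp [tsz] at hN
      | ee r v w => simp [tsz] at hN
      | uu r w => simp [tsz] at hN
  | succ N ih =>
    intro c rest hN hok k
    cases c with
    | nil =>
      cases rest with
      | nil =>
        obtain ⟨n, hn, hw⟩ := efun_word (p := p) (m := m) hW hE (by omega) hm k
        exact ⟨n, hn, by simpa [evS, evT] using hw⟩
      | cons w rest =>
        have e : sp p m Tr.nil (w :: rest) k
          = 1 + ⨅ j : ℤ, (sp p m w rest j + efun p m (k - m * j)) := rfl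
        obtain ⟨j, hj⟩ := iInf_mem fun j : ℤ => sp p m w rest j + efun p m (k - m * j)
        rw [e, hj]
        obtain ⟨n, hn, hw⟩ := ih w rest (by simp [tsz, lsz] at hN ⊢; omega) hok.2.2 j
        obtain ⟨n', hn', hw'⟩ := efun_word (p := p) (m := m) hW hE (by omega) hm (k - m * j)
        have hTi := (hW p (p * m)).2.2.1 _ _ hT
        refine ⟨n + 1 + n', by omega, ?_⟩
        have h := hmul _ _ _ _ (hmul _ _ _ _ hw hTi) hw'
        have e1 : evS p m Tr.nil (w :: rest) * (gA p (p * m) ^ p) ^ k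
          = evS p m w rest * (gA p (p * m) ^ p) ^ j * (gT p (p * m))⁻¹ *
            (gA p (p * m) ^ p) ^ (k - m * j) := by
          have e2 : (gA p (p * m) ^ p) ^ j * (gT p (p * m))⁻¹
            = (gT p (p * m))⁻¹ * (gA p (p * m) ^ p) ^ (m * j) := by
            rw [eq_inv_mul_iff_mul_eq, ← mul_assoc, hrel j, mul_inv_cancel_right]
          have e3 : (gA p (p * m) ^ p) ^ k = (gA p (p * m) ^ p) ^ ((m : ℤ) * j) *
              (gA p (p * m) ^ p) ^ (k - m * j) := by
            rw [← zpow_add]; congr 1; ring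
          rw [evS_cons, e3]
          simp only [evT, mul_one]
          rw [mul_assoc (evS p m w rest) ((gA p (p * m) ^ p) ^ j), e2]
          simp only [mul_assoc]
        rw [e1]
        exact h
    | mm i w =>
      obtain ⟨hi, hok'⟩ := okS_mm hok
      have hN' : tsz w + lsz rest ≤ N := by simp only [tsz] at hN; omega
      rw [P2 i w rest k hi.le, evS_mm]
      rcases min_choice (sp p m w rest k + i) (sp p m w rest (k + 1) + (p - i)) with h | h
      · rw [h]
        obtain ⟨n, hn, hw⟩ := ih w rest hN' hok' k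
        refine ⟨n + i, by omega, ?_⟩
        have h2 := hmul _ _ _ _ hw (hA i)
        rw [zpow_natCast, Int.natAbs_natCast, mul_assoc, EQVM.comm, ← mul_assoc] at h2
        exact h2
      · rw [h]
        obtain ⟨n, hn, hw⟩ := ih w rest hN' hok' (k + 1)
        refine ⟨n + (p - i), by omega, ?_⟩
        have h2 := hmul _ _ _ _ hw (hA ((i : ℤ) - p))
        have e1 : ((i : ℤ) - p).natAbs = p - i := by omega
        rw [e1] at h2
        have e2 : (gA p (p * m) ^ p) ^ (k + 1) * gA p (p * m) ^ ((i : ℤ) - p)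
          = gA p (p * m) ^ i * (gA p (p * m) ^ p) ^ k := by
          rw [← zpow_natCast, ← zpow_natCast, ← zpow_mul, ← zpow_mul, ← zpow_add, ← zpow_add]
          congr 1; ring
        rw [mul_assoc, e2, ← mul_assoc] at h2
        exact h2
    | ee r v w =>
      have hok' := okS_ee hok
      rw [P3 r v w rest k, smp]
      obtain ⟨j, hj⟩ := hI.1 (fun j => sp p m v (w :: rest) (r + m * j)) (efun p m) k
      rw [hj]
      obtain ⟨n, hn, hw⟩ := ih v (w :: rest) (by simp only [tsz, lsz] at hN ⊢; omega) hok'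
        (r + m * j)
      obtain ⟨n', hn', hw'⟩ := efun_word (p := p) (m := m) hW hE (by omega) hm (k - j)
      refine ⟨n + 1 + n', by omega, ?_⟩
      have h := hmul _ _ _ _ (hmul _ _ _ _ hw hT) hw'
      have e1 : evS p m (Tr.ee r v w) rest * (gA p (p * m) ^ p) ^ k
        = evS p m v (w :: rest) * (gA p (p * m) ^ p) ^ ((r : ℤ) + m * j) * gT p (p * m) *
          (gA p (p * m) ^ p) ^ (k - j) := by
        have e3 : (gA p (p * m) ^ p) ^ k = (gA p (p * m) ^ p) ^ j *
            (gA p (p * m) ^ p) ^ (k - j) := by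
          rw [← zpow_add]; congr 1; ring
        have e4 := tstep hrel r j
        rw [e3, evS_ee, evS_cons, mul_assoc _ ((gA p (p * m) ^ p) ^ ((r : ℤ) + m * j)), ← e4]
        simp only [mul_assoc]
      rw [e1]
      exact h
    | uu r w =>
      cases rest with
      | cons c' rest => exact absurd hok.1 (by simp [okR])
      | nil =>
        have hok' : okS p m w [] := hok.2
        rw [P4 r w k, smp]
        obtain ⟨j, hj⟩ := hI.1 (fun j => sp p m w [] (r + m * j)) (efun p m) k
        rw [hj]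
        obtain ⟨n, hn, hw⟩ := ih w [] (by simp only [tsz, lsz] at hN ⊢; omega) hok' (r + m * j)
        obtain ⟨n', hn', hw'⟩ := efun_word (p := p) (m := m) hW hE (by omega) hm (k - j)
        refine ⟨n + 1 + n', by omega, ?_⟩
        have h := hmul _ _ _ _ (hmul _ _ _ _ hw hT) hw'
        have e1 : evS p m (Tr.uu r w) [] * (gA p (p * m) ^ p) ^ k
          = evS p m w [] * (gA p (p * m) ^ p) ^ ((r : ℤ) + m * j) * gT p (p * m) *
            (gA p (p * m) ^ p) ^ (k - j) := by
          have e3 : (gA p (p * m) ^ p) ^ k = (gA p (p * m) ^ p) ^ j *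
              (gA p (p * m) ^ p) ^ (k - j) := by
            rw [← zpow_add]; congr 1; ring
          have e4 := tstep hrel r j
          rw [e3, evS_uu, mul_assoc _ ((gA p (p * m) ^ p) ^ ((r : ℤ) + m * j)), ← e4]
          simp only [mul_assoc]
        rw [e1]
        exact h

end REAM

theorem specREA (hWRD : SpecWRD) (hIC : SpecIC) (hEFN : SpecEFN) (hPFF : SpecPFF) : SpecREA :=
  fun p m hp hm x hx =>
    REAM.main hWRD hIC hEFN hPFF hp hm _ x.1 x.2.1 le_rfl hx x.2.2

end Pool.Agent.Lib.MPba1bba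
end

section
/-!
# MP_ba1bba_al: module SAM (sampling a state)
-/
namespace Pool.Agent.Lib.MPba1bba

namespace SAMM

variable {p m : ℕ}

/-- The chosen shift satisfies the structure lemma. -/
theorem shf_spec (hSTR : SpecSTR) (hp : 1 ≤ p) (hm : 1 ≤ m) (s : Multiset ℤ)
    (hs : ∀ x ∈ s, -(p : ℤ) < x ∧ x < p) (r : ℕ) (k : ℤ) :
    ic (fun j => bfun p s (r + m * j)) (fun j => p * j.natAbs) k =
      cmin p m s r + bfun p (sml p m s r) (k - shf p m s r) := by
  have h := hSTR p m hp hm s hs r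
  have h2 : shf p m s r = h.choose := by
    unfold shf
    rw [dif_pos h]
  rw [h2]
  exact h.choose_spec k

/-- Sampling `b □ e` and sampling `b` give the same function after convolution with `e`. -/
theorem claim (hIC : SpecIC) (hEFN : SpecEFN) (hBFN : SpecBFN) (hp : 1 ≤ p) (hm : 1 ≤ m)
    (s : Multiset ℤ) (ρ : ℤ) :
    ic (fun j => ic (bfun p s) (efun p m) (ρ + m * j)) (efun p m) =
      ic (fun j => bfun p s (ρ + m * j)) (efun p m) := by
  obtain ⟨hat, hle, -⟩ := hIC
  obtain ⟨h0, hsub, hneg, hp', -, -, h7, -⟩ := hEFN p m hp hm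
  obtain ⟨-, -, -, -, hlip, -⟩ := hBFN p
  funext k
  apply le_antisymm
  · obtain ⟨j, hj⟩ := hat (fun j => bfun p s (ρ + m * j)) (efun p m) k
    rw [hj]
    have h1 := hle (fun j => ic (bfun p s) (efun p m) (ρ + m * j)) (efun p m) k j
    have h2 := hle (bfun p s) (efun p m) (ρ + m * j) (ρ + m * j)
    rw [sub_self, h0] at h2
    omega
  · obtain ⟨j, hj⟩ := hat (fun j => ic (bfun p s) (efun p m) (ρ + m * j)) (efun p m) k
    rw [hj]
    obtain ⟨l, hl⟩ := hat (bfun p s) (efun p m) (ρ + m * j)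
    obtain ⟨l', hl'⟩ := h7 (ρ + m * j - l)
    have h1 := hle (fun j => bfun p s (ρ + m * j)) (efun p m) k (j - l')
    have h2 := hlip s (ρ + m * (j - l')) l
    have h3 := hsub l' (k - j)
    have e1 : ρ + m * (j - l') - l = ρ + m * j - l - m * l' := by ring
    have e2 : l' + (k - j) = k - (j - l') := by ring
    rw [e1] at h2
    rw [e2] at h3
    rw [hl]
    omega

theorem rho_add (hm : 1 ≤ m) (r : ℕ) (x : ℤ) :
    (r : ℤ) - x = (rho m r x : ℤ) + m * (((r : ℤ) - x) / m) := by
  have hm0 : (m : ℤ) ≠ 0 := by exact_mod_cast (by omega : m ≠ 0)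
  have h1 : 0 ≤ ((r : ℤ) - x) % m := Int.emod_nonneg _ hm0
  have h2 := Int.emod_add_mul_ediv ((r : ℤ) - x) m
  unfold rho
  rw [Int.toNat_of_nonneg h1]
  exact h2.symm

theorem sml_bdd (s : Multiset ℤ) (r : ℕ) : ∀ x ∈ sml p m s r, -(p : ℤ) < x ∧ x < p := by
  intro x hx
  unfold sml at hx
  rw [Multiset.mem_sum] at hx
  obtain ⟨y, hy, hxy⟩ := hx
  have h := Multiset.mem_of_mem_nsmul hxy
  rw [Multiset.mem_singleton] at h
  subst h
  exact Finset.mem_Ioo.1 hy

end SAMM

open RADM SAMM in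
/-- Module SAM. -/
theorem specSAM (hIC : SpecIC) (hEFN : SpecEFN) (hBFN : SpecBFN) (hSTR : SpecSTR) : SpecSAM := by
  intro p m hp hm r σ hσ
  refine ⟨?_, fun x hx => sml_bdd _ _ x hx⟩
  obtain ⟨c, s, x⟩ := σ
  have hs : ∀ x ∈ s, -(p : ℤ) < x ∧ x < p := hσ
  have hbe := be0 hIC hEFN hp hm
  have hcl := claim hIC hEFN hBFN hp hm s (rho m r x : ℤ)
  have hr := rho_add hm r x
  obtain ⟨-, -, -, hassoc, hc, hx⟩ := hIC
  set q : ℤ := ((r : ℤ) - x) / m with hq
  set ρ : ℕ := rho m r x with hρ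
  obtain ⟨F, hF⟩ : ∃ F : ℤ → ℕ, F = fun j => ic (bfun p s) (efun p m) ((ρ : ℤ) + m * j) :=
    ⟨_, rfl⟩
  rw [← hF] at hcl
  have h1 : (fun j : ℤ => rlz p m (c, s, x) (r + m * j)) =
      fun j : ℤ => c + (fun j : ℤ => F (j - (-q))) j := by
    funext j
    have e : (r : ℤ) + m * j - x = (ρ : ℤ) + m * (j - (-q)) := by linear_combination hr
    simp only [rlz]
    rw [e, hF]
  have h2 : ic (fun j => bfun p s ((ρ : ℤ) + m * j)) (efun p m) =
      fun k => cmin p m s ρ + ic (bfun p (sml p m s ρ)) (efun p m) (k - shf p m s ρ) := by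
    rw [← hbe, ← hassoc]
    have h3 : ic (fun j => bfun p s ((ρ : ℤ) + m * j)) (fun j => p * j.natAbs) =
        fun k => cmin p m s ρ + (fun k => bfun p (sml p m s ρ) (k - shf p m s ρ)) k :=
      funext (shf_spec hSTR hp hm s hs ρ)
    rw [h3, hc, hx, hbe]
  funext k
  unfold smp
  rw [h1, hc, hx, hcl, h2]
  simp only [rlz, sam]
  rw [← hρ, ← hq]
  have e : k - -q - shf p m s ρ = k - (shf p m s ρ - q) := by ring
  rw [e]
  ring

end Pool.Agent.Lib.MPba1bba
end
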