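import Pool.Agent.Lib.MP_ba1bba_al.Spec

namespace Pool.Agent.Lib.MPba1bba
namespace BIJx

section
variable {p m : ℕ} (hp : 2 ≤ p) (hm : 1 ≤ m) (hACT : SpecACT)

/-- the permutation `A` -/
noncomputable def PA : Equiv.Perm {x : Stk // okX p m x} where
  toFun x := ⟨stepA p x.1, ((hACT p m hp hm).1 x.1 x.2).1⟩
  invFun x := ⟨stepA' p x.1, ((hACT p m hp hm).1 x.1 x.2).2.1⟩
  left_inv x := Subtype.ext ((hACT p m hp hm).2.1 x.1 x.2).1
  right_inv x := Subtype.ext ((hACT p m hp hm).2.1 x.1 x.2).2.1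

/-- the permutation `T` -/
noncomputable def PT : Equiv.Perm {x : Stk // okX p m x} where
  toFun x := ⟨stepT m x.1, ((hACT p m hp hm).1 x.1 x.2).2.2.1⟩
  invFun x := ⟨stepT' m x.1, ((hACT p m hp hm).1 x.1 x.2).2.2.2⟩
  left_inv x := Subtype.ext ((hACT p m hp hm).2.1 x.1 x.2).2.2.1
  right_inv x := Subtype.ext ((hACT p m hp hm).2.1 x.1 x.2).2.2.2

/-- shift of the exponent -/
def sh (j : ℤ) (x : {x : Stk // okX p m x}) : {x : Stk // okX p m x} :=
  ⟨(x.1.1, x.1.2.1, x.1.2.2 + j), x.2⟩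

lemma sh_sh (i j : ℤ) (x : {x : Stk // okX p m x}) : sh i (sh j x) = sh (i + j) x := by
  apply Subtype.ext
  simp only [sh, Prod.mk.injEq, true_and]
  ring

lemma PA_iter (n : ℕ) (x : {x : Stk // okX p m x}) :
    (((PA hp hm hACT) ^ n) x).1 = (stepA p)^[n] x.1 := by
  induction n with
  | zero => simp
  | succ n ih =>
    rw [pow_succ', Function.iterate_succ_apply', ← ih]
    rfl

lemma PA_p (x : {x : Stk // okX p m x}) : ((PA hp hm hACT) ^ p) x = sh 1 x := by
  apply Subtype.ext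
  rw [PA_iter]
  obtain ⟨⟨c, rest, k⟩, hx⟩ := x
  exact (hACT p m hp hm).2.2 c rest k hx

lemma PA_pn (n : ℕ) (x : {x : Stk // okX p m x}) :
    ((PA hp hm hACT) ^ (p * n)) x = sh n x := by
  induction n with
  | zero => simp [sh]
  | succ n ih =>
    rw [Nat.mul_succ, Nat.add_comm, pow_add, Equiv.Perm.mul_apply, ih, PA_p, sh_sh]
    congr 1
    push_cast
    ring

lemma stepT_shift {m : ℕ} (hm : 1 ≤ m) (c : Tr) (rest : List Tr) (k : ℤ) :
    stepT m (c, rest, k + m) = ((stepT m (c, rest, k)).1, (stepT m (c, rest, k)).2.1,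
      (stepT m (c, rest, k)).2.2 + 1) := by
  have hm0 : (m : ℤ) ≠ 0 := by omega
  have h1 : (k + (m : ℤ)) % m = k % m := by simp
  have h2 : (k + (m : ℤ)) / m = k / m + 1 := by
    rw [Int.add_ediv_of_dvd_right (dvd_refl _), Int.ediv_self hm0]
  cases rest with
  | nil => simp only [stepT, h1, h2]
  | cons c' rest =>
    by_cases h : c = Tr.nil ∧ (k % m).toNat = 0
    · have h' : c = Tr.nil ∧ ((k + m) % m).toNat = 0 := by rw [h1]; exact h
      simp only [stepT]
      rw [if_pos h, if_pos h', h2]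
    · have h' : ¬ (c = Tr.nil ∧ ((k + m) % m).toNat = 0) := by rw [h1]; exact h
      simp only [stepT]
      rw [if_neg h, if_neg h', h1, h2]

lemma rel_perm : (PT hp hm hACT)⁻¹ * (PA hp hm hACT) ^ p * (PT hp hm hACT) =
    (PA hp hm hACT) ^ (p * m) := by
  ext1 x
  rw [PA_pn, Equiv.Perm.mul_apply, Equiv.Perm.mul_apply, PA_p, Equiv.Perm.inv_eq_iff_eq]
  apply Subtype.ext
  obtain ⟨⟨c, rest, k⟩, hx⟩ := x
  have := stepT_shift (m := m) hm c rest k
  show _ = stepT m (c, rest, k + m)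
  rw [this]
  rfl

/-- the action homomorphism -/
noncomputable def psi : BS p (p * m) →* Equiv.Perm {x : Stk // okX p m x} :=
  PresentedGroup.toGroup (f := fun b : Bool => if b then (PA hp hm hACT)⁻¹ else (PT hp hm hACT)⁻¹)
    (by
      intro r hr
      rw [Set.mem_singleton_iff] at hr
      subst hr
      simp only [relator, map_mul, map_inv, map_pow, FreeGroup.lift_apply_of]
      simp only [if_true, Bool.false_eq_true, if_false, inv_inv]
      have h := rel_perm hp hm hACT
      rw [inv_pow, inv_pow, inv_inv, ← h]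
      group)

/-- the right action -/
noncomputable def act (x : {x : Stk // okX p m x}) (g : BS p (p * m)) :
    {x : Stk // okX p m x} := (psi hp hm hACT g)⁻¹ x

lemma act_mul (x : {x : Stk // okX p m x}) (g h : BS p (p * m)) :
    act hp hm hACT x (g * h) = act hp hm hACT (act hp hm hACT x g) h := by
  simp only [act, map_mul, mul_inv_rev, Equiv.Perm.mul_apply]

lemma act_one (x : {x : Stk // okX p m x}) : act hp hm hACT x 1 = x := by
  simp [act]

lemma act_A (x : {x : Stk // okX p m x}) : act hp hm hACT x (gA p (p * m)) = PA hp hm hACT x := by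
  have : psi hp hm hACT (gA p (p * m)) = (PA hp hm hACT)⁻¹ := by
    unfold psi gA
    rw [PresentedGroup.toGroup.of]
    rfl
  rw [act, this, inv_inv]

lemma act_T (x : {x : Stk // okX p m x}) : act hp hm hACT x (gT p (p * m)) = PT hp hm hACT x := by
  have : psi hp hm hACT (gT p (p * m)) = (PT hp hm hACT)⁻¹ := by
    unfold psi gT
    rw [PresentedGroup.toGroup.of]
    rfl
  rw [act, this, inv_inv]

lemma act_inv (x y : {x : Stk // okX p m x}) (g : BS p (p * m))
    (h : act hp hm hACT x g = y) : act hp hm hACT y g⁻¹ = x := by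
  rw [← h, ← act_mul, mul_inv_cancel, act_one]

lemma act_T' (x : {x : Stk // okX p m x}) :
    act hp hm hACT x (gT p (p * m))⁻¹ = (PT hp hm hACT).symm x := by
  apply act_inv
  rw [act_T]
  simp

lemma act_Ai (x : {x : Stk // okX p m x}) (i : ℕ) :
    (act hp hm hACT x (gA p (p * m) ^ i)).1 = (stepA p)^[i] x.1 := by
  induction i with
  | zero => simp [act_one]
  | succ i ih =>
    rw [pow_succ, act_mul, act_A, Function.iterate_succ_apply', ← ih]
    rfl

lemma act_cn (x : {x : Stk // okX p m x}) (n : ℕ) :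
    act hp hm hACT x ((gA p (p * m) ^ p) ^ n) = sh n x := by
  induction n with
  | zero => simp [act_one, sh]
  | succ n ih =>
    rw [pow_succ, act_mul, ih]
    have : ∀ y : {x : Stk // okX p m x}, act hp hm hACT y (gA p (p * m) ^ p) = sh 1 y := by
      intro y
      apply Subtype.ext
      rw [act_Ai]
      obtain ⟨⟨c, rest, k⟩, hy⟩ := y
      exact (hACT p m hp hm).2.2 c rest k hy
    rw [this, sh_sh]
    congr 1
    push_cast
    ring

lemma act_cz (x : {x : Stk // okX p m x}) (k : ℤ) :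
    act hp hm hACT x ((gA p (p * m) ^ p) ^ k) = sh k x := by
  obtain ⟨n, rfl | rfl⟩ := k.eq_nat_or_neg
  · rw [zpow_natCast, act_cn]
  · rw [zpow_neg, zpow_natCast]
    apply act_inv
    rw [act_cn, sh_sh]
    simp [sh]

/-- one step of a computation -/
def R (x : Stk) (g : BS p (p * m)) (y : Stk) : Prop :=
  ∀ hx : okX p m x, ∃ hy : okX p m y, act hp hm hACT ⟨x, hx⟩ g = ⟨y, hy⟩

lemma R_trans {x y z : Stk} {g h : BS p (p * m)} (h1 : R hp hm hACT x g y)
    (h2 : R hp hm hACT y h z) : R hp hm hACT x (g * h) z := by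
  intro hx
  obtain ⟨hy, h1⟩ := h1 hx
  obtain ⟨hz, h2⟩ := h2 hy
  exact ⟨hz, by rw [act_mul, h1, h2]⟩

lemma R_Ai (i : ℕ) (w : Tr) (rest : List Tr) (hi : 0 < i) (hip : i < p) (hw : ¬ endM w) :
    R hp hm hACT (w, rest, 0) (gA p (p * m) ^ i) (Tr.mm i w, rest, 0) := by
  have key : ∀ i : ℕ, 0 < i → i < p → (stepA p)^[i] (w, rest, 0) = (Tr.mm i w, rest, 0) := by
    intro i
    induction i with
    | zero => intro h; omega
    | succ i ih =>
      intro _ h
      rcases Nat.eq_zero_or_pos i with rfl | h0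
      · cases w <;> simp_all [stepA, endM]
      · rw [Function.iterate_succ_apply', ih h0 (by omega)]
        simp only [stepA]
        rw [if_neg (by omega)]
  intro hx
  have h1 := act_Ai hp hm hACT ⟨(w, rest, 0), hx⟩ i
  rw [key i hi hip] at h1
  have h2 := (act hp hm hACT ⟨(w, rest, 0), hx⟩ (gA p (p * m) ^ i)).2
  rw [h1] at h2
  exact ⟨h2, Subtype.ext h1⟩

lemma R_T (x : Stk) : R hp hm hACT x (gT p (p * m)) (stepT m x) := by
  intro hx
  exact ⟨((hACT p m hp hm).1 x hx).2.2.1, act_T hp hm hACT ⟨x, hx⟩⟩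

lemma R_T' (x : Stk) : R hp hm hACT x (gT p (p * m))⁻¹ (stepT' m x) := by
  intro hx
  exact ⟨((hACT p m hp hm).1 x hx).2.2.2, act_T' hp hm hACT ⟨x, hx⟩⟩

lemma R_cn (c : Tr) (rest : List Tr) (r : ℕ) :
    R hp hm hACT (c, rest, 0) ((gA p (p * m) ^ p) ^ r) (c, rest, r) := by
  intro hx
  refine ⟨hx, ?_⟩
  rw [act_cn]
  simp [sh]

lemma R_down (w : Tr) (rest : List Tr) (hw : w = Tr.nil ∨ endM w) :
    R hp hm hACT (w, rest, 0) (gT p (p * m))⁻¹ (Tr.nil, w :: rest, 0) := by
  have := R_T' hp hm hACT (w, rest, 0)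
  have e : stepT' m (w, rest, 0) = (Tr.nil, w :: rest, 0) := by
    cases w <;> simp_all [stepT', endM]
  rwa [e] at this

lemma mod_eq (r : ℕ) (hr : r < m) : (((r : ℤ)) % m).toNat = r ∧ ((r : ℤ)) / m = 0 := by
  have h1 : ((r : ℤ)) % m = r := Int.emod_eq_of_lt (by omega) (by omega)
  have h2 : ((r : ℤ)) / m = 0 := Int.ediv_eq_zero_of_lt (by omega) (by omega)
  rw [h1, h2]
  simp

lemma R_up (v w : Tr) (rest : List Tr) (r : ℕ) (hr : r < m) (h : ¬ (v = Tr.nil ∧ r = 0)) :
    R hp hm hACT (v, w :: rest, r) (gT p (p * m)) (Tr.ee r v w, rest, 0) := by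
  have := R_T hp hm hACT (v, w :: rest, r)
  have e : stepT m (v, w :: rest, (r : ℤ)) = (Tr.ee r v w, rest, 0) := by
    simp only [stepT]
    rw [(mod_eq r hr).1, (mod_eq r hr).2, if_neg h]
  rwa [e] at this

lemma R_upU (w : Tr) (r : ℕ) (hr : r < m) :
    R hp hm hACT (w, [], r) (gT p (p * m)) (Tr.uu r w, [], 0) := by
  have := R_T hp hm hACT (w, [], r)
  have e : stepT m (w, [], (r : ℤ)) = (Tr.uu r w, [], 0) := by
    simp only [stepT]
    rw [(mod_eq r hr).1, (mod_eq r hr).2]
  rwa [e] at this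

lemma R_ee (r : ℕ) (v w : Tr) (rest : List Tr) (hr : r < m) (hw : w = Tr.nil ∨ endM w)
    (h : ¬ (v = Tr.nil ∧ r = 0)) (x : Stk) (h1 : R hp hm hACT x (evT p m w) (w, rest, 0))
    (h2 : R hp hm hACT (Tr.nil, w :: rest, 0) (evT p m v) (v, w :: rest, 0)) :
    R hp hm hACT x (evT p m (Tr.ee r v w)) (Tr.ee r v w, rest, 0) := by
  simp only [evT]
  exact R_trans hp hm hACT (R_trans hp hm hACT (R_trans hp hm hACT (R_trans hp hm hACT h1
    (R_down hp hm hACT w rest hw)) h2) (R_cn hp hm hACT v (w :: rest) r))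
    (R_up hp hm hACT v w rest r hr h)

lemma R_R : ∀ v : Tr, okR p m v → ∀ rest : List Tr,
    R hp hm hACT (Tr.nil, rest, 0) (evT p m v) (v, rest, 0) := by
  intro v
  induction v with
  | nil =>
    intro _ rest hx
    exact ⟨hx, by rw [evT, act_one]⟩
  | mm i w ih =>
    intro hv rest
    simp only [okR] at hv
    simp only [evT]
    exact R_trans hp hm hACT (ih hv.2.2.1 rest) (R_Ai hp hm hACT i w rest hv.1 hv.2.1 hv.2.2.2)
  | ee r v w ihv ihw =>
    intro hv rest
    simp only [okR] at hv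
    exact R_ee hp hm hACT r v w rest hv.1 hv.2.2.2.1 hv.2.2.2.2 _ (ihw hv.2.2.1 rest)
      (ihv hv.2.1 (w :: rest))
  | uu r w ih =>
    intro hv
    simp only [okR] at hv

lemma R_U : ∀ v : Tr, okU p m v →
    R hp hm hACT (Tr.nil, [], 0) (evT p m v) (v, [], 0) := by
  intro v
  induction v with
  | nil =>
    intro _ hx
    exact ⟨hx, by rw [evT, act_one]⟩
  | mm i w ih =>
    intro hv
    simp only [okU] at hv
    simp only [evT]
    exact R_trans hp hm hACT (ih hv.2.2.1) (R_Ai hp hm hACT i w [] hv.1 hv.2.1 hv.2.2.2)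
  | ee r v w ihv ihw =>
    intro hv
    simp only [okU] at hv
    exact R_ee hp hm hACT r v w [] hv.1 hv.2.2.2.1 hv.2.2.2.2 _ (ihw hv.2.2.1)
      (R_R hp hm hACT v hv.2.1 [w])
  | uu r w ih =>
    intro hv
    simp only [okU] at hv
    simp only [evT]
    exact R_trans hp hm hACT (R_trans hp hm hACT (ih hv.2) (R_cn hp hm hACT w [] r))
      (R_upU hp hm hACT w r hv.1)

lemma R_S : ∀ (rest : List Tr) (c : Tr), okS p m c rest →
    R hp hm hACT (Tr.nil, [], 0) (evS p m c rest) (c, rest, 0) := by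
  intro rest
  induction rest with
  | nil =>
    intro c hc
    exact R_U hp hm hACT c hc
  | cons c' rest ih =>
    intro c hc
    simp only [okS] at hc
    simp only [evS]
    exact R_trans hp hm hACT (R_trans hp hm hACT (ih c' hc.2.2)
      (R_down hp hm hACT c' rest hc.2.1)) (R_R hp hm hACT c hc.1 (c' :: rest))

end

end BIJx

open BIJx in
theorem specBIJx (hWRD : SpecWRD) (hACT : SpecACT) (hEQV : SpecEQV) : SpecBIJ := by
  intro p m hp hm
  have h0 : okX p m (Tr.nil, [], 0) := by simp [okX, okS, okU]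
  have hsA : ∀ x : {x : Stk // okX p m x},
      evX p m (act hp hm hACT x (gA p (p * m))).1 = evX p m x.1 * gA p (p * m) := by
    intro x
    rw [act_A]
    exact (hEQV p m hp hm x.1 x.2).1
  have hsT : ∀ x : {x : Stk // okX p m x},
      evX p m (act hp hm hACT x (gT p (p * m))).1 = evX p m x.1 * gT p (p * m) := by
    intro x
    rw [act_T]
    exact (hEQV p m hp hm x.1 x.2).2
  have hinv : ∀ s : BS p (p * m), (∀ x : {x : Stk // okX p m x},
      evX p m (act hp hm hACT x s).1 = evX p m x.1 * s) → ∀ x : {x : Stk // okX p m x},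
      evX p m (act hp hm hACT x s⁻¹).1 = evX p m x.1 * s⁻¹ := by
    intro s hs x
    have h := hs (act hp hm hACT x s⁻¹)
    rw [← act_mul, inv_mul_cancel, act_one] at h
    rw [h]
    group
  have hall : ∀ l : List (BS p (p * m)), (∀ s ∈ l, s = gA p (p * m) ∨ s = (gA p (p * m))⁻¹ ∨
      s = gT p (p * m) ∨ s = (gT p (p * m))⁻¹) → ∀ x : {x : Stk // okX p m x},
      evX p m (act hp hm hACT x l.prod).1 = evX p m x.1 * l.prod := by
    intro l
    induction l with
    | nil => intro _ x; simp [act_one]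
    | cons s l ih =>
      intro hl x
      have hs := hl s (by simp)
      rw [List.prod_cons, act_mul, ih (fun s' hs' => hl s' (by simp [hs'])), ← mul_assoc]
      congr 1
      rcases hs with rfl | rfl | rfl | rfl
      · exact hsA x
      · exact hinv _ hsA x
      · exact hsT x
      · exact hinv _ hsT x
  constructor
  · have key : ∀ x : {x : Stk // okX p m x},
        act hp hm hACT ⟨(Tr.nil, [], 0), h0⟩ (evX p m x.1) = x := by
      rintro ⟨⟨c, rest, k⟩, hx⟩
      obtain ⟨hy, h⟩ := R_S hp hm hACT rest c hx h0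
      simp only [evX]
      rw [act_mul, h, act_cz]
      simp [sh]
    intro x y hxy
    rw [← key x, ← key y]
    exact congrArg _ hxy
  · intro g
    obtain ⟨n, l, _, hl, rfl⟩ := (hWRD p (p * m)).2.2.2.2.2.1 g
    refine ⟨act hp hm hACT ⟨(Tr.nil, [], 0), h0⟩ l.prod, ?_⟩
    show evX p m (act hp hm hACT ⟨(Tr.nil, [], 0), h0⟩ l.prod).1 = l.prod
    rw [hall l hl]
    simp [evX, evS, evT]

end Pool.Agent.Lib.MPba1bba
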