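import Mathlib

/-!
# MP_ba1bba_al: growth series of the Baumslag-Solitar groups B(p, p m): definitions

The definitions used by the final theorem come first (sections 1-4), the auxiliary ones used only in
the proof after that (section 5).
-/

namespace Pool.Agent.Lib.MPba1bba



/-! ## 1. The group and its spheres -/

/-- The relator `t a^p t⁻¹ (a^q)⁻¹`; the generator `true` is `a`, the generator `false` is `t`. -/
def relator (p q : ℕ) : FreeGroup Bool :=
  FreeGroup.of false * (FreeGroup.of true) ^ p * (FreeGroup.of false)⁻¹ *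
    ((FreeGroup.of true) ^ q)⁻¹

/-- The Baumslag-Solitar group `B(p,q) = ⟨a, t | t a^p t⁻¹ = a^q⟩`. -/
abbrev BS (p q : ℕ) : Type := PresentedGroup ({relator p q} : Set (FreeGroup Bool))

/-- The generator `a`. -/
def gA (p q : ℕ) : BS p q := PresentedGroup.of true

/-- The generator `t`. -/
def gT (p q : ℕ) : BS p q := PresentedGroup.of false

/-- `g` is a product of `n` elements of `{a, a⁻¹, t, t⁻¹}`. -/
def IsWord (p q : ℕ) (g : BS p q) (n : ℕ) : Prop :=
  ∃ l : List (BS p q), l.length = n ∧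
    (∀ x ∈ l, x = gA p q ∨ x = (gA p q)⁻¹ ∨ x = gT p q ∨ x = (gT p q)⁻¹) ∧ l.prod = g

/-- The word length `|g|`. -/
noncomputable def wlen (p q : ℕ) (g : BS p q) : ℕ := sInf {n | IsWord p q g n}

/-- The number `σ(n)` of elements of length `n`. -/
noncomputable def sphere (p q n : ℕ) : ℕ := Nat.card {g : BS p q // wlen p q g = n}

/-! ## 2. Convex profiles and the length function of the horocyclic subgroup -/

/-- Sum of the positive parts. -/
def sumPos (A : Multiset ℤ) : ℕ := (A.map Int.toNat).sum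

/-- Sum of the negative parts. -/
def sumNeg (A : Multiset ℤ) : ℕ := (A.map fun x => (-x).toNat).sum

/-- The convex function `b_s : ℤ → ℕ` with minimum `0` attached to a finite multiset `s` of slopes:
`b_s(k) = min over A + B = s of (sum of x⁺ over A) + (sum of x⁻ over B) + p |k - card A|`.
If all slopes are in `(-p,p)`, it decreases with slope `-p` up to `0`, then has the increments
`s` in increasing order, and then increases with slope `p`. -/
noncomputable def bfun (p : ℕ) (s : Multiset ℤ) (k : ℤ) : ℕ :=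
  sInf {n : ℕ | ∃ A B : Multiset ℤ, A + B = s ∧
    n = sumPos A + sumNeg B + p * (k - (A.card : ℤ)).natAbs}

/-- The integer with digits `d` (lowest digit first) in base `m`. -/
def dval (m : ℕ) (d : List ℤ) : ℤ := d.foldr (fun x y => x + m * y) 0

/-- The cost `p (sum of |d_i|) + 2 (number of digits - 1)` of a digit list. -/
def dcost (p : ℕ) (d : List ℤ) : ℕ := p * (d.map Int.natAbs).sum + 2 * (d.length - 1)

/-- `e(k)` is the least cost of a digit list of value `k`; it is the word length of `a^(p k)` in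
`B(p, p m)`. -/
noncomputable def efun (p m : ℕ) (k : ℤ) : ℕ :=
  sInf {n | ∃ d : List ℤ, dval m d = k ∧ n = dcost p d}

/-- Infimal convolution. -/
noncomputable def ic (f g : ℤ → ℕ) (k : ℤ) : ℕ := ⨅ j : ℤ, (f j + g (k - j))

/-- The minimum of `b_s` on the residue class of `r` modulo `m`. -/
noncomputable def cmin (p m : ℕ) (s : Multiset ℤ) (r : ℕ) : ℕ :=
  ⨅ j : ℤ, bfun p s (r + m * j)

/-- The multiset of the increments in `(-p,p)` of `b_s` on the residue class of `r` modulo `m`. -/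
noncomputable def sml (p m : ℕ) (s : Multiset ℤ) (r : ℕ) : Multiset ℤ :=
  ∑ x ∈ Finset.Ioo (-(p : ℤ)) (p : ℤ),
    {j : ℤ | (bfun p s (r + m * (j + 1)) : ℤ) - bfun p s (r + m * j) = x}.ncard •
      ({x} : Multiset ℤ)

/-! ## 3. The ring of series and the section operator -/

/-- The ring `ℤ[Multiset ℤ]`, i.e. polynomials in commuting variables `u_x`, `x : ℤ`, a multiset
`s` being the monomial `∏_{x ∈ s} u_x`. -/
abbrev SR : Type := AddMonoidAlgebra ℤ (Multiset ℤ)

/-- Formal power series in `z` over `SR`. -/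
abbrev Ser : Type := PowerSeries SR

/-- The image of the monomial `s` under the section operator:
`Λ[s] = ∑_{r < m} z^{min of b_s on r + mℤ} [increments in (-p,p) of b_s on r + mℤ]`. -/
noncomputable def lamB (p m : ℕ) (s : Multiset ℤ) : Ser :=
  ∑ r ∈ Finset.range m,
    PowerSeries.monomial (cmin p m s r) (AddMonoidAlgebra.single (sml p m s r) (1 : ℤ))

/-- The section operator `Λ`, extended `ℤ⟦z⟧`-linearly. -/
noncomputable def lam (p m : ℕ) (F : Ser) : Ser :=
  PowerSeries.mk fun n => ∑ ij ∈ Finset.HasAntidiagonal.antidiagonal n,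
    ((PowerSeries.coeff ij.1 F).coeff.sum fun s a => a • PowerSeries.coeff ij.2 (lamB p m s))

/-- The letter series `Y = ∑_{0 < i < p} z^{min(i, p-i)} [{2 i - p}]`. -/
noncomputable def serY (p : ℕ) : Ser :=
  ∑ i ∈ Finset.Ioo 0 p,
    PowerSeries.monomial (min i (p - i))
      (AddMonoidAlgebra.single ({2 * (i : ℤ) - p} : Multiset ℤ) (1 : ℤ))

/-- The coefficients of `P_s(z) = ∑_{k ∈ ℤ} z^{(b_s □ e)(k)}`. -/
noncomputable def pcoef (p m : ℕ) (s : Multiset ℤ) (n : ℕ) : ℕ :=
  Nat.card {k : ℤ // ic (bfun p s) (efun p m) k = n}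

/-- `Ψ`: the `ℤ⟦z⟧`-linear map with `Ψ[s] = P_s(z)`. -/
noncomputable def psi (p m : ℕ) (F : Ser) : PowerSeries ℤ :=
  PowerSeries.mk fun n => ∑ ij ∈ Finset.HasAntidiagonal.antidiagonal n,
    ((PowerSeries.coeff ij.1 F).coeff.sum fun s a => a * (pcoef p m s ij.2 : ℤ))

/-! ## 4. The system -/

/-- The system of functional equations for the three series `Q`, `E`, `H`. -/
def Sys (p m : ℕ) (Q E H : Ser) : Prop :=
  Q = serY p + serY p * E * Q ∧
  E = PowerSeries.X ^ 2 * (lam p m (1 + E + Q * (1 + E) ^ 2) - 1) ∧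
  H = PowerSeries.X * lam p m ((1 + Q * (1 + E)) * (1 + E + H))

/-- The main theorem. -/
def MainStatement : Prop :=
  ∀ p m : ℕ, 2 ≤ p → 2 ≤ m →
    ∃ Q E H : Ser, Sys p m Q E H ∧
      (∀ Q' E' H' : Ser, Sys p m Q' E' H' → Q' = Q ∧ E' = E ∧ H' = H) ∧
      ∀ n : ℕ, (sphere p (p * m) n : ℤ) =
        PowerSeries.coeff n (psi p m (1 + E + 2 * H + Q * (1 + E + H) ^ 2))

/-! ## 5. Auxiliary definitions (proof only) -/

/-- Parse trees. `mm i w`: the word `w` followed by `a^i`; `ee r v w`: the word `w` followed by the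
block `t⁻¹ v c^r t` (`c = a^p`); `uu r w`: the word `w` followed by `c^r t`, reaching a new maximal
level. -/
inductive Tr : Type
  | nil : Tr
  | mm (i : ℕ) (w : Tr) : Tr
  | ee (r : ℕ) (v w : Tr) : Tr
  | uu (r : ℕ) (w : Tr) : Tr

/-- The last constructor is `mm`. -/
def endM : Tr → Prop
  | Tr.mm _ _ => True
  | _ => False

/-- Reduced words with all levels `≤ 0` and final level `0`. -/
def okR (p m : ℕ) : Tr → Prop
  | Tr.nil => True
  | Tr.mm i w => 0 < i ∧ i < p ∧ okR p m w ∧ ¬ endM w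
  | Tr.ee r v w => r < m ∧ okR p m v ∧ okR p m w ∧ (w = Tr.nil ∨ endM w) ∧ ¬ (v = Tr.nil ∧ r = 0)
  | Tr.uu _ _ => False

/-- Reduced words whose final level is their maximal level. -/
def okU (p m : ℕ) : Tr → Prop
  | Tr.nil => True
  | Tr.mm i w => 0 < i ∧ i < p ∧ okU p m w ∧ ¬ endM w
  | Tr.ee r v w => r < m ∧ okR p m v ∧ okU p m w ∧ (w = Tr.nil ∨ endM w) ∧ ¬ (v = Tr.nil ∧ r = 0)
  | Tr.uu r w => r < m ∧ okU p m w

/-- Stacks: `(current frame, frames above it, exponent of c)`. The frames are separated by unmatched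
letters `t⁻¹`; the last frame of the list is the first part of the word. -/
abbrev Stk : Type := Tr × List Tr × ℤ

/-- Reduced stacks. -/
def okS (p m : ℕ) : Tr → List Tr → Prop
  | c, [] => okU p m c
  | c, c' :: rest => okR p m c ∧ (c' = Tr.nil ∨ endM c') ∧ okS p m c' rest

/-- Reduced stacks with exponent. -/
def okX (p m : ℕ) (x : Stk) : Prop := okS p m x.1 x.2.1

/-- Right multiplication by `a`. -/
def stepA (p : ℕ) : Stk → Stk
  | (Tr.mm i w, rest, k) => if i + 1 = p then (w, rest, k + 1) else (Tr.mm (i + 1) w, rest, k)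
  | (c, rest, k) => (Tr.mm 1 c, rest, k)

/-- Right multiplication by `a⁻¹`. -/
def stepA' (p : ℕ) : Stk → Stk
  | (Tr.mm i w, rest, k) => if i = 1 then (w, rest, k) else (Tr.mm (i - 1) w, rest, k)
  | (c, rest, k) => (Tr.mm (p - 1) c, rest, k - 1)

open Classical in
/-- Right multiplication by `t`. -/
noncomputable def stepT (m : ℕ) : Stk → Stk
  | (c, [], k) => (Tr.uu (k % m).toNat c, [], k / m)
  | (c, c' :: rest, k) =>
      if c = Tr.nil ∧ (k % m).toNat = 0 then (c', rest, k / m)
      else (Tr.ee (k % m).toNat c c', rest, k / m)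

/-- Right multiplication by `t⁻¹`. -/
def stepT' (m : ℕ) : Stk → Stk
  | (Tr.ee r v w, rest, k) => (v, w :: rest, r + m * k)
  | (Tr.uu r w, rest, k) => (w, rest, r + m * k)
  | (c, rest, k) => (Tr.nil, c :: rest, m * k)

/-- Evaluation of a tree in the group `B(p, p m)`. -/
def evT (p m : ℕ) : Tr → BS p (p * m)
  | Tr.nil => 1
  | Tr.mm i w => evT p m w * gA p (p * m) ^ i
  | Tr.ee r v w =>
      evT p m w * (gT p (p * m))⁻¹ * evT p m v * (gA p (p * m) ^ p) ^ r * gT p (p * m)
  | Tr.uu r w => evT p m w * (gA p (p * m) ^ p) ^ r * gT p (p * m)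

/-- Evaluation of a stack of frames. -/
def evS (p m : ℕ) : Tr → List Tr → BS p (p * m)
  | c, [] => evT p m c
  | c, c' :: rest => evS p m c' rest * (gT p (p * m))⁻¹ * evT p m c

/-- Evaluation of a stack with exponent. -/
def evX (p m : ℕ) (x : Stk) : BS p (p * m) := evS p m x.1 x.2.1 * (gA p (p * m) ^ p) ^ x.2.2

/-- The sampling operator `h ↦ (h(r + m ·)) □ e`. -/
noncomputable def smp (p m r : ℕ) (h : ℤ → ℕ) : ℤ → ℕ :=
  ic (fun j => h (r + m * j)) (efun p m)

/-- The profile `k ↦ |g_w c^k|` of a tree `w`. -/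
noncomputable def pf (p m : ℕ) : Tr → ℤ → ℕ
  | Tr.nil => efun p m
  | Tr.mm i w => fun k => min (pf p m w k + i) (pf p m w (k + 1) + (p - i))
  | Tr.ee r v w => fun k => 2 + ic (pf p m w) (smp p m r (pf p m v)) k
  | Tr.uu r w => fun k => 1 + smp p m r (pf p m w) k

/-- The profile of a stack. -/
noncomputable def sp (p m : ℕ) : Tr → List Tr → ℤ → ℕ
  | c, [] => pf p m c
  | c, c' :: rest => fun k => 1 + ⨅ j : ℤ, (sp p m c' rest j + pf p m c (k - m * j))

/-- The length function on stacks. -/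
noncomputable def spX (p m : ℕ) (x : Stk) : ℕ := sp p m x.1 x.2.1 x.2.2

/-- Tails: list of pairs (frame, digit), the highest frame first. -/
def okTl (p m : ℕ) : List (Tr × ℕ) → Prop
  | [] => True
  | (w, r) :: tl => r < m ∧ okR p m w ∧ (tl = [] ∨ w = Tr.nil ∨ endM w) ∧ okTl p m tl

/-- Valid triples (first frame, tail, exponent). -/
def okF (p m : ℕ) (y : Tr × List (Tr × ℕ) × ℤ) : Prop :=
  okU p m y.1 ∧ okTl p m y.2.1 ∧ (y.2.1 = [] ∨ y.1 = Tr.nil ∨ endM y.1)

/-- The stack of a triple. -/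
def th (m : ℕ) : Tr → List Tr → List (Tr × ℕ) → ℤ → Stk
  | c, rest, [], k => (c, rest, k)
  | c, rest, (w, r) :: tl, k => th m w (c :: rest) tl (r + m * k)

/-- The profile of a tail. -/
noncomputable def gt (p m : ℕ) : List (Tr × ℕ) → ℤ → ℕ
  | [] => efun p m
  | (w, r) :: tl => fun k => 1 + smp p m r (ic (pf p m w) (gt p m tl)) k

/-- States `(c, s, x)`, standing for the function `c + (b_s □ e)(· - x)`. -/
abbrev Sta : Type := ℕ × Multiset ℤ × ℤ

/-- The function of a state. -/
noncomputable def rlz (p m : ℕ) (σ : Sta) (k : ℤ) : ℕ :=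
  σ.1 + ic (bfun p σ.2.1) (efun p m) (k - σ.2.2)

open Classical in
/-- The shift in the structure lemma (chosen). -/
noncomputable def shf (p m : ℕ) (s : Multiset ℤ) (r : ℕ) : ℤ :=
  if h : ∃ y : ℤ, ∀ k : ℤ, ic (fun j => bfun p s (r + m * j)) (fun j => p * j.natAbs) k =
    cmin p m s r + bfun p (sml p m s r) (k - y) then h.choose else 0

/-- The residue of `r - x` modulo `m`. -/
def rho (m : ℕ) (r : ℕ) (x : ℤ) : ℕ := (((r : ℤ) - x) % m).toNat

/-- Sampling a state. -/
noncomputable def sam (p m r : ℕ) (σ : Sta) : Sta :=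
  (σ.1 + cmin p m σ.2.1 (rho m r σ.2.2), sml p m σ.2.1 (rho m r σ.2.2),
    shf p m σ.2.1 (rho m r σ.2.2) - ((r : ℤ) - σ.2.2) / m)

/-- The state of a tree. -/
noncomputable def stt (p m : ℕ) : Tr → Sta
  | Tr.nil => 0
  | Tr.mm i w => (min i (p - i), {2 * (i : ℤ) - p}, -1) + stt p m w
  | Tr.ee r v w => (2, 0, 0) + sam p m r (stt p m v) + stt p m w
  | Tr.uu r w => (1, 0, 0) + sam p m r (stt p m w)

/-- The state of a tail. -/
noncomputable def ts (p m : ℕ) : List (Tr × ℕ) → Sta
  | [] => 0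
  | (w, r) :: tl => (1, 0, 0) + sam p m r (stt p m w + ts p m tl)

/-- Finite fibres. -/
def FF {α : Type} (c : α → ℕ) : Prop := ∀ n, {x : α | c x ≤ n}.Finite

/-- The weight enumerator of a type with weight `c` and state `s`. -/
noncomputable def gf {α : Type} (c : α → ℕ) (s : α → Multiset ℤ) : Ser :=
  PowerSeries.mk fun n => ∑ᶠ x : {x : α // c x = n}, AddMonoidAlgebra.single (s x.1) (1 : ℤ)

/-- The weight enumerator of a family of states. -/
noncomputable def gfW {α : Type} (σ : α → Sta) : Ser := gf (fun x => (σ x).1) (fun x => (σ x).2.1)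

/-- All slopes of the state are in `(-p,p)`. -/
def bdd (p : ℕ) (σ : Sta) : Prop := ∀ x ∈ σ.2.1, -(p : ℤ) < x ∧ x < p

/-- The last constructor is `uu`. -/
def endU : Tr → Prop
  | Tr.uu _ _ => True
  | _ => False

/-- Words of `okR` ending in a letter `a^i`. -/
abbrev TA (p m : ℕ) : Type := {w : Tr // okR p m w ∧ endM w}
/-- All words of `okR`. -/
abbrev TR (p m : ℕ) : Type := {w : Tr // okR p m w}
/-- Blocks `t⁻¹ v c^r t`. -/
abbrev TE (p m : ℕ) : Type :=
  {x : Tr × Fin m // okR p m x.1 ∧ ¬ (x.1 = Tr.nil ∧ (x.2 : ℕ) = 0)}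
/-- Words of `okU` ending in a letter `a^i`. -/
abbrev TB (p m : ℕ) : Type := {w : Tr // okU p m w ∧ endM w}
/-- All words of `okU`. -/
abbrev TU (p m : ℕ) : Type := {w : Tr // okU p m w}
/-- Words of `okU` ending at a new maximal level. -/
abbrev TH (p m : ℕ) : Type := {w : Tr // okU p m w ∧ endU w}
/-- Nonempty tails. -/
abbrev TK (p m : ℕ) : Type := {tl : List (Tr × ℕ) // okTl p m tl ∧ tl ≠ []}
/-- Pairs (first frame, tail). -/
abbrev TF (p m : ℕ) : Type :=
  {y : Tr × List (Tr × ℕ) // okU p m y.1 ∧ okTl p m y.2 ∧ (y.2 = [] ∨ y.1 = Tr.nil ∨ endM y.1)}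

/-- Series of `TA`. -/
noncomputable def sA (p m : ℕ) : Ser := gfW fun w : TA p m => stt p m w.1
/-- Series of `TR`. -/
noncomputable def sR (p m : ℕ) : Ser := gfW fun w : TR p m => stt p m w.1
/-- State of a block. -/
noncomputable def stE (p m : ℕ) (x : Tr × Fin m) : Sta :=
  ((2, 0, 0) : Sta) + sam p m x.2 (stt p m x.1)
/-- Series of `TE`. -/
noncomputable def sE (p m : ℕ) : Ser := gfW fun x : TE p m => stE p m x.1
/-- Series of `TB`. -/
noncomputable def sB (p m : ℕ) : Ser := gfW fun w : TB p m => stt p m w.1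
/-- Series of `TU`. -/
noncomputable def sU (p m : ℕ) : Ser := gfW fun w : TU p m => stt p m w.1
/-- Series of `TH`. -/
noncomputable def sH (p m : ℕ) : Ser := gfW fun w : TH p m => stt p m w.1
/-- Series of `TK`. -/
noncomputable def sK (p m : ℕ) : Ser := gfW fun tl : TK p m => ts p m tl.1
/-- Series of `TF`. -/
noncomputable def sF (p m : ℕ) : Ser := gfW fun y : TF p m => stt p m y.1.1 + ts p m y.1.2

end Pool.Agent.Lib.MPba1bba
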