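import Pool.Agent.Lib.MP_ba1bba_al.Defs

/-!
# MP_ba1bba_al: Specs of all modules (proofs in the docstrings)

Write `c = a^p`. In `B(p, p m)` we have `t c t⁻¹ = c^m`, so `c^(m j) t = t c^j`, `t⁻¹ c^(m j) = c^j t⁻¹`.
In a module with hypotheses `SpecX` write `theorem specNAME (hX : SpecX) ... : SpecNAME`.
The numbers are estimates of Lean lines. All facts of the overall statement were checked by computer
(final formula against breadth first search for 11 pairs `(p,m)`).
-/

namespace Pool.Agent.Lib.MPba1bba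

/-! ## I. Functions on ℤ -/

/-- **IC** [60]. Infimal convolution on `ℤ → ℕ`: the infimum over `j : ℤ` of natural numbers is
attained (`Nat.sInf_mem`, or `exists_eq_ciInf_of_...`; `ciInf_le` with `OrderBot.bddBelow`). -/
def SpecIC : Prop :=
  (∀ (f g : ℤ → ℕ) (k : ℤ), ∃ j, ic f g k = f j + g (k - j)) ∧
  (∀ (f g : ℤ → ℕ) (k j : ℤ), ic f g k ≤ f j + g (k - j)) ∧
  (∀ f g : ℤ → ℕ, ic f g = ic g f) ∧
  (∀ f g h : ℤ → ℕ, ic (ic f g) h = ic f (ic g h)) ∧
  (∀ (c : ℕ) (f g : ℤ → ℕ), ic (fun k => c + f k) g = fun k => c + ic f g k) ∧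
  (∀ (x : ℤ) (f g : ℤ → ℕ), ic (fun k => f (k - x)) g = fun k => ic f g (k - x))

/-- **EFN** [120]. Facts on `e`. The minimum is attained (there is the digit list `[k]`).
Subadditivity: add the digit lists componentwise (pad with zeros), the length is the maximum of the
lengths; it is convenient to prove by induction on lists `d, d'`: there is `d''` with
`dval d'' = dval d + dval d'`, `sum |.| ≤ sum + sum`, `length d'' = max`. Negation: negate the digits.
`e(k) ≤ p |k|`: list `[k]` (and `[]` for `0`). `e(m k) ≤ 2 + e(k)`: list `0 :: d` (if `d = []` then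
`k = 0`). `e(k) ≤ e(m k)`: if `d = d0 :: rest` is optimal for `m k`, then `m ∣ d0`, `d0 = m d'`,
`k = d' + dval rest`; add `d'` to the first digit of `rest` (if `rest = []` take `[d']`), and
`|d'| ≤ |d0|`. Seventh: if `d = d0 :: rest` is optimal for `n` take `l = dval rest`, then
`n - m l = d0` and `e(l) ≤ dcost rest ≤ dcost d - p |d0|`. -/
def SpecEFN : Prop := ∀ p m : ℕ, 1 ≤ p → 1 ≤ m →
  efun p m 0 = 0 ∧
  (∀ k l : ℤ, efun p m (k + l) ≤ efun p m k + efun p m l) ∧
  (∀ k : ℤ, efun p m (-k) = efun p m k) ∧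
  (∀ k : ℤ, efun p m k ≤ p * k.natAbs) ∧
  (∀ k : ℤ, efun p m (m * k) ≤ 2 + efun p m k) ∧
  (∀ k : ℤ, efun p m k ≤ efun p m (m * k)) ∧
  (∀ n : ℤ, ∃ l : ℤ, p * (n - m * l).natAbs + efun p m l ≤ efun p m n) ∧
  (∀ k : ℤ, ∃ d : List ℤ, dval m d = k ∧ efun p m k = dcost p d) ∧
  (∀ d : List ℤ, efun p m (dval m d) ≤ dcost p d)

/-- **BFN** [120]. Facts on `b_s`. The minimum is attained. `b_{s+t} = b_s □ b_t`: (≤) add the
decompositions and use the triangle inequality; (≥) if `A + B = s + t`, put `A1 = A ∩ s`,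
`B1 = s - A`, `A2 = A - s`, `B2 = B - (s - A)` (check `A1 + B1 = s`, `A2 + B2 = t`, `A1 + A2 = A`,
`B1 + B2 = B` by counting, `Multiset.ext` and `omega`), and take `j = card A1`. The decompositions of
`{x}` are `({x}, 0)` and `(0, {x})`. -/
def SpecBFN : Prop := ∀ p : ℕ,
  (∀ (s : Multiset ℤ) (k : ℤ), ∃ A B : Multiset ℤ, A + B = s ∧
    bfun p s k = sumPos A + sumNeg B + p * (k - (A.card : ℤ)).natAbs) ∧
  (∀ (s : Multiset ℤ) (k : ℤ) (A B : Multiset ℤ), A + B = s →
    bfun p s k ≤ sumPos A + sumNeg B + p * (k - (A.card : ℤ)).natAbs) ∧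
  (∀ k : ℤ, bfun p 0 k = p * k.natAbs) ∧
  (∀ s t : Multiset ℤ, bfun p (s + t) = ic (bfun p s) (bfun p t)) ∧
  (∀ (s : Multiset ℤ) (k l : ℤ), bfun p s k ≤ bfun p s l + p * (k - l).natAbs) ∧
  (∀ x k : ℤ, bfun p {x} k =
    min ((-x).toNat + p * k.natAbs) (x.toNat + p * (k - 1).natAbs))

/-- **EFF** [80]. Finite fibres: if `(b_s □ e)(k) ≤ n` there is `j` with `b_s(j) ≤ n` and
`e(k - j) ≤ n`; then `|j| ≤ n + card s` (as `p |j - card A| ≤ n`, `card A ≤ card s`), and a digit list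
of cost `≤ n` has `sum |d_i| ≤ n` and at most `n + 1` digits, so its value is at most `n m^n` in absolute
value (prove `|dval m d| ≤ (sum |d_i|) m^(length d - 1)` by induction). -/
def SpecEFF : Prop := ∀ p m : ℕ, 1 ≤ p → 1 ≤ m → ∀ (s : Multiset ℤ) (n : ℕ),
  {k : ℤ | ic (bfun p s) (efun p m) k ≤ n}.Finite

/-- **SRT** [120], from BFN. Sorted formula for `b_L`, all slopes in `(-p,p)`. Induction on `L`:
`L = x :: L'` with `x` the smallest slope. From `b_{x + L'} = b_{x} □ b_{L'}` and the Lipschitz property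
`b_{x::L'}(k) = min (x⁻ + b_{L'}(k), x⁺ + b_{L'}(k-1))`. By the formula for `L'` the increment
`b_{L'}(k) - b_{L'}(k-1)` is `-p` for `k ≤ 0`, an element of `L'` (so `≥ x`) for `1 ≤ k ≤ length L'`, and
`p` (so `≥ x`) afterwards. So for `k ≤ 0` the minimum is `x⁻ + b_{L'}(k)`, for `k ≥ 1` it is
`x⁺ + b_{L'}(k-1)`, which is the formula for `L`. -/
def SpecSRT : Prop := ∀ (p : ℕ) (L : List ℤ), L.Pairwise (· ≤ ·) →
  (∀ x ∈ L, -(p : ℤ) < x ∧ x < p) → ∀ k : ℤ,
  bfun p (L : Multiset ℤ) k = sumPos ((L.take k.toNat : List ℤ) : Multiset ℤ) +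
    sumNeg ((L.drop k.toNat : List ℤ) : Multiset ℤ) + p * ((-k).toNat + (k - L.length).toNat)

/-- **CVX** [200], from SRT (and BFN if you like). The structure lemma for convex functions. Let
`D j = h(j+1) - h(j)` (monotone). Let `y` be the least `j` with `D j > -p` (exists, as
`D j ≤ -p` for `j < -N`; and `D (N+1) ≥ p > -p`) and `y + n` the least `j` with `D j ≥ p`. The multiset `s`
of the statement is the multiset of the sorted list `L = [D y, ..., D (y+n-1)]`
(both have the same count of every `x`). Left side: for `y ≤ k ≤ y+n` it is `h(k)`, for `k < y` it is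
`h(y) + p (y-k)`, for `k > y+n` it is `h(y+n) + p (k-y-n)`. Right side: by SRT at `i = k - y`; for `0 ≤ i ≤ n`:
`h(y+i) = c + sumPos (take i L) + sumNeg (drop i L)` with `c = min h`: the difference of the two sides
does not depend on `i`, and at the `i` where the slopes change sign the right side is `c` and `h(y+i)` is the
minimum of `h`. -/
def SpecCVX : Prop := ∀ (p : ℕ) (h : ℤ → ℕ), 1 ≤ p →
  (∀ j : ℤ, (h (j + 1) : ℤ) - h j ≤ h (j + 2) - h (j + 1)) →
  (∃ N : ℕ, (∀ j : ℤ, j < -(N : ℤ) → (h (j + 1) : ℤ) - h j ≤ -(p : ℤ)) ∧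
    (∀ j : ℤ, (N : ℤ) < j → (p : ℤ) ≤ h (j + 1) - h j)) →
  (∃ y : ℤ, ∀ k : ℤ, ic h (fun j => p * j.natAbs) k = (⨅ j : ℤ, h j) +
    bfun p (∑ x ∈ Finset.Ioo (-(p : ℤ)) (p : ℤ),
      {j : ℤ | (h (j + 1) : ℤ) - h j = x}.ncard • ({x} : Multiset ℤ)) (k - y))

/-- **STR** [80], from SRT, CVX. The structure lemma for sections: apply CVX to
`h j = b_s(r + m j)`. Convexity: write `s` as a sorted list, by SRT the increments of `b_s` are
`-p` below `0`, then the sorted slopes, then `p`; so they are monotone, and so are the sums of `m`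
consecutive ones. -/
def SpecSTR : Prop := ∀ p m : ℕ, 1 ≤ p → 1 ≤ m → ∀ s : Multiset ℤ,
  (∀ x ∈ s, -(p : ℤ) < x ∧ x < p) → ∀ r : ℕ, ∃ y : ℤ, ∀ k : ℤ,
  ic (fun j => bfun p s (r + m * j)) (fun j => p * j.natAbs) k =
    cmin p m s r + bfun p (sml p m s r) (k - y)

/-- **SML** [40], from BFN. The empty state: `b_∅ = p |.|`, all increments on `mℤ` are `± p m`. -/
def SpecSML : Prop := ∀ p m : ℕ, 1 ≤ p → 1 ≤ m → cmin p m 0 0 = 0 ∧ sml p m 0 0 = 0

/-- **RAD** [100], from IC, EFN, BFN. Algebra of states: `e □ e = e`, `(p |.|) □ e = e`,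
`b_{s+t} = b_s □ b_t`. Last statement: `b_{x} □ e = min (x⁻ + e(k), x⁺ + e(k-1))`, with `x = 2i - p`,
evaluated at `k + 1`; `min(i,p-i) + x⁻ = p - i`, `min(i,p-i) + x⁺ = i`. -/
def SpecRAD : Prop := ∀ p m : ℕ, 1 ≤ p → 1 ≤ m →
  (∀ σ τ : Sta, ic (rlz p m σ) (rlz p m τ) = rlz p m (σ + τ)) ∧
  (∀ σ : Sta, ic (rlz p m σ) (efun p m) = rlz p m σ) ∧
  rlz p m 0 = efun p m ∧
  (∀ (c : ℕ) (σ : Sta), rlz p m ((c, 0, 0) + σ) = fun k => c + rlz p m σ k) ∧
  (∀ (i : ℕ) (σ : Sta), 0 < i → i < p →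
    (fun k => min (rlz p m σ k + i) (rlz p m σ (k + 1) + (p - i))) =
      rlz p m ((min i (p - i), {2 * (i : ℤ) - p}, -1) + σ))

/-- **SAM** [120], from IC, EFN, BFN, STR. Sampling a state. Put `q = (r - x) / m`,
`ρ = rho m r x`, so `r - x = ρ + m q`. Then `smp r (rlz σ) (k) = c + min_j (b□e)(ρ + m (q + j)) + e(k - j)
= c + G(k + q)`, `G(k') = min_j (b□e)(ρ + m j) + e(k' - j)`. Claim
`G(k') = min_j b(ρ + m j) + e(k' - j)`: (≤) `b □ e ≤ b`; (≥) given `l, j`, take `l'` from EFN (7) with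
`e(ρ + m j - l) ≥ p |ρ + m j - l - m l'| + e(l')`; by the Lipschitz property
`b(l) + e(ρ+mj-l) ≥ b(ρ + m (j - l')) + e(l')` and `e(l') + e(k'-j) ≥ e(k' - (j - l'))`. Then insert
`e = (p |.|) □ e` and use STR (the shift `shf` is the chosen one). -/
def SpecSAM : Prop := ∀ p m : ℕ, 1 ≤ p → 1 ≤ m → ∀ (r : ℕ) (σ : Sta), bdd p σ →
  smp p m r (rlz p m σ) = rlz p m (sam p m r σ) ∧ bdd p (sam p m r σ)

/-- **STT** [80], from RAD, SAM. States of trees and tails: induction on the tree (on the tail),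
following the definitions of `pf`, `stt` (`gt`, `ts`). For `ee r v w` the tree `v` is in `okR`. -/
def SpecSTT : Prop := ∀ p m : ℕ, 1 ≤ p → 1 ≤ m →
  (∀ w : Tr, (okR p m w ∨ okU p m w) → pf p m w = rlz p m (stt p m w) ∧ bdd p (stt p m w)) ∧
  (∀ tl : List (Tr × ℕ), okTl p m tl → gt p m tl = rlz p m (ts p m tl) ∧ bdd p (ts p m tl))

/-! ## II. The group -/

/-- **WRD** [80]. Words: elementary facts. -/
def SpecWRD : Prop := ∀ p q : ℕ,
  IsWord p q 1 0 ∧
  (∀ (g h : BS p q) (n k : ℕ), IsWord p q g n → IsWord p q h k → IsWord p q (g * h) (n + k)) ∧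
  (∀ (g : BS p q) (n : ℕ), IsWord p q g n → IsWord p q g⁻¹ n) ∧
  (∀ i : ℤ, IsWord p q (gA p q ^ i) i.natAbs) ∧
  IsWord p q (gT p q) 1 ∧
  (∀ g : BS p q, ∃ n, IsWord p q g n) ∧
  (∀ g : BS p q, IsWord p q g (wlen p q g)) ∧
  (∀ (g : BS p q) (n : ℕ), IsWord p q g n → wlen p q g ≤ n) ∧
  (∀ m : ℕ, q = p * m → ∀ j : ℤ, gT p q * (gA p q ^ p) ^ j = (gA p q ^ p) ^ (m * j) * gT p q)

/-- **ACT** [200]. The four steps preserve reduced stacks, are inverse to each other on them, and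
`p` steps `a` add one to the exponent (case analysis; `stepA^[i] (w, rest, k) = (mm i w, rest, k)` for
`0 < i < p` if `w` does not end in `mm`). -/
def SpecACT : Prop := ∀ p m : ℕ, 2 ≤ p → 1 ≤ m →
  (∀ x : Stk, okX p m x → okX p m (stepA p x) ∧ okX p m (stepA' p x) ∧ okX p m (stepT m x) ∧
    okX p m (stepT' m x)) ∧
  (∀ x : Stk, okX p m x → stepA' p (stepA p x) = x ∧ stepA p (stepA' p x) = x ∧
    stepT' m (stepT m x) = x ∧ stepT m (stepT' m x) = x) ∧
  (∀ (c : Tr) (rest : List Tr) (k : ℤ), okX p m (c, rest, k) →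
    (stepA p)^[p] (c, rest, k) = (c, rest, k + 1))

/-- **EQV** [120], from WRD (last item). Equivariance of the evaluation: by cases of the definitions.
With `k = r + m k'`: `c^k t = c^r t c^k'`, and `t⁻¹ c^(m k') t = c^k'`. -/
def SpecEQV : Prop := ∀ p m : ℕ, 2 ≤ p → 1 ≤ m → ∀ x : Stk, okX p m x →
  evX p m (stepA p x) = evX p m x * gA p (p * m) ∧
  evX p m (stepT m x) = evX p m x * gT p (p * m)

/-- **BIJ** [250], from WRD, ACT, EQV. The evaluation is a bijection from reduced stacks onto the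
group. The steps give permutations `A, T` of `X = {x // okX x}`; because `T' A^p T = A^(p m)` as maps
(`stepT (c, rest, k + m) = stepT (c, rest, k)` with exponent increased by one, as maps on the right), the
group acts on `X` on the right: a homomorphism from `BS p (p m)` to `(Perm X)ᵐᵒᵖ` or, with inverses,
`g ↦ ψ(g)` to `Perm X` with `ψ(a) = A⁻¹`, `ψ(t) = T⁻¹` (`PresentedGroup.toGroup`), the right action being
`x · g = ψ(g)⁻¹ x`. Let `x0 = (nil, [], 0)`, `evX x0 = 1`. By EQV `evX (x · g) = evX x * g` for all `g` (closure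
induction; also for the inverses), so `evX (x0 · g) = g`: surjective. Conversely `x0 · evX x = x` for reduced
`x`: by induction on trees, `(w0, rest, 0) · evT v = (v appended...)`; precisely: (1) for `okR v`, any reduced
`(nil, rest, 0)`: `(nil, rest, 0) · evT v = (v, rest, 0)`, by induction on `v` (`v = mm i w`:
`stepA^[i] (w, rest, 0) = (mm i w, rest, 0)`; `v = ee r v' w`: from `(w, rest, 0)` the step `t⁻¹` gives
`(nil, w :: rest, 0)`, then `(v', w :: rest, 0)` by induction, `c^r` gives `(v', w :: rest, r)`, and the step `t`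
gives `(ee r v' w, rest, 0)` as `r < m` and not (`v' = nil` and `r = 0`)); (2) the same for `okU w` and
`rest = []`; (3) the frames by induction on the list; (4) the exponent: `x · c^k`. So `evX` is injective. -/
def SpecBIJ : Prop := ∀ p m : ℕ, 2 ≤ p → 1 ≤ m →
  Function.Bijective (fun x : {x : Stk // okX p m x} => evX p m x.1)

/-- **PFF** [150], from IC, EFN. Profiles. (1) stability `sp □ e = sp` (induction; `e □ e = e`).
(2) by the definition if `rest = []`; else `sp (mm i w) (c' :: rest) k = 1 + min_j sp c' rest j +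
min (pf w (k - m j) + i) (pf w (k + 1 - m j) + (p - i))`. (3) The key computation
`(D □ f)` with `D(k) = 1 + min_j h(j) + e(k - m j)`: one has `sp v (w :: rest) (l) = 1 + min_j h(j) +
pf v (l - m j)`, `h = sp w rest`, and `smp r (sp v (w :: rest)) (k) = 1 + min_{i,j} h(j) + pf v (r + m (i - j)) +
e(k - i) = 1 + (h □ smp r (pf v))(k)`; the left side is `sp (ee r v w) rest = 2 + h □ smp r (pf v)`
(by the definition if `rest = []`, else by associativity). (4) definition. (5)
`sp nil (w :: rest) (m k) = 1 + min_j h(j) + e(m (k - j))` and `e(k - j) ≤ e(m (k-j))`, `h □ e = h`; for (≤)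
take `j = k`. -/
def SpecPFF : Prop := ∀ p m : ℕ, 1 ≤ p → 1 ≤ m →
  (∀ (c : Tr) (rest : List Tr), ic (sp p m c rest) (efun p m) = sp p m c rest) ∧
  (∀ (i : ℕ) (w : Tr) (rest : List Tr) (k : ℤ), i ≤ p →
    sp p m (Tr.mm i w) rest k = min (sp p m w rest k + i) (sp p m w rest (k + 1) + (p - i))) ∧
  (∀ (r : ℕ) (v w : Tr) (rest : List Tr) (k : ℤ),
    sp p m (Tr.ee r v w) rest k = 1 + smp p m r (sp p m v (w :: rest)) k) ∧
  (∀ (r : ℕ) (w : Tr) (k : ℤ), sp p m (Tr.uu r w) [] k = 1 + smp p m r (sp p m w []) k) ∧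
  (∀ (w : Tr) (rest : List Tr) (k : ℤ),
    sp p m Tr.nil (w :: rest) (m * k) = 1 + sp p m w rest k)

/-- **LIP** [120], from EFN, IC, PFF. The profile is 1-Lipschitz for the steps. For `stepA`: by
stability and `e(±1) ≤ p` the function `sp c rest` is `p`-Lipschitz; then use PFF (2). For `stepT`, with
`k = r + m k'`, `h = sp c rest` (stable): `smp r h k' ≤ h(r + m k')` and
`h(r + m k') ≤ h(r + m j) + e(m (k' - j)) ≤ h(r + m j) + 2 + e(k' - j)`; if `c = nil` and `r = 0` use PFF (5). -/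
def SpecLIP : Prop := ∀ p m : ℕ, 2 ≤ p → 1 ≤ m → ∀ x : Stk, okX p m x →
  spX p m (stepA p x) ≤ spX p m x + 1 ∧ spX p m x ≤ spX p m (stepA p x) + 1 ∧
  spX p m (stepT m x) ≤ spX p m x + 1 ∧ spX p m x ≤ spX p m (stepT m x) + 1

/-- **REA** [150], from WRD, IC, EFN, PFF. Upper bound: `evX x` has a word of length `≤ spX x`.
First `c^k` has a word of length `e(k)`: for a digit list `x :: rest`, `c^(x + m y) = c^x t c^y t⁻¹`. Then
induction on the size of the stack (total number of constructors, or first on the list of frames, then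
on the tree with `rest` arbitrary): `(mm i w, rest, k)`: from `(w, rest, k)` by `a^i`, or from
`(w, rest, k+1)` by `a^(-(p-i))`; `(ee r v w, rest, k)`: from `(v, w :: rest, r + m j)` by `t c^(k-j)`;
`(uu r w, [], k)`: from `(w, [], r + m j)` by `t c^(k-j)`; `(nil, w :: rest, k)`: from `(w, rest, j)` by
`t⁻¹ c^(k - m j)`; `(nil, [], k)`: `e(k)`. The minima are attained (IC). -/
def SpecREA : Prop := ∀ p m : ℕ, 2 ≤ p → 1 ≤ m → ∀ x : Stk, okX p m x →
  ∃ n ≤ spX p m x, IsWord p (p * m) (evX p m x) n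

/-- **LEN** [80], from WRD, ACT, EQV, BIJ, LIP, REA, EFN. The word length is the profile:
`≤` is REA; for `≥` follow a word of length `n` of `evX x` from `x0 = (nil, [], 0)` (`spX x0 = e(0) = 0`): the
profile changes by at most one in every step, and the end point is `x` by injectivity. -/
def SpecLEN : Prop := ∀ p m : ℕ, 2 ≤ p → 1 ≤ m → ∀ x : Stk, okX p m x →
  wlen p (p * m) (evX p m x) = spX p m x

/-! ## III. Tails and counting -/

/-- **THB** [120]. Unfolding digits: `(w0, tail, k) ↦ th w0 [] tail k` is a bijection from valid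
triples onto reduced stacks. Inverse: `un c [] k tl = (c, tl, k)`,
`un c (c' :: rest) k tl = un c' rest (k / m) ((c, (k % m).toNat) :: tl)`. One has
`okX (th c rest tl k) ↔ okS c rest ∧ okTl' tl ∧ (tl = [] ∨ c = nil ∨ endM c)` where the condition `r < m` is
dropped from `okTl`, by induction on the tail. -/
def SpecTHB : Prop := ∀ p m : ℕ, 1 ≤ m →
  Set.BijOn (fun y : Tr × List (Tr × ℕ) × ℤ => th m y.1 [] y.2.1 y.2.2)
    {y | okF p m y} {x | okX p m x}

/-- **THF** [80], from IC, EFN, PFF. The profile of `th`: induction on the tail, for all `c, rest, k`.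
With `H = pf w □ gt tl`: `sp w (c :: rest) □ gt tl` at `r + m k` is `1 + min_j sp c rest j + H(r + m (k - j))`, and
`(sp c rest □ (1 + smp r H))(k) = 1 + min_{j,i} sp c rest j + H(r + m i) + e(k - j - i)`; use
`sp c rest □ e = sp c rest`. -/
def SpecTHF : Prop := ∀ p m : ℕ, 1 ≤ p → 1 ≤ m →
  ∀ (c : Tr) (rest : List Tr) (tl : List (Tr × ℕ)) (k : ℤ),
    spX p m (th m c rest tl k) = ic (sp p m c rest) (gt p m tl) k

/-- **CNT** [100], from BIJ, LEN, THB, THF, STT, RAD. The sphere counts the valid pairs with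
exponent: by BIJ and LEN the sphere is `{x // okX x, spX x = n}`, by THB and THF it is
`{y // okF y, (pf y.1 □ gt y.2.1)(y.2.2) = n}`, by STT and RAD this function is
`rlz (stt y.1 + ts y.2.1) (y.2.2) = c + (b_s □ e)(k - x)`; shift the exponent by `x`. -/
def SpecCNT : Prop := ∀ p m : ℕ, 2 ≤ p → 1 ≤ m → ∀ n : ℕ,
  sphere p (p * m) n = Nat.card {y : TF p m × ℤ //
    (stt p m y.1.1.1 + ts p m y.1.1.2).1 +
      ic (bfun p (stt p m y.1.1.1 + ts p m y.1.1.2).2.1) (efun p m) y.2 = n}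

/-! ## IV. Weight enumerators -/

/-- **GFB** [150]. Weight enumerators: reindexing, sums, a point, shift, the letters. -/
def SpecGFB : Prop :=
  (∀ (α β : Type) (f : α ≃ β) (c : β → ℕ) (s : β → Multiset ℤ),
    gf (fun x => c (f x)) (fun x => s (f x)) = gf c s) ∧
  (∀ (α β : Type) (c : α ⊕ β → ℕ) (s : α ⊕ β → Multiset ℤ), FF c →
    gf c s = gf (fun x => c (Sum.inl x)) (fun x => s (Sum.inl x)) +
      gf (fun x => c (Sum.inr x)) (fun x => s (Sum.inr x))) ∧
  (∀ (c : Unit → ℕ) (s : Unit → Multiset ℤ),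
    gf c s = PowerSeries.monomial (c ()) (AddMonoidAlgebra.single (s ()) (1 : ℤ))) ∧
  (∀ (α : Type) (c : α → ℕ) (s : α → Multiset ℤ) (d : ℕ), FF c →
    gf (fun x => d + c x) s = PowerSeries.X ^ d * gf c s) ∧
  (∀ p : ℕ, gf (fun i : {i : ℕ // 0 < i ∧ i < p} => min i.1 (p - i.1))
    (fun i => ({2 * (i.1 : ℤ) - p} : Multiset ℤ)) = serY p) ∧
  (∀ (α : Type) (c : α → ℕ) (s : α → Multiset ℤ) (P : α → Prop), FF c →
    gf c s = gf (fun x : {x // P x} => c x.1) (fun x => s x.1) +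
      gf (fun x : {x // ¬ P x} => c x.1) (fun x => s x.1))

/-- **GFP** [120]. Products. -/
def SpecGFP : Prop := ∀ (α β : Type) (c : α → ℕ) (s : α → Multiset ℤ) (c' : β → ℕ)
    (s' : β → Multiset ℤ), FF c → FF c' →
  FF (fun x : α × β => c x.1 + c' x.2) ∧
  gf (fun x : α × β => c x.1 + c' x.2) (fun x => s x.1 + s' x.2) = gf c s * gf c' s'

/-- **GFL** [150]. The section operator: for every `x` the map `r ↦ rho m r (σ x).2.2` is a bijection of
`{0, ..., m-1}`, so the sum over `r` of `z^(c + cmin s (rho r)) [sml s (rho r)]` is `z^c Λ[s]`. -/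
def SpecGFL : Prop := ∀ p m : ℕ, 1 ≤ m → ∀ (α : Type) (σ : α → Sta), FF (fun x => (σ x).1) →
  FF (fun y : α × Fin m => (sam p m y.2 (σ y.1)).1) ∧
  gfW (fun y : α × Fin m => sam p m y.2 (σ y.1)) = lam p m (gfW σ)

/-- **GFS** [120], from EFF. Summation over the exponent. -/
def SpecGFS : Prop := ∀ p m : ℕ, 1 ≤ p → 1 ≤ m → ∀ (α : Type) (σ : α → Sta),
  FF (fun x => (σ x).1) → ∀ n : ℕ,
  (Nat.card {y : α × ℤ // (σ y.1).1 + ic (bfun p (σ y.1).2.1) (efun p m) y.2 = n} : ℤ) =
    PowerSeries.coeff n (psi p m (gfW σ))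

/-- **FFT** [120]. Finite fibres: the weight of a tree is at least its number of constructors on the
spine plus those of the sub-blocks (`mm`: `min(i,p-i) ≥ 1`, `ee`: `2`, `uu`: `1`, and `sam` does not decrease the
weight, but it forgets nothing: `(sam σ).1 ≥ σ.1`), and the labels are bounded; the same for tails. -/
def SpecFFT : Prop := ∀ p m : ℕ, 1 ≤ p → 1 ≤ m →
  FF (fun w : TU p m => (stt p m w.1).1) ∧ FF (fun w : TR p m => (stt p m w.1).1) ∧
  FF (fun x : TE p m => (stE p m x.1).1) ∧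
  FF (fun tl : {tl : List (Tr × ℕ) // okTl p m tl} => (ts p m tl.1).1)

/-- **EQR** [150], from GFB, GFP, FFT. Words of `okR`: `TR` is the disjoint union of `nil`, `TA` and
the words ending in a block, the latter being `TE × (nil or TA)`; `TA = letters × (nil or words ending in a
block)`. -/
def SpecEQR : Prop := ∀ p m : ℕ, 1 ≤ p → 1 ≤ m →
  sR p m = (1 + sA p m) * (1 + sE p m) ∧
  sA p m = serY p * (1 + sE p m * (1 + sA p m))

/-- **EQE** [80], from GFB, GFL, FFT, SML. Blocks: `TE` is `TR × Fin m` without `(nil, 0)`, whose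
sampled state has weight `0` and no slope. -/
def SpecEQE : Prop := ∀ p m : ℕ, 1 ≤ p → 1 ≤ m →
  sE p m = PowerSeries.X ^ 2 * (lam p m (sR p m) - 1)

/-- **EQU** [150], from GFB, GFP, FFT. Words of `okU`: last constructor `nil`, `mm` (`TB`), `ee`
(`TE × (nil or TB)`), `uu` (`TH`); in `TB` the last letter is preceded by `nil`, a word of `TH`, or a word
ending in a block. -/
def SpecEQU : Prop := ∀ p m : ℕ, 1 ≤ p → 1 ≤ m →
  sU p m = (1 + sB p m) * (1 + sE p m) + sH p m ∧
  sB p m = serY p * (1 + sH p m + sE p m * (1 + sB p m))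

/-- **EQH** [60], from GFB, GFL, FFT. `TH = TU × Fin m`. -/
def SpecEQH : Prop := ∀ p m : ℕ, 1 ≤ p → 1 ≤ m → sH p m = PowerSeries.X * lam p m (sU p m)

/-- **EQK** [120], from GFB, GFP, GFL, FFT, LIN. Nonempty tails: `(w, r) :: tl` with `tl = []` and
`w` in `okR`, or `tl` nonempty and `w = nil` or `w` in `TA`. -/
def SpecEQK : Prop := ∀ p m : ℕ, 1 ≤ p → 1 ≤ m →
  sK p m = PowerSeries.X * lam p m (sR p m + (1 + sA p m) * sK p m)

/-- **EQF** [100], from GFB, GFP, FFT. Pairs (first frame, tail): `tail = []`, or the tail is nonempty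
and the first frame is `nil` or in `TB`. -/
def SpecEQF : Prop := ∀ p m : ℕ, 1 ≤ p → 1 ≤ m →
  sF p m = sU p m + (1 + sB p m) * sK p m ∧
  FF (fun y : TF p m => (stt p m y.1.1 + ts p m y.1.2).1)

/-- **LIN** [80]. `Λ` is additive and its coefficients up to `n` depend only on the coefficients
up to `n`. -/
def SpecLIN : Prop := ∀ p m : ℕ,
  (∀ F G : Ser, lam p m (F + G) = lam p m F + lam p m G) ∧
  (∀ (F G : Ser) (n : ℕ), (∀ i ≤ n, PowerSeries.coeff i F = PowerSeries.coeff i G) →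
    ∀ i ≤ n, PowerSeries.coeff i (lam p m F) = PowerSeries.coeff i (lam p m G))

/-- **UNQ** [150], from LIN. Uniqueness: if two solutions agree up to degree `< n` then they agree in
degree `n`: `Y` has constant coefficient `0`, and the equations for `E`, `H` have the factors `X^2`, `X`. -/
def SpecUNQ : Prop := ∀ p m : ℕ,
  (∀ Q E H Q' E' H' : Ser, Sys p m Q E H → Sys p m Q' E' H' → Q' = Q ∧ E' = E ∧ H' = H) ∧
  (∀ A E H H' : Ser, H = PowerSeries.X * lam p m ((1 + A) * (1 + E + H)) →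
    H' = PowerSeries.X * lam p m ((1 + A) * (1 + E + H')) → H' = H)

/-- **ALG** [100], from UNQ. Pure algebra. `1 - Y E` is a unit (constant coefficient `1`); put
`Q = Y (1 - Y E)⁻¹`. Then `A = Q (1 + E)`; `(1 - Y E)(1 + A) = 1 + Y`, `(1 - Y E)(1 + B) = 1 + Y + Y H`,
so `(1 - Y E) U = (1 + Y)(1 + E + H)`, `U = (1 + A)(1 + E + H)`; `K` satisfies the equation of `H`
(as `R = (1 + A)(1 + E)`), so `K = H`; and `(1 - Y E) F = 1 + E + 2 H + Y (1 + E) + 2 Y H + Y H^2
= (1 - Y E)(1 + E + 2 H) + Y (1 + E + H)^2`. -/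
def SpecALG : Prop := ∀ (p m : ℕ) (A E B H K R U F : Ser),
  R = (1 + A) * (1 + E) → A = serY p * (1 + E * (1 + A)) →
  E = PowerSeries.X ^ 2 * (lam p m R - 1) →
  U = (1 + B) * (1 + E) + H → B = serY p * (1 + H + E * (1 + B)) →
  H = PowerSeries.X * lam p m U → K = PowerSeries.X * lam p m (R + (1 + A) * K) →
  F = U + (1 + B) * K →
  ∃ Q : Ser, Sys p m Q E H ∧ F = 1 + E + 2 * H + Q * (1 + E + H) ^ 2

end Pool.Agent.Lib.MPba1bba
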